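import Mathlib

namespace Pool.Agent.Lib.RealRAM

/-- Memory: one-dimensional arrays of natural numbers (`mem.nat a i`) used for indexing and
two-dimensional arrays of real numbers (`mem.real a i j`). -/
structure Mem where
  nats : ℕ → ℕ → ℕ
  reals : ℕ → ℕ → ℕ → ℝ

/-- Index expressions: zero, successor, look-up in an array of naturals. -/
inductive Ix where
  | zero : Ix
  | succ : Ix → Ix
  | look : ℕ → Ix → Ix

def Ix.ev (s : Mem) : Ix → ℕ
  | .zero => 0
  | .succ e => e.ev s + 1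
  | .look a e => s.nats a (e.ev s)

/-- A cell of an array of reals. -/
structure Cell where
  arr : ℕ
  fstIx : Ix
  sndIx : Ix

def Cell.rd (s : Mem) (c : Cell) : ℝ := s.reals c.arr (c.fstIx.ev s) (c.sndIx.ev s)

def Mem.wrN (s : Mem) (a i v : ℕ) : Mem :=
  ⟨fun a' i' => if a' = a ∧ i' = i then v else s.nats a' i', s.reals⟩

def Mem.wrR (s : Mem) (c : Cell) (x : ℝ) : Mem :=
  ⟨s.nats, fun a i j =>
    if a = c.arr ∧ i = c.fstIx.ev s ∧ j = c.sndIx.ev s then x else s.reals a i j⟩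

/-- Comparisons of two indices or of two real numbers. -/
inductive Tst where
  | ltN : Ix → Ix → Tst
  | ltR : Cell → Cell → Tst

def Tst.holds (s : Mem) : Tst → Prop
  | .ltN e f => e.ev s < f.ev s
  | .ltR c d => c.rd s < d.rd s

/-- While-programs over the reals. -/
inductive Cmd where
  | setN : ℕ → Ix → Ix → Cmd
  | setOne : Cell → Cmd
  | plus : Cell → Cell → Cell → Cmd
  | minus : Cell → Cell → Cell → Cmd
  | times : Cell → Cell → Cell → Cmd
  | quot : Cell → Cell → Cell → Cmd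
  | andThen : Cmd → Cmd → Cmd
  | cond : Tst → Cmd → Cmd → Cmd
  | loop : Tst → Cmd → Cmd

/-- `Exec ok c s t s'`: started in memory `s`, the program `c` halts in memory `s'` after exactly
`t` elementary steps (assignments, arithmetic operations, comparisons), never divides by zero,
and every real number it computes satisfies `ok`. -/
inductive Exec (ok : ℝ → Prop) : Cmd → Mem → ℕ → Mem → Prop where
  | setN (a i v s) : Exec ok (.setN a i v) s 1 (s.wrN a (i.ev s) (v.ev s))
  | setOne (d s) : ok 1 → Exec ok (.setOne d) s 1 (s.wrR d 1)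
  | plus (d x y s) : ok (x.rd s + y.rd s) → Exec ok (.plus d x y) s 1 (s.wrR d (x.rd s + y.rd s))
  | minus (d x y s) : ok (x.rd s - y.rd s) → Exec ok (.minus d x y) s 1 (s.wrR d (x.rd s - y.rd s))
  | times (d x y s) : ok (x.rd s * y.rd s) → Exec ok (.times d x y) s 1 (s.wrR d (x.rd s * y.rd s))
  | quot (d x y s) : y.rd s ≠ 0 → ok (x.rd s / y.rd s) →
      Exec ok (.quot d x y) s 1 (s.wrR d (x.rd s / y.rd s))
  | andThen (c₁ c₂ s s₁ s₂ t₁ t₂) : Exec ok c₁ s t₁ s₁ → Exec ok c₂ s₁ t₂ s₂ →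
      Exec ok (.andThen c₁ c₂) s (t₁ + t₂) s₂
  | condT (b c₁ c₂ s s' t) : b.holds s → Exec ok c₁ s t s' → Exec ok (.cond b c₁ c₂) s (t + 1) s'
  | condF (b c₁ c₂ s s' t) : ¬ b.holds s → Exec ok c₂ s t s' → Exec ok (.cond b c₁ c₂) s (t + 1) s'
  | loopF (b c s) : ¬ b.holds s → Exec ok (.loop b c) s 1 s
  | loopT (b c s s₁ s₂ t₁ t₂) : b.holds s → Exec ok c s t₁ s₁ → Exec ok (.loop b c) s₁ t₂ s₂ →
      Exec ok (.loop b c) s (t₁ + t₂ + 1) s₂

/-- The input memory of the instance `(m, n, A, b)`: `nats 0 0 = m`, `nats 1 0 = n`,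
`reals 0 i j = A i j`, `reals 1 i 0 = b i`, everything else `0`. -/
def inputMem {m n : ℕ} (A : Matrix (Fin m) (Fin n) ℝ) (b : Fin m → ℝ) : Mem :=
  ⟨fun a i => if a = 0 ∧ i = 0 then m else if a = 1 ∧ i = 0 then n else 0,
   fun a i j =>
    if h : a = 0 ∧ i < m ∧ j < n then A ⟨i, h.2.1⟩ ⟨j, h.2.2⟩
    else if h : a = 1 ∧ i < m ∧ j = 0 then b ⟨i, h.2.1⟩ else 0⟩

/-- Binary encoding length of a rational number. -/
def bitLen (q : ℚ) : ℕ := 1 + Nat.size q.num.natAbs + Nat.size q.den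

end Pool.Agent.Lib.RealRAM
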