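import Pool.Agent.Lib.RealRAM.SPHt

/-! Common denominators, heights of determinants and of solutions of linear systems. -/

namespace Pool.Agent.Lib.RealRAM.SP

open Finset

/-- a family of rational numbers with a common denominator -/
def Pb {ι : Type} (k : ℕ) (f : ι → ℝ) : Prop :=
  ∃ D : ℤ, D ≠ 0 ∧ |D| ≤ 2 ^ k ∧ ∀ i, ∃ z : ℤ, |z| ≤ 2 ^ k ∧ f i = z / D

theorem Pb.mono {ι : Type} {k k' : ℕ} {f : ι → ℝ} (h : Pb k f) (hk : k ≤ k') : Pb k' f := by
  obtain ⟨D, h0, h1, h2⟩ := h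
  have : (2 : ℤ) ^ k ≤ 2 ^ k' := pow_le_pow_right₀ (by norm_num) hk
  exact ⟨D, h0, h1.trans this, fun i => (h2 i).imp fun z hz => ⟨hz.1.trans this, hz.2⟩⟩

theorem Pb.hb {ι : Type} {k : ℕ} {f : ι → ℝ} (h : Pb k f) (i : ι) : Hb k (f i) := by
  obtain ⟨D, h0, h1, h2⟩ := h
  obtain ⟨z, a, b⟩ := h2 i
  exact ⟨z, D, h0, a, h1, b⟩

theorem Pb.of_hb {ι : Type} [Fintype ι] {k : ℕ} {f : ι → ℝ} (h : ∀ i, Hb k (f i)) :
    Pb (Fintype.card ι * k) f := by
  classical
  have key : ∀ s : Finset ι, ∃ D : ℤ, D ≠ 0 ∧ |D| ≤ 2 ^ (s.card * k) ∧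
      ∀ i ∈ s, ∃ z : ℤ, |z| ≤ 2 ^ (s.card * k) ∧ f i = z / D := by
    intro s
    induction s using Finset.induction_on with
    | empty => exact ⟨1, one_ne_zero, by simp, by simp⟩
    | insert j s hj ih =>
      obtain ⟨D, h0, h1, h2⟩ := ih
      obtain ⟨a, b, b0, b1, b2, b3⟩ := h j
      have hD : (D : ℝ) ≠ 0 := by exact_mod_cast h0
      have hb : (b : ℝ) ≠ 0 := by exact_mod_cast b0
      rw [card_insert_of_notMem hj, add_mul, one_mul, pow_add]
      refine ⟨D * b, mul_ne_zero h0 b0, by rw [abs_mul]; gcongr, fun i hi => ?_⟩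
      rcases mem_insert.1 hi with rfl | hi
      · exact ⟨D * a, by rw [abs_mul]; gcongr, by rw [b3]; push_cast; field_simp⟩
      · obtain ⟨z, c1, c2⟩ := h2 i hi
        exact ⟨z * b, by rw [abs_mul]; gcongr, by rw [c2]; push_cast; field_simp⟩
  obtain ⟨D, a, b, c⟩ := key univ
  exact ⟨D, a, b, fun i => c i (mem_univ i)⟩

theorem Hb.sum {ι : Type} {k : ℕ} {f : ι → ℝ} (s : Finset ι) (h : ∀ i ∈ s, Hb k (f i)) :
    Hb (s.card * (k + 1)) (∑ i ∈ s, f i) := by
  classical
  induction s using Finset.induction_on with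
  | empty => simpa using Hb.zero 0
  | insert j s hj ih =>
    rw [sum_insert hj, card_insert_of_notMem hj]
    exact ((h j (by simp)).add (ih fun i hi => h i (by simp [hi]))).mono (by nlinarith)

theorem Hb.det {I : Type} [Fintype I] [DecidableEq I] {n k : ℕ} (hn : Fintype.card I ≤ n)
    {M : Matrix I I ℝ} (h : ∀ i j, Hb k (M i j)) : Hb (n * n + n * n * k * n) M.det := by
  obtain ⟨D, h0, h1, h2⟩ := (Pb.of_hb (f := fun p : I × I => M p.1 p.2) fun p => h _ _).mono
    (k' := n * n * k) (by rw [Fintype.card_prod]; gcongr)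
  choose Z hZ using h2
  refine ⟨(Matrix.of fun i j => Z (i, j)).det, D ^ Fintype.card I, pow_ne_zero _ h0, ?_, ?_, ?_⟩
  · have := Matrix.det_le (A := Matrix.of fun i j => Z (i, j)) (abv := AbsoluteValue.abs)
      (x := 2 ^ (n * n * k)) fun i j => (hZ (i, j)).1
    simp only [AbsoluteValue.abs_apply, nsmul_eq_mul] at this
    refine this.trans ?_
    rw [pow_add, ← pow_mul]
    gcongr
    · have h1 := (Nat.factorial_le hn).trans (Nat.factorial_le_pow n)
      have h2 : n ^ n ≤ (2 ^ n) ^ n := Nat.pow_le_pow_left Nat.lt_two_pow_self.le n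
      rw [← pow_mul] at h2
      exact_mod_cast h1.trans h2
    · norm_num
  · rw [abs_pow]
    refine (pow_le_pow_left₀ (abs_nonneg _) h1 _).trans ?_
    rw [← pow_mul]
    exact pow_le_pow_right₀ (by norm_num) ((Nat.mul_le_mul_left _ hn).trans (Nat.le_add_left _ _))
  · have : M = (D : ℝ)⁻¹ • (Matrix.of fun i j => Z (i, j)).map (Int.cast : ℤ → ℝ) := by
      ext i j
      simp [(hZ (i, j)).2, div_eq_inv_mul]
    rw [this, Matrix.det_smul, Int.cast_det, inv_pow, div_eq_inv_mul]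
    push_cast; rfl

/-- the bound of `small_span` -/
def spanB (n : ℕ) : ℕ := 2 * (n * n + n * n * (n * (n + n + 1)) * n)

/-- a vector in the span of vectors of small height is a short combination with small
coefficients -/
theorem small_span {J : Type} [Fintype J] {n : ℕ} (hn : Fintype.card J ≤ n) {S : Set (J → ℝ)}
    (hS : ∀ v ∈ S, ∀ j, Hb n (v j)) {c : J → ℝ} (hc : ∀ j, Hb n (c j))
    (h : c ∈ Submodule.span ℝ S) : ∃ s : Finset (J → ℝ), ↑s ⊆ S ∧ s.card ≤ n ∧
      ∃ y : (J → ℝ) → ℝ, (∀ v ∈ s, Hb (spanB n) (y v)) ∧ c = ∑ v ∈ s, y v • v := by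
  classical
  obtain ⟨b, hb, e, li⟩ := exists_linearIndependent ℝ S
  have fb : b.Finite := li.setFinite
  lift b to Finset (J → ℝ) using fb
  have hcard : Fintype.card b ≤ n := by
    have := li.fintype_card_le_finrank
    rw [Module.finrank_fintype_fun_eq_card] at this
    exact this.trans hn
  rw [← e] at h
  obtain ⟨y, hy⟩ := Submodule.mem_span_finset.1 h
  refine ⟨b, hb, by simpa using hcard, y, fun v hv => ?_, hy.2.symm⟩
  set V : Matrix b J ℝ := Matrix.of fun i j => i.1 j with hV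
  have hG : (V * V.transpose).det ≠ 0 := fun h0 => by
    obtain ⟨z, z0, hz⟩ := Matrix.exists_mulVec_eq_zero_iff.2 h0
    have h1 : V.transpose.mulVec z = 0 := by
      rw [← dotProduct_self_eq_zero, Matrix.mulVec_transpose, ← Matrix.dotProduct_mulVec,
        ← Matrix.mulVec_transpose, Matrix.mulVec_mulVec, hz, dotProduct_zero]
    refine z0 (funext (Fintype.linearIndependent_iff.1 li z ?_))
    ext j
    simpa [Matrix.mulVec, dotProduct, hV, mul_comm] using congrFun h1 j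
  have h2 : (V * V.transpose).mulVec (fun i => y i) = V.mulVec c := by
    rw [← Matrix.mulVec_mulVec]
    congr 1
    ext j
    rw [← hy.2, Finset.sum_apply, ← Finset.sum_coe_sort]
    simp [Matrix.mulVec, dotProduct, hV, mul_comm]
  have h3 : y v = ((V * V.transpose).updateCol ⟨v, hv⟩ (V.mulVec c)).det /
      (V * V.transpose).det := by
    rw [← Matrix.cramer_apply, ← h2, Matrix.cramer_eq_adjugate_mulVec, Matrix.mulVec_mulVec,
      Matrix.adjugate_mul, eq_div_iff hG]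
    simp [Matrix.smul_mulVec, mul_comm]
  have e1 : ∀ i j, Hb (n * (n + n + 1)) ((V * V.transpose) i j) := fun i j =>
    (Hb.sum univ fun l _ => (hS _ (hb i.2) l).mul (hS _ (hb j.2) l)).mono
      (Nat.mul_le_mul_right _ hn)
  rw [h3, spanB, two_mul]
  refine (Hb.det hcard fun i j => ?_).div (Hb.det hcard e1)
  rw [Matrix.updateCol_apply]
  split_ifs
  · exact (Hb.sum univ fun l _ => (hS _ (hb i.2) l).mul (hc l)).mono (Nat.mul_le_mul_right _ hn)
  · exact e1 i j

/-- the least bound of a monotone family -/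
theorem iInf_le_nat {S : ℕ → Prop} (hS : ∀ j k, S j → j ≤ k → S k) {k : ℕ} :
    ⨅ (j : ℕ) (_ : S j), (j : ℕ∞) ≤ k ↔ S k := by
  refine ⟨fun h => ?_, fun h => iInf₂_le_of_le k h le_rfl⟩
  by_contra hn
  have : ((k + 1 : ℕ) : ℕ∞) ≤ ⨅ (j : ℕ) (_ : S j), (j : ℕ∞) := by
    refine le_iInf₂ fun j hj => ?_
    by_contra hlt
    exact hn (hS _ _ hj (by
      have : ¬ (k + 1 ≤ j) := fun h => hlt (by exact_mod_cast h)
      omega))
  have h2 := this.trans h
  have : k + 1 ≤ k := by exact_mod_cast h2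
  omega

/-- polynomially bounded functions -/
@[fun_prop]
def IsP (g : ℕ → ℕ) : Prop := PB (fun n => n) g

@[fun_prop] theorem IsP.id : IsP (fun n => n) := PB.self
@[fun_prop] theorem IsP.const (c : ℕ) : IsP (fun _ => c) := PB.const c
@[fun_prop] theorem IsP.comp {f g : ℕ → ℕ} (hf : IsP f) (hg : IsP g) : IsP (fun n => f (g n)) :=
  (PB.reindex hf g).trans hg
@[fun_prop] theorem IsP.add {f g : ℕ → ℕ} (hf : IsP f) (hg : IsP g) : IsP (fun n => f n + g n) :=
  PB.add hf hg
@[fun_prop] theorem IsP.mul {f g : ℕ → ℕ} (hf : IsP f) (hg : IsP g) : IsP (fun n => f n * g n) :=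
  PB.mul hf hg
@[fun_prop] theorem IsP.eval (p : Polynomial ℕ) : IsP (fun n => p.eval n) := ⟨p, fun _ => le_rfl⟩
@[fun_prop] theorem IsP.spanB : IsP spanB := by unfold SP.spanB; fun_prop

theorem PE.of_isP {I : Type} {n f : I → ℕ∞} {g : ℕ → ℕ} (hg : IsP g)
    (h : ∀ i (k : ℕ), n i ≤ k → f i ≤ g k) : PE n f := by
  obtain ⟨p, hp⟩ := hg
  exact PE.of_nat p fun i k hk => (h i k hk).trans (Nat.cast_le.2 (hp k))

theorem PB.of_isP {I : Type} {n f : I → ℕ} {g : ℕ → ℕ} (hg : IsP g)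
    (h : ∀ i, f i ≤ g (n i)) : PB n f := (PB.reindex hg n).mono h

end Pool.Agent.Lib.RealRAM.SP
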