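import Pool.Agent.Lib.RealRAM.SPList
import Pool.Agent.Lib.RealRAM.SPCramer

/-! Unary natural numbers, indexing, sums and iteration for `SP`. -/

namespace Pool.Agent.Lib.RealRAM.SP

open Enc

instance : Enc ℕ := ⟨fun n => enc (List.replicate n ())⟩

variable {α β γ δ : Type} [Enc α] [Enc β] [Enc γ] [Enc δ]

@[simp] theorem sz_unit (u : Unit) : sz u = 1 := rfl
@[simp] theorem ht_unit (u : Unit) : ht u = 0 := rfl

@[simp] theorem sz_nat (n : ℕ) : sz n = 2 * n + 1 := by
  change sz (List.replicate n ()) = _
  induction n with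
  | zero => simp
  | succ n ih => simp [List.replicate_succ, ih]; omega

@[simp] theorem ht_nat (n : ℕ) : ht n = 0 := by
  change ht (List.replicate n ()) = _
  induction n with
  | zero => simp
  | succ n ih => simp [List.replicate_succ, ih]

theorem IsP.mono_bound {g : ℕ → ℕ} (hg : IsP g) :
    ∃ p : Polynomial ℕ, ∀ a b, a ≤ b → g a ≤ p.eval b := by
  obtain ⟨p, hp⟩ := hg
  exact ⟨p, fun a b h => (hp a).trans (eval_mono p h)⟩

theorem ht_le_of_mu {a : α} {H : ℕ} (h : mu a ≤ H) : ht a ≤ H := (ht_le_mu a).trans h

theorem sz_le_of_mu {a : α} {H : ℕ} (h : mu a ≤ H) : sz a ≤ H := by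
  exact_mod_cast (sz_le_mu a).trans h

theorem hb_of_mem {l : List ℝ} {H : ℕ} (h : ht l ≤ H) {x : ℝ} (hx : x ∈ l) : Hb H x :=
  htR_le.1 ((ht_le_of_mem hx).trans h)

theorem hb_getD {l : List ℝ} {H : ℕ} (h : ht l ≤ H) (j : ℕ) : Hb H (l.getD j 0) := by
  rcases lt_or_ge j l.length with hj | hj
  · rw [List.getD_eq_getElem _ _ hj]; exact hb_of_mem h (List.getElem_mem hj)
  · rw [List.getD_eq_default _ _ hj]; exact Hb.zero _

namespace SP

/-- a fold whose states satisfy an invariant that bounds sizes and heights -/
theorem foldl_inv {l : α → List γ} {s : α → β} {f : α → β → γ → β} (hl : SP l) (hs : SP s)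
    (hf : SP (fun p : α × β × γ => f p.1 p.2.1 p.2.2)) (I : α → List γ → β → Prop)
    (h0 : ∀ a, I a [] (s a))
    (h1 : ∀ a u x b, u ++ [x] <+: l a → I a u b → I a (u ++ [x]) (f a b x))
    {g : ℕ → ℕ} (hg : IsP g)
    (hsz : ∀ a u b n, u <+: l a → I a u b → sz a ≤ n → sz (l a) ≤ n → sz (s a) ≤ n → sz b ≤ g n)
    (hht : ∀ a u b (n : ℕ), u <+: l a → I a u b → mu a ≤ n → mu (l a) ≤ n → mu (s a) ≤ n →
      ht b ≤ g n) :
    SP (fun a => (l a).foldl (f a) (s a)) := by
  have key : ∀ a u, u <+: l a → I a u (u.foldl (f a) (s a)) := by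
    intro a u
    induction u using List.reverseRecOn with
    | nil => exact fun _ => h0 a
    | append_singleton u x ih =>
      intro hu
      rw [List.foldl_append]
      exact h1 a u x _ hu (ih ((List.prefix_append _ _).trans hu))
  obtain ⟨p, hp⟩ := hg.mono_bound
  have e1 := hl.size.reindex (Prod.fst : α × ℕ → α)
  have e2 := hs.size.reindex (Prod.fst : α × ℕ → α)
  have e3 := hl.meas.reindex (Prod.fst : α × ℕ → α)
  have e4 := hs.meas.reindex (Prod.fst : α × ℕ → α)
  refine foldl hl hs hf ((PB.eval p ((PB.self.add e1).add e2)).mono fun q => ?_)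
    (PE.trans (PE.of_isP (n := fun q : α × ℕ => mu q.1 + mu (l q.1) + mu (s q.1)) hg
      fun q k hk => ?_) ((PE.self.add e3).add e4))
  · exact (hsz q.1 _ _ (sz q.1 + sz (l q.1) + sz (s q.1)) (List.take_prefix _ _)
      (key _ _ (List.take_prefix _ _)) (by omega) (by omega) (by omega)).trans (hp _ _ le_rfl)
  · exact hht q.1 _ _ k (List.take_prefix _ _) (key _ _ (List.take_prefix _ _))
      ((le_self_add.trans le_self_add).trans hk) ((le_add_self.trans le_self_add).trans hk)
      (le_add_self.trans hk)

theorem units {n : α → ℕ} (hn : SP n) : SP (fun a => List.replicate (n a) ()) := hn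

@[fun_prop] theorem length {f : α → List β} (hf : SP f) : SP (fun a => (f a).length) := by
  have : SP fun a => (f a).map fun _ => () := by fun_prop
  refine Rz.congr this (fun _ => rfl) fun a => ?_
  change enc (List.replicate _ ()) = _
  simp only [List.map_const']

@[fun_prop] theorem replicate {n : α → ℕ} {f : α → β} (hn : SP n) (hf : SP f) :
    SP (fun a => List.replicate (n a) (f a)) :=
  (map (f := fun a _ => f a) hn.units (by fun_prop)).congr fun a => by simp

@[fun_prop] theorem natAdd {f g : α → ℕ} (hf : SP f) (hg : SP g) : SP (fun a => f a + g a) :=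
  (append hf.units hg.units).length.congr fun a => by simp

@[fun_prop] theorem natMul {f g : α → ℕ} (hf : SP f) (hg : SP g) : SP (fun a => f a * g a) :=
  (flatMap (f := fun a _ => List.replicate (g a) ()) hf.units
    (hg.units.comp (g := Prod.fst) (by fun_prop))).length.congr fun a => by simp

@[fun_prop] theorem natConst (c : ℕ) : SP (fun _ : α => c) := by
  induction c with
  | zero => exact (nil (β := Unit)).length
  | succ c ih => exact (cons unit ih.units).length.congr fun _ => by simp

@[fun_prop] theorem natPow {f : α → ℕ} (hf : SP f) (c : ℕ) : SP (fun a => f a ^ c) := by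
  induction c with
  | zero => exact (natConst 1).congr fun _ => by simp
  | succ c ih => exact (ih.natMul hf).congr fun _ => pow_succ _ _

/-- iteration of a map with an invariant -/
theorem iterate {n : α → ℕ} {s : α → β} {f : α → β → β} (hn : SP n) (hs : SP s)
    (hf : SP (fun p : α × β => f p.1 p.2)) (I : α → ℕ → β → Prop) (h0 : ∀ a, I a 0 (s a))
    (h1 : ∀ a k b, k < n a → I a k b → I a (k + 1) (f a b)) {g : ℕ → ℕ} (hg : IsP g)
    (hsz : ∀ a k b N, I a k b → k ≤ N → sz a ≤ N → sz (s a) ≤ N → sz b ≤ g N)
    (hht : ∀ a k b (N : ℕ), I a k b → k ≤ N → mu a ≤ N → mu (s a) ≤ N → ht b ≤ g N) :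
    SP (fun a => (f a)^[n a] (s a)) := by
  have l : ∀ a (u : List Unit), u <+: List.replicate (n a) () →
      u.length ≤ sz (List.replicate (n a) ()) := fun a u hu => hu.length_le.trans (length_le_sz _)
  refine (foldl_inv (f := fun a b _ => f a b) hn.units hs
    (hf.comp (g := fun p : α × β × Unit => (p.1, p.2.1)) (by fun_prop))
    (fun a u b => I a u.length b) h0 (fun a u x b hu h => ?_) hg
    (fun a u b N hu h a1 a2 a3 => hsz a _ b N h ((l a u hu).trans a2) a1 a3)
    fun a u b N hu h a1 a2 a3 => hht a _ b N h ((l a u hu).trans (sz_le_of_mu a2)) a1 a3).congr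
      fun a => ?_
  · have := hu.length_le
    simp only [List.length_append, List.length_singleton, List.length_replicate] at this ⊢
    exact h1 a _ b this h
  · generalize s a = b
    induction n a generalizing b with
    | zero => rfl
    | succ k ih => rw [List.replicate_succ, List.foldl_cons, Function.iterate_succ_apply, ih]

@[fun_prop] theorem drop {n : α → ℕ} {f : α → List β} (hn : SP n) (hf : SP f) :
    SP (fun a => (f a).drop (n a)) := by
  refine (iterate (f := fun _ l => l.tail) hn hf (by fun_prop) (fun a _ b => b.Sublist (f a))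
    (fun _ => List.Sublist.refl _) (fun a k b _ h => (List.tail_sublist b).trans h) IsP.id
    (fun a k b N h _ _ h3 => (sz_sublist h).trans h3)
    fun a k b N h _ _ h3 => (ht_sublist h).trans (ht_le_of_mu h3)).congr fun a => ?_
  generalize f a = l
  induction n a generalizing l with
  | zero => rfl
  | succ k ih => rw [Function.iterate_succ_apply, ← ih]; simp

@[fun_prop] theorem getElem? {n : α → ℕ} {f : α → List β} (hf : SP f) (hn : SP n) :
    SP (fun a => (f a)[n a]?) :=
  (drop hn hf).head?.congr fun _ => by simp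

@[fun_prop] theorem listGetD {n : α → ℕ} {f : α → List β} {g : α → β} (hf : SP f) (hn : SP n)
    (hg : SP g) : SP (fun a => (f a).getD (n a) (g a)) :=
  ((getElem? hf hn).getD hg).congr fun _ => by simp

@[fun_prop] theorem natSub {f g : α → ℕ} (hf : SP f) (hg : SP g) : SP (fun a => f a - g a) :=
  (drop hg hf.units).length.congr fun a => by simp

@[fun_prop] theorem natBle {f g : α → ℕ} (hf : SP f) (hg : SP g) :
    SP (fun a => Nat.ble (f a) (g a)) :=
  (natSub hf hg).units.isEmpty.congr fun a => by
    rw [Bool.eq_iff_iff]; simp [Nat.sub_eq_zero_iff_le]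

@[fun_prop] theorem natBlt {f g : α → ℕ} (hf : SP f) (hg : SP g) :
    SP (fun a => Nat.blt (f a) (g a)) :=
  natBle (natAdd hf (natConst 1)) hg

@[fun_prop] theorem natBeq {f g : α → ℕ} (hf : SP f) (hg : SP g) : SP (fun a => f a == g a) :=
  ((natBle hf hg).and (natBle hg hf)).congr fun a => by
    rw [Bool.eq_iff_iff]; simp only [beq_iff_eq, Bool.and_eq_true, Nat.ble_eq]; omega

@[fun_prop] theorem range {n : α → ℕ} (hn : SP n) : SP (fun a => List.range (n a)) := by
  refine (iterate (f := fun _ (l : List ℕ) => l ++ [l.length]) hn nil (by fun_prop)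
    (fun a k b => b = List.range k) (fun _ => rfl)
    (fun a k b _ h => by simp [h, List.range_succ]) (g := fun N => N * (2 * N + 1 + 1) + 1)
    (by fun_prop) (fun a k b N h hk _ _ => ?_) fun a k b N h _ _ _ => ?_).congr fun a => ?_
  · subst h
    refine (sz_list_le (B := 2 * N + 1) fun x hx => ?_).trans (by simp; gcongr)
    have := List.mem_range.1 hx
    simp; omega
  · exact ht_list_le.2 fun x _ => by simp
  · induction n a with
    | zero => rfl
    | succ k ih => rw [Function.iterate_succ_apply', ← ih]; simp [List.range_succ]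

@[fun_prop] theorem take {n : α → ℕ} {f : α → List β} (hn : SP n) (hf : SP f) :
    SP (fun a => (f a).take (n a)) :=
  (drop (natSub hf.length hn) hf.reverse).reverse.congr fun a => by
    rw [List.reverse_drop]; simp [List.take_eq_take_iff]; omega

@[fun_prop] theorem zip {f : α → List β} {g : α → List γ} (hf : SP f) (hg : SP g) :
    SP (fun a => (f a).zip (g a)) := by
  have : SP fun a => (List.range (f a).length).filterMap fun i =>
      (f a)[i]?.bind fun x => (g a)[i]?.map fun y => (x, y) := by fun_prop
  refine this.congr fun a => ?_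
  generalize f a = l
  generalize g a = l'
  induction l generalizing l' with
  | nil => simp
  | cons x l ih =>
    cases l' with
    | nil => symm; simp
    | cons y l' => simp [List.range_succ_eq_map, List.filterMap_map, ih l']

@[fun_prop] theorem zipWith {f : α → List β} {g : α → List γ} {h : α → β → γ → δ} (hf : SP f)
    (hg : SP g) (hh : SP fun p : α × β × γ => h p.1 p.2.1 p.2.2) :
    SP (fun a => List.zipWith (h a) (f a) (g a)) :=
  (map (f := fun a (p : β × γ) => h a p.1 p.2) (zip hf hg) hh).congr fun a => by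
    rw [← List.map_uncurry_zip_eq_zipWith]; rfl

theorem _root_.Pool.Agent.Lib.RealRAM.SP.Hb.listSum {k : ℕ} {l : List ℝ} (h : ∀ x ∈ l, Hb k x) :
    Hb (l.length * (k + 1)) l.sum := by
  induction l with
  | nil => simpa using Hb.zero 0
  | cons x l ih =>
    rw [List.sum_cons, List.length_cons]
    exact ((h x (by simp)).add (ih fun y hy => h y (by simp [hy]))).mono (by nlinarith)

theorem _root_.Pool.Agent.Lib.RealRAM.SP.Hb.listProd {k : ℕ} {l : List ℝ} (h : ∀ x ∈ l, Hb k x) :
    Hb (l.length * k) l.prod := by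
  induction l with
  | nil => simpa using Hb.one 0
  | cons x l ih =>
    rw [List.prod_cons, List.length_cons]
    exact ((h x (by simp)).mul (ih fun y hy => h y (by simp [hy]))).mono (by nlinarith)

@[fun_prop] theorem sum {f : α → List ℝ} (hf : SP f) : SP (fun a => (f a).sum) := by
  refine (foldl_inv (f := fun _ (b : ℝ) x => b + x) hf zero (by fun_prop)
    (fun a u b => b = u.sum) (fun _ => rfl) (fun a u x b _ h => by simp [h])
    (g := fun N => N * (N + 1) + 1) (by fun_prop) (fun a u b N _ _ _ _ _ => by simp)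
    fun a u b N hu h _ h2 _ => ?_).congr fun a => List.sum_eq_foldl
  subst h
  refine htR_le.2 ((Hb.listSum (k := N) fun x hx =>
    hb_of_mem (ht_le_of_mu h2) (hu.subset hx)).mono ?_)
  have := hu.length_le.trans ((length_le_sz _).trans (sz_le_of_mu h2))
  nlinarith

@[fun_prop] theorem prod {f : α → List ℝ} (hf : SP f) : SP (fun a => (f a).prod) := by
  refine (foldl_inv (f := fun _ (b : ℝ) x => b * x) hf one (by fun_prop)
    (fun a u b => b = u.prod) (fun _ => rfl) (fun a u x b _ h => by simp [h])
    (g := fun N => N * N + 1) (by fun_prop) (fun a u b N _ _ _ _ _ => by simp)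
    fun a u b N hu h _ h2 _ => ?_).congr fun a => List.prod_eq_foldl
  subst h
  refine htR_le.2 ((Hb.listProd (k := N) fun x hx =>
    hb_of_mem (ht_le_of_mu h2) (hu.subset hx)).mono ?_)
  have := hu.length_le.trans ((length_le_sz _).trans (sz_le_of_mu h2))
  nlinarith

@[fun_prop] theorem natCast {n : α → ℕ} (hn : SP n) : SP (fun a => (n a : ℝ)) :=
  (replicate hn one).sum.congr fun _ => by simp

@[fun_prop] theorem pow {f : α → ℝ} {n : α → ℕ} (hf : SP f) (hn : SP n) :
    SP (fun a => f a ^ n a) :=
  (replicate hn hf).prod.congr fun _ => by simp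

@[fun_prop] theorem ofNat (c : ℕ) [c.AtLeastTwo] : SP (fun _ : α => (OfNat.ofNat c : ℝ)) :=
  (natConst c).natCast

@[fun_prop] theorem inv {f : α → ℝ} (hf : SP f) : SP (fun a => (f a)⁻¹) :=
  (div one hf).congr fun _ => by simp

@[fun_prop] theorem max {f g : α → ℝ} (hf : SP f) (hg : SP g) : SP (fun a => max (f a) (g a)) :=
  (cond (lt hf hg) hg hf).congr fun a => by
    rcases lt_or_ge (f a) (g a) with h | h
    · simp [ltb_iff.2 h, h.le]
    · simp [ltb_false.2 h, h]

@[fun_prop] theorem min {f g : α → ℝ} (hf : SP f) (hg : SP g) : SP (fun a => min (f a) (g a)) :=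
  (cond (lt hf hg) hf hg).congr fun a => by
    rcases lt_or_ge (f a) (g a) with h | h
    · simp [ltb_iff.2 h, h.le]
    · simp [ltb_false.2 h, h]

@[fun_prop] theorem abs {f : α → ℝ} (hf : SP f) : SP (fun a => |f a|) := max hf hf.neg

end SP

/-- the scalar product of two lists -/
def dot (a b : List ℝ) : ℝ := (List.zipWith (· * ·) a b).sum

@[fun_prop] theorem sp_dot {f g : α → List ℝ} (hf : SP f) (hg : SP g) :
    SP (fun a => dot (f a) (g a)) := by
  unfold Pool.Agent.Lib.RealRAM.SP.dot; fun_prop

theorem dot_eq_sum {a : List ℝ} {w : ℕ} (h : a.length ≤ w) (b : List ℝ) :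
    dot a b = ∑ j ∈ Finset.range w, a.getD j 0 * b.getD j 0 := by
  induction a generalizing b w with
  | nil => simp [dot]
  | cons x a ih =>
    cases b with
    | nil => simp [dot]
    | cons y b =>
      obtain ⟨w, rfl⟩ : ∃ v, w = v + 1 := ⟨w - 1, by simp at h; omega⟩
      have := ih (w := w) (by simpa using h) b
      rw [Finset.sum_range_succ', add_comm]
      simpa [dot] using this

theorem dot_comm (a b : List ℝ) : dot a b = dot b a := by
  rw [dot, dot, List.zipWith_comm]; simp [mul_comm]

theorem dot_ofFn {w : ℕ} (f : Fin w → ℝ) (b : List ℝ) :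
    dot (List.ofFn f) b = ∑ j, f j * b.getD j 0 := by
  rw [dot_eq_sum (w := w) (by simp), Finset.sum_range]; simp

theorem dot_map_range (w : ℕ) (f : ℕ → ℝ) (b : List ℝ) :
    dot ((List.range w).map f) b = ∑ j ∈ Finset.range w, f j * b.getD j 0 := by
  rw [dot_eq_sum (w := w) (by simp)]
  exact Finset.sum_congr rfl fun j hj => by simp [Finset.mem_range.1 hj]

theorem getD_map_range {β : Type} {w j : ℕ} (h : j < w) (f : ℕ → β) (d : β) :
    ((List.range w).map f).getD j d = f j := by simp [h]

theorem sum_map_range (w : ℕ) (f : ℕ → ℝ) :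
    ((List.range w).map f).sum = ∑ j ∈ Finset.range w, f j := by
  induction w with
  | zero => simp
  | succ w ih => simp [List.range_succ, Finset.sum_range_succ, ih]

end Pool.Agent.Lib.RealRAM.SP
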