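import Pool.Agent.Lib.RealRAM.SPList

/-! From `SP` deciders on lists of rows to programs on the input memory of an instance. -/

namespace Pool.Agent.Lib.RealRAM.SP

open Enc

variable {ok : ℝ → Prop}

/-- copy a real number into a new leaf whose address goes to register 11 -/
def leaf (c : Cell) : Cmd := .andThen (.plus cD c (sc 3)) (alloc 11 .zero)

theorem runs_leaf (c : Cell) (s : Mem) (h0 : s.reals 3 0 0 = 0) (hok : ok (c.rd s)) :
    Runs ok (leaf c) s 6 fun s' => Rep s' (.atom (c.rd s)) (s'.nats 11 0) ∧ Ext s s' ∧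
      (∀ j, j ≠ 2 → s'.reals j = s.reals j) ∧
      ∀ j, j ≠ 11 → j ≠ 3 → j ≠ 6 → j ≠ 7 → j ≠ 8 → s'.nats j = s.nats j := by
  refine Runs.andThen (t₁ := 1) (t₂ := 5) (Runs.plus (by simpa [h0] using hok)
    ((runs_alloc 11 (by simp) false _).mono le_rfl fun s' h => ?_))
  obtain ⟨h1, h2, h3, h4, -, -, h7, h8⟩ := h
  have e : ∀ x, hp (s.wrR cD x) = hp s := fun _ => rfl
  rw [e] at h2 h3 h4
  refine ⟨⟨?_, ?_, ?_⟩, (ext_wrD s _).trans h1, fun j hj => ?_, h8⟩
  · simp [h3, h2]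
  · simpa [h3] using h4
  · simp [h3, h7, cD, hp, h0]
  · simp [h7, cD, hj]

def rowCmd : Cmd := .andThen (alloc 5 .zero) (.andThen
  (forL 13 (vr 1) (.andThen (leaf ⟨0, vr 12, vr 13⟩) (mk 5 (vr 11) (vr 5))))
  (.andThen (leaf ⟨1, vr 12, .zero⟩) (.andThen (mk 5 (vr 5) (vr 11)) (mk 4 (vr 5) (vr 4)))))

def readCmd : Cmd := .andThen (alloc 4 .zero) (forL 12 (vr 0) rowCmd)

/-- the rows read so far, in reverse order -/
def rowsR (a : ℕ → ℕ → ℝ) (b : ℕ → ℝ) (n i : ℕ) : List (List ℝ × ℝ) :=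
  ((List.range i).map fun i => (((List.range n).map (a i)).reverse, b i)).reverse

theorem rep_mk {s s' : Mem} {u v : Val} {a b : ℕ} (e : Ext s s') (h2 : hp s' = hp s + 1)
    (h4 : s'.nats 6 (hp s) = 1) (h5 : s'.nats 7 (hp s) = a) (h6 : s'.nats 8 (hp s) = b)
    (hu : Rep s u a) (hv : Rep s v b) : Rep s' (.cons u v) (hp s) :=
  ⟨by omega, h4, h5 ▸ hu.ext e, h6 ▸ hv.ext e⟩

theorem runs_row (s : Mem) (n i : ℕ) (v : Val) (h0 : s.reals 3 0 0 = 0) (hn : s.nats 1 0 = n)
    (hi : s.nats 12 0 = i) (ha : ∀ j < n, ok (s.reals 0 i j)) (hb : ok (s.reals 1 i 0))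
    (hv : Rep s v (rR s)) :
    Runs ok rowCmd s (n * 15 + 27) fun s' => Rep s' (.cons
      (enc (((List.range n).map (s.reals 0 i)).reverse, s.reals 1 i 0)) v) (rR s') := by
  refine (Runs.andThen (t₁ := 5) (t₂ := n * (13 + 2) + 2 + (6 + (7 + 7)))
    ((runs_alloc 5 (by simp) false s).mono le_rfl fun s1 h1 => ?_)).le (by omega)
  obtain ⟨e1, a2, a3, a4, -, -, a7, a8⟩ := h1
  refine Runs.andThen ((Runs.forL n 13 (fun j s' => Ext s s' ∧
    Rep s' (enc ((List.range j).map (s.reals 0 i)).reverse) (s'.nats 5 0) ∧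
    s'.nats 4 = s.nats 4) (by simp [Cmd.wN, leaf, mk, alloc, asg]) ?_ ?_ ?_ ?_).frame
      fun s2 hA h2 => ?_)
  · intro s' h
    rw [ev_vr, h.1 1 (by simp [Cmd.wN, leaf, mk, alloc, asg]), a8 1 (by simp) (by simp) (by simp)
      (by simp) (by simp), hn]
  · refine ⟨e1, ⟨?_, ?_⟩, a8 4 (by simp) (by simp) (by simp) (by simp) (by simp)⟩
    · omega
    · simpa [a3] using a4
  · intro j s' w h
    have e := ext_wrN s' 13 w (by simp)
    exact ⟨h.1.trans e, by simpa using h.2.1.ext e, by simpa using h.2.2⟩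
  · intro j hj s' hA hx h
    have r0 : s'.reals 0 = s.reals 0 := by
      rw [hA.2 0 (by simp [Cmd.wR, leaf, mk, alloc, asg, cD]), a7]
    have r3 : s'.reals 3 = s.reals 3 := by
      rw [hA.2 3 (by simp [Cmd.wR, leaf, mk, alloc, asg, cD]), a7]
    have n12 : s'.nats 12 0 = i := by
      rw [hA.1 12 (by simp [Cmd.wN, leaf, mk, alloc, asg]), a8 12 (by simp) (by simp) (by simp)
        (by simp) (by simp), hi]
    have hrd : Cell.rd s' ⟨0, vr 12, vr 13⟩ = s.reals 0 i j := by simp [r0, n12, hx]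
    refine Runs.andThen (t₁ := 6) (t₂ := 7) ((runs_leaf _ s' (by rw [r3, h0])
      (by rw [hrd]; exact ha j hj)).mono le_rfl fun s2 ⟨b1, b2, _, b4⟩ =>
        (runs_mk 5 (by simp) _ _ s2 (by simp)).mono le_rfl fun s3 h3 => ?_)
    obtain ⟨e3, c2, c3, c4, c5, c6, -, c8⟩ := h3
    refine ⟨h.1.trans (b2.trans e3), ?_, by simp [c8 4, b4 4, h.2.2]⟩
    rw [c3, List.range_succ, List.map_append, List.reverse_append]
    refine rep_mk e3 c2 c4 c5 c6 (by rw [hrd] at b1; exact b1) ?_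
    rw [ev_vr, b4 5 (by simp) (by simp) (by simp) (by simp) (by simp)]
    exact h.2.1.ext b2
  · obtain ⟨e2, r2, n4⟩ := h2
    have r1 : s2.reals 1 = s.reals 1 := by
      rw [hA.2 1 (by simp [forL, Cmd.wR, leaf, mk, alloc, asg, cD]), a7]
    have r3 : s2.reals 3 = s.reals 3 := by
      rw [hA.2 3 (by simp [forL, Cmd.wR, leaf, mk, alloc, asg, cD]), a7]
    have n12 : s2.nats 12 0 = i := by
      rw [hA.1 12 (by simp [forL, Cmd.wN, leaf, mk, alloc, asg]), a8 12 (by simp) (by simp)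
        (by simp) (by simp) (by simp), hi]
    have hrd : Cell.rd s2 ⟨1, vr 12, .zero⟩ = s.reals 1 i 0 := by simp [r1, n12]
    refine Runs.andThen ((runs_leaf _ s2 (by rw [r3, h0]) (by rw [hrd]; exact hb)).mono le_rfl
      fun s3 ⟨b1, b2, _, b4⟩ => Runs.andThen ((runs_mk 5 (by simp) _ _ s3 (by simp)).mono le_rfl
        fun s4 h4 => (runs_mk 4 (by simp) _ _ s4 (by simp)).mono le_rfl fun s5 h5 => ?_))
    obtain ⟨e4, c2, c3, c4, c5, c6, -, c8⟩ := h4
    obtain ⟨e5, d2, d3, d4, d5, d6, -, -⟩ := h5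
    rw [rR, d3]
    refine rep_mk e5 d2 d4 d5 d6 ?_ ?_
    · rw [ev_vr, c3]
      exact rep_mk e4 c2 c4 c5 c6 (by simpa [b4 5] using r2.ext b2) (by rw [hrd] at b1; exact b1)
    · have := hv.ext (e2.trans (b2.trans e4))
      simpa [c8 4, b4 4, n4, rR] using this

theorem runs_read (s : Mem) (m n : ℕ) (h0 : s.reals 3 0 0 = 0) (hm : s.nats 0 0 = m)
    (hn : s.nats 1 0 = n) (ha : ∀ i < m, ∀ j < n, ok (s.reals 0 i j))
    (hb : ∀ i < m, ok (s.reals 1 i 0)) :
    Runs ok readCmd s (5 + (m * (n * 15 + 27 + 2) + 2)) fun s' =>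
      Rep s' (enc (rowsR (s.reals 0) (fun i => s.reals 1 i 0) n m)) (rR s') := by
  refine Runs.andThen ((runs_alloc 4 (by simp) false s).mono le_rfl fun s1 h1 => ?_)
  obtain ⟨-, a2, a3, a4, -, -, a7, a8⟩ := h1
  refine Runs.forL m _ (fun i s' => Rep s' (enc (rowsR (s.reals 0) (fun i => s.reals 1 i 0) n i))
    (rR s')) (by simp [rowCmd, forL, Cmd.wN, leaf, mk, alloc, asg]) ?_ ?_ ?_ ?_
  · intro s' h
    rw [ev_vr, h.1 0 (by simp [rowCmd, forL, Cmd.wN, leaf, mk, alloc, asg]), a8 0 (by simp)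
      (by simp) (by simp) (by simp) (by simp), hm]
  · exact ⟨by rw [rR]; omega, by simpa [rR, a3] using a4⟩
  · intro j s' w h
    simpa [rR] using h.ext (ext_wrN s' 12 w (by simp))
  · intro i hi s' hA hx h
    have r : ∀ j, j ≠ 2 → s'.reals j = s.reals j := fun j hj => by
      rw [hA.2 j (by simp [rowCmd, forL, Cmd.wR, leaf, mk, alloc, asg, cD, hj]), a7]
    have n1 : s'.nats 1 0 = n := by
      rw [hA.1 1 (by simp [rowCmd, forL, Cmd.wN, leaf, mk, alloc, asg]), a8 1 (by simp)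
        (by simp) (by simp) (by simp) (by simp), hn]
    refine (runs_row s' n i _ (by rw [r 3 (by simp), h0]) n1 hx
      (by rw [r 0 (by simp)]; exact ha i hi) (by rw [r 1 (by simp)]; exact hb i hi) h).mono le_rfl
        fun s2 h2 => ?_
    rw [r 0 (by simp), r 1 (by simp)] at h2
    simp only [rowsR, List.range_succ, List.map_append, List.reverse_append] at h2 ⊢
    exact h2

/-- the rows of an instance -/
def rows {m n : ℕ} (A : Matrix (Fin m) (Fin n) ℝ) (b : Fin m → ℝ) : List (List ℝ × ℝ) :=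
  List.ofFn fun i => (List.ofFn (A i), b i)

theorem rows_eq {m n : ℕ} (A : Matrix (Fin m) (Fin n) ℝ) (b : Fin m → ℝ) :
    ((rowsR ((inputMem A b).reals 0) (fun i => (inputMem A b).reals 1 i 0) n m).reverse.map
      fun r => (r.1.reverse, r.2)) = rows A b := by
  simp only [rowsR, List.reverse_reverse, List.map_map, rows]
  refine List.ext_getElem (by simp) fun i h1 h2 => ?_
  have hi : i < m := by simpa using h1
  simp only [List.getElem_map, List.getElem_range, Function.comp, List.reverse_reverse,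
    List.getElem_ofFn, Prod.mk.injEq]
  refine ⟨List.ext_getElem (by simp) fun j h3 h4 => ?_, by simp [inputMem, hi]⟩
  have hj : j < n := by simpa using h3
  simp [inputMem, hi, hj]

theorem sz_rowsR (a : ℕ → ℕ → ℝ) (b : ℕ → ℝ) (n m : ℕ) :
    sz (rowsR a b n m) ≤ m * (2 * n + 4) + 1 := by
  refine (sz_list_le (B := 2 * n + 3) fun r hr => ?_).trans (by simp [rowsR])
  simp only [rowsR, List.mem_reverse, List.mem_map] at hr
  obtain ⟨i, -, rfl⟩ := hr
  have := sz_list_le (l := ((List.range n).map (a i)).reverse) (B := 1) (by simp)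
  simp at this ⊢; omega

theorem runs_main {f : List (List ℝ × ℝ) → Bool} (hf : SP f) :
    ∃ (P : Cmd) (p q : Polynomial ℕ), ∀ (m n : ℕ) (A : Matrix (Fin m) (Fin n) ℝ) (b : Fin m → ℝ)
      (H : ℕ∞), (∀ i j, htR (A i j) ≤ H) → (∀ i, htR (b i) ≤ H) →
      Runs (fun x => htR x ≤ pe q ((m * (2 * n + 4) + 1 : ℕ) + H)) P (inputMem A b)
        (p.eval (m + n)) fun s' => (s'.nats 2 0 = 1 ↔ f (rows A b) = true) := by
  have hg : SP fun l : List (List ℝ × ℝ) => f (l.reverse.map fun r => (r.1.reverse, r.2)) := by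
    fun_prop
  obtain ⟨P, T, B, ⟨p, hp⟩, ⟨q, hq⟩, h⟩ := hg
  open Polynomial in
  refine ⟨.andThen readCmd (.andThen P (asg 2 (.look 6 (vr 4)))),
    5 + (X * (X * 15 + 27 + 2) + 2) + (p.comp (X * (2 * X + 4) + 1) + 1), q + X,
    fun m n A b H hA hb => ?_⟩
  have e : ∀ x, pe (q + Polynomial.X) x = pe q x + x := fun x => by simp [pe]
  set l := rowsR ((inputMem A b).reals 0) (fun i => (inputMem A b).reals 1 i 0) n m with hl
  have hA' : ∀ i < m, ∀ j < n, htR ((inputMem A b).reals 0 i j) ≤ H := fun i hi j hj => by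
    simpa [inputMem, hi, hj] using hA ⟨i, hi⟩ ⟨j, hj⟩
  have hb' : ∀ i < m, htR ((inputMem A b).reals 1 i 0) ≤ H := fun i hi => by
    simpa [inputMem, hi] using hb ⟨i, hi⟩
  have hs : sz l ≤ m * (2 * n + 4) + 1 := sz_rowsR _ _ _ _
  have hh : ht l ≤ H := by
    refine ht_list_le.2 fun r hr => ?_
    simp only [hl, rowsR, List.mem_reverse, List.mem_map, List.mem_range] at hr
    obtain ⟨i, hi, rfl⟩ := hr
    rw [ht_pair]
    refine max_le (ht_list_le.2 fun x hx => ?_) (hb' i hi)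
    simp only [List.mem_reverse, List.mem_map, List.mem_range] at hx
    obtain ⟨j, hj, rfl⟩ := hx
    exact hA' i hi j hj
  have hmu : mu l ≤ (m * (2 * n + 4) + 1 : ℕ) + H := by rw [mu_def]; gcongr
  refine (Runs.andThen (t₂ := p.eval (m * (2 * n + 4) + 1) + 1) ((runs_read _ m n
    (by simp [inputMem]) (by simp [inputMem]) (by simp [inputMem])
    (fun i hi j hj => (hA' i hi j hj).trans (by rw [e]; exact le_add_self.trans le_add_self))
    (fun i hi => (hb' i hi).trans (by rw [e]; exact le_add_self.trans le_add_self))).mono le_rfl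
      fun s1 h1 => Runs.andThen ?_)).le ?_
  · refine (((h l).2.2.mono (fun x hx => hx.trans ((hq l).trans ((pe_mono q hmu).trans
      (by rw [e]; exact le_self_add)))) ((hp l).trans (eval_mono p hs))) s1 h1).mono le_rfl
        fun s2 h2 => Runs.asg ?_
    simp only [hl, rows_eq] at h2
    have := h2.1
    cases hf : f (rows A b)
    · rw [hf] at this
      simpa [rR] using ne_of_eq_of_ne this.2 (by simp)
    · rw [hf] at this
      simpa [rR] using this.2.1
  · have := eval_mono p (show m * (2 * n + 4) + 1 ≤ (m + n) * (2 * (m + n) + 4) + 1 by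
      gcongr <;> omega)
    have h2 : m * (n * 15 + 27 + 2) ≤ (m + n) * ((m + n) * 15 + 27 + 2) := by gcongr <;> omega
    simp only [Polynomial.eval_add, Polynomial.eval_mul, Polynomial.eval_X, Polynomial.eval_comp,
      Polynomial.eval_ofNat, Polynomial.eval_one]
    omega

/-- a strongly polynomial decider on lists of rows gives a strongly polynomial program -/
theorem SP.program {f : List (List ℝ × ℝ) → Bool} (hf : SP f) :
    ∃ (P : Cmd) (p q : Polynomial ℕ),
    (∀ (m n : ℕ) (A : Matrix (Fin m) (Fin n) ℝ) (b : Fin m → ℝ),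
      ∃ t s', t ≤ p.eval (m + n) ∧ Exec (fun _ => True) P (inputMem A b) t s' ∧
        (s'.nats 2 0 = 1 ↔ f (rows A b) = Bool.true)) ∧
    (∀ (m n : ℕ) (A : Matrix (Fin m) (Fin n) ℚ) (b : Fin m → ℚ),
      ∃ t s', Exec (fun x => ∃ r : ℚ, x = r ∧
          bitLen r ≤ q.eval (∑ i, ∑ j, bitLen (A i j) + ∑ i, bitLen (b i)))
        P (inputMem (A.map fun r => (r : ℝ)) fun i => (b i : ℝ)) t s') := by
  obtain ⟨P, p, q, h⟩ := runs_main hf
  open Polynomial in
  refine ⟨P, p, 2 * q.comp (5 * X + 1) + 3, fun m n A b => ?_, fun m n A b => ?_⟩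
  · obtain ⟨t, s', h1, h2, h3⟩ := h m n A b ⊤ (by simp) (by simp)
    exact ⟨t, s', h1, Exec.mono' (fun _ _ => trivial) h2, h3⟩
  · set L := ∑ i, ∑ j, bitLen (A i j) + ∑ i, bitLen (b i) with hL
    obtain ⟨t, s', -, h2, -⟩ := h m n (A.map fun r => (r : ℝ)) (fun i => (b i : ℝ)) L
      (fun i j => htR_le.2 ((Hb.ofRat _).mono (by
        have h1 := Finset.single_le_sum (f := fun j => bitLen (A i j)) (fun _ _ => Nat.zero_le _)
          (Finset.mem_univ j)
        have h2 := Finset.single_le_sum (f := fun i => ∑ j, bitLen (A i j))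
          (fun _ _ => Nat.zero_le _) (Finset.mem_univ i)
        omega)))
      (fun i => htR_le.2 ((Hb.ofRat _).mono (by
        have h1 := Finset.single_le_sum (f := fun i => bitLen (b i)) (fun _ _ => Nat.zero_le _)
          (Finset.mem_univ i)
        omega)))
    refine ⟨t, s', Exec.mono' (fun x hx => ?_) h2⟩
    have h1 : m * n ≤ ∑ i, ∑ j, bitLen (A i j) := by
      have : ∑ _i : Fin m, ∑ _j : Fin n, 1 ≤ ∑ i, ∑ j, bitLen (A i j) :=
        Finset.sum_le_sum fun i _ => Finset.sum_le_sum fun j _ => by unfold bitLen; omega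
      simpa using this
    have h3 : m ≤ ∑ i, bitLen (b i) := by
      have : ∑ _i : Fin m, 1 ≤ ∑ i, bitLen (b i) :=
        Finset.sum_le_sum fun j _ => by unfold bitLen; omega
      simpa using this
    rw [← Nat.cast_add, pe_coe] at hx
    obtain ⟨r, hr, hr2⟩ := (htR_le.1 hx).bits
    refine ⟨r, hr, hr2.trans ?_⟩
    have := eval_mono q (show m * (2 * n + 4) + 1 + L ≤ 5 * L + 1 by nlinarith)
    simp only [Polynomial.eval_add, Polynomial.eval_mul, Polynomial.eval_X, Polynomial.eval_comp,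
      Polynomial.eval_ofNat, Polynomial.eval_one]
    omega

end Pool.Agent.Lib.RealRAM.SP
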