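import Pool.Agent.Lib.RealRAM.SPLin

/-! Well-conditioned homogeneous strict inequalities in strongly polynomial time:
perceptron steps with rescaling. -/

namespace Pool.Agent.Lib.RealRAM.SP

open Finset

variable {α : Type} [Enc α]

namespace Feas

/-- the columns of the matrix whose row `i` is `2 ^ E i` times row `i` of `G` -/
noncomputable def cols (w : ℕ) (G : List (List ℝ)) (E : List ℕ) : List (List ℝ) :=
  (List.range w).map fun j => (List.range G.length).map fun i =>
    (2 : ℝ) ^ E.getD i 0 * (G.getD i []).getD j 0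

/-- projection of the count vector `y` on the span of `C` -/
noncomputable def proj (M : ℕ) (C : List (List ℝ)) (y : List ℕ) : List ℝ :=
  (List.range M).map fun i => (y.getD i 0 : ℝ) -
    (resid M C ((List.range M).map fun i => (y.getD i 0 : ℝ))).getD i 0

noncomputable def bump (M : ℕ) (y : List ℕ) (z : List ℝ) : List ℕ :=
  (List.range M).map fun i => bif ltb 0 (z.getD i 0) then y.getD i 0 else y.getD i 0 + 1

noncomputable def step (M : ℕ) (C : List (List ℝ)) (y : List ℕ) : List ℕ := bump M y (proj M C y)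

noncomputable def inner (M : ℕ) (C : List (List ℝ)) : List ℕ := (step M C)^[4 * M ^ 4] []

noncomputable def allPos (M : ℕ) (z : List ℝ) : Bool :=
  (List.range M).all fun i => ltb 0 (z.getD i 0)

noncomputable def scale (M : ℕ) (C : List (List ℝ)) (E y : List ℕ) : List ℕ :=
  bif allPos M (proj M C y) then E else (List.range M).map fun i =>
    bif Nat.ble (4 * M ^ 3) (y.getD i 0) then E.getD i 0 + 1 else E.getD i 0

noncomputable def outer (w : ℕ) (G : List (List ℝ)) (E : List ℕ) : List ℕ :=
  scale G.length (cols w G E) E (inner G.length (cols w G E))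

noncomputable def expo (w k : ℕ) (G : List (List ℝ)) : List ℕ := (outer w G)^[G.length * k] []

noncomputable def point (w : ℕ) (G : List (List ℝ)) (E : List ℕ) (z : List ℝ) : List ℝ :=
  solve w ((List.range G.length).map fun i => (G.getD i [], z.getD i 0 / (2 : ℝ) ^ E.getD i 0))

noncomputable def cand (w : ℕ) (G : List (List ℝ)) (E : List ℕ) : List ℝ :=
  point w G E (proj G.length (cols w G E) (inner G.length (cols w G E)))

noncomputable def check (G : List (List ℝ)) (x : List ℝ) : Option (List ℝ) :=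
  bif G.all fun g => ltb 0 (dot g x) then some x else none

theorem sz_nats {l : List ℕ} {M k : ℕ} (h1 : l.length ≤ M) (h2 : ∀ i, l.getD i 0 ≤ k) :
    sz l ≤ M * (2 * k + 1 + 1) + 1 := by
  refine (sz_list_le (B := 2 * k + 1) fun x hx => ?_).trans (by gcongr)
  obtain ⟨i, hi, rfl⟩ := List.getElem_of_mem hx
  have := h2 i
  rw [List.getD_eq_getElem _ _ hi] at this
  simp; omega

theorem ht_nats (l : List ℕ) : ht l = 0 :=
  le_antisymm (ht_list_le.2 fun x _ => by simp) (by simp)

theorem getD_le {M k : ℕ} {f : ℕ → ℕ} (h : ∀ i, f i ≤ k) (i : ℕ) :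
    ((List.range M).map f).getD i 0 ≤ k := by
  rcases lt_or_ge i M with hi | hi
  · rw [getD_map_range hi]; exact h i
  · rw [List.getD_eq_default _ _ (by simpa using hi)]; exact Nat.zero_le _

@[fun_prop] theorem sp_cols {n : α → ℕ} {f : α → List (List ℝ)} {g : α → List ℕ} (hn : SP n)
    (hf : SP f) (hg : SP g) : SP fun a => cols (n a) (f a) (g a) := by unfold cols; fun_prop

@[fun_prop] theorem sp_proj {n : α → ℕ} {f : α → List (List ℝ)} {g : α → List ℕ} (hn : SP n)
    (hf : SP f) (hg : SP g) : SP fun a => proj (n a) (f a) (g a) := by unfold proj; fun_prop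

@[fun_prop] theorem sp_bump {n : α → ℕ} {f : α → List ℕ} {g : α → List ℝ} (hn : SP n)
    (hf : SP f) (hg : SP g) : SP fun a => bump (n a) (f a) (g a) := by unfold bump; fun_prop

@[fun_prop] theorem sp_inner {n : α → ℕ} {f : α → List (List ℝ)} (hn : SP n) (hf : SP f) :
    SP fun a => inner (n a) (f a) := by
  have : SP fun p : ℕ × List (List ℝ) => inner p.1 p.2 := by
    unfold inner
    refine SP.iterate (f := fun p : ℕ × List (List ℝ) => step p.1 p.2) (by fun_prop) (by fun_prop)
      (by unfold step; fun_prop)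
      (fun p k b => b.length ≤ p.1 ∧ ∀ i, b.getD i 0 ≤ k) (fun _ => by simp)
      (fun p k b _ h => ⟨by simp [step, bump], getD_le fun i => ?_⟩)
      (g := fun N => N * (2 * N + 1 + 1) + 1) (by fun_prop) (fun p k b N h h1 h2 _ => ?_)
      fun p k b N _ _ _ _ => by simp [ht_nats]
    · have := h.2 i
      cases ltb 0 ((proj p.1 p.2 b).getD i 0) <;> simp only [cond] <;> omega
    · rw [sz_pair', sz_nat] at h2
      exact sz_nats (by omega) fun i => (h.2 i).trans h1
  have h := this.comp (hn.pair hf)
  exact h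

@[fun_prop] theorem sp_allPos {n : α → ℕ} {f : α → List ℝ} (hn : SP n) (hf : SP f) :
    SP fun a => allPos (n a) (f a) := by unfold allPos; fun_prop

@[fun_prop] theorem sp_scale {n : α → ℕ} {f : α → List (List ℝ)} {g h : α → List ℕ} (hn : SP n)
    (hf : SP f) (hg : SP g) (hh : SP h) : SP fun a => scale (n a) (f a) (g a) (h a) := by
  unfold scale; fun_prop

@[fun_prop] theorem sp_expo {n k : α → ℕ} {f : α → List (List ℝ)} (hn : SP n) (hk : SP k)
    (hf : SP f) : SP fun a => expo (n a) (k a) (f a) := by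
  have : SP fun p : (ℕ × ℕ) × List (List ℝ) => expo p.1.1 p.1.2 p.2 := by
    refine SP.iterate (by fun_prop) (by fun_prop) (by unfold outer; fun_prop)
      (fun p k b => b.length ≤ p.2.length ∧ ∀ i, b.getD i 0 ≤ k) (fun _ => by simp)
      (fun p k b _ h => ?_)
      (g := fun N => N * (2 * N + 1 + 1) + 1) (by fun_prop) (fun p k b N h h1 h2 _ => ?_)
      fun p k b N _ _ _ _ => by simp [ht_nats]
    · unfold outer scale
      cases allPos _ _
      · refine ⟨by simp, getD_le fun i => ?_⟩
        have := h.2 i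
        cases Nat.ble _ _ <;> simp only [cond] <;> omega
      · exact ⟨h.1, fun i => (h.2 i).trans (Nat.le_succ _)⟩
    · rw [sz_pair'] at h2
      have := length_le_sz p.2
      exact sz_nats (by omega) fun i => (h.2 i).trans h1
  have h := this.comp ((hn.pair hk).pair hf)
  exact h

@[fun_prop] theorem sp_cand {n : α → ℕ} {f : α → List (List ℝ)} {g : α → List ℕ} (hn : SP n)
    (hf : SP f) (hg : SP g) : SP fun a => cand (n a) (f a) (g a) := by
  have : SP fun p : ℕ × List (List ℝ) × List ℕ × List ℝ => point p.1 p.2.1 p.2.2.1 p.2.2.2 := by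
    unfold point; fun_prop
  unfold cand
  have h := this.comp (hn.pair (hf.pair (hg.pair (sp_proj hf.length (sp_cols hn hf hg)
    (sp_inner hf.length (sp_cols hn hf hg))))))
  exact h

@[fun_prop] theorem sp_check {f : α → List (List ℝ)} {g : α → List ℝ} (hf : SP f) (hg : SP g) :
    SP fun a => check (f a) (g a) := by unfold check; fun_prop

variable {M : ℕ} {C : List (List ℝ)}

/-- a count vector as a real vector -/
def cv (M : ℕ) (y : List ℕ) : Fin M → ℝ := fun i => (y.getD i 0 : ℝ)

theorem proj_spec (y : List ℕ) : toF M (proj M C y) ∈ spanL M C ∧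
    ∀ x ∈ spanL M C, x ⬝ᵥ (cv M y - toF M (proj M C y)) = 0 := by
  set y' := (List.range M).map fun i => (y.getD i 0 : ℝ) with hy
  have e1 : toF M y' = cv M y := toF_map_range _
  have e2 : toF M (proj M C y) = toF M y' - toF M (resid M C y') := by
    rw [proj, toF_map_range, e1]; rfl
  refine ⟨e2 ▸ resid_mem C y', fun x hx => ?_⟩
  rw [e2, e1, sub_sub_cancel]
  exact resid_orth C y' hx

theorem allPos_iff {z : List ℝ} : allPos M z = true ↔ ∀ i : Fin M, 0 < toF M z i := by
  simp only [allPos, List.all_eq_true, List.mem_range, ltb_iff]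
  exact ⟨fun h i => h i i.2, fun h i hi => h ⟨i, hi⟩⟩

theorem cv_step (y : List ℕ) (i : Fin M) :
    cv M (step M C y) i = cv M y i + if 0 < toF M (proj M C y) i then 0 else 1 := by
  simp only [cv, step, bump, getD_map_range i.2, toF]
  split_ifs with h
  · rw [ltb_iff.2 h]; simp
  · rw [ltb_false.2 (not_lt.1 h)]; simp

theorem proj_congr {y y' : List ℕ} (h : cv M y = cv M y') : proj M C y = proj M C y' := by
  have : ∀ i ∈ List.range M, (y.getD i 0 : ℝ) = y'.getD i 0 := fun i hi =>
    congrFun h ⟨i, List.mem_range.1 hi⟩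
  unfold proj
  rw [List.map_congr_left this]
  exact List.map_congr_left fun i hi => by rw [this i hi]

theorem step_norm (y : List ℕ) : toF M (proj M C (step M C y)) ⬝ᵥ toF M (proj M C (step M C y)) ≤
    toF M (proj M C y) ⬝ᵥ toF M (proj M C y) + M := by
  obtain ⟨a1, a2⟩ := proj_spec (M := M) (C := C) y
  obtain ⟨b1, b2⟩ := proj_spec (M := M) (C := C) (step M C y)
  set z := toF M (proj M C y)
  set z' := toF M (proj M C (step M C y))
  set δ : Fin M → ℝ := fun i => if 0 < z i then 0 else 1 with hδ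
  have e : cv M (step M C y) = cv M y + δ := funext (cv_step y)
  have o : ∀ x ∈ spanL M C, x ⬝ᵥ δ = x ⬝ᵥ (z' - z) := fun x hx => by
    have h1 := a2 x hx
    have h2 := b2 x hx
    rw [e] at h2
    simp only [dotProduct_sub, dotProduct_add] at h1 h2 ⊢
    linarith
  have h1 : z ⬝ᵥ δ ≤ 0 := sum_nonpos fun i _ => by
    simp only [hδ]; split_ifs with h
    · simp
    · simpa using h
  have h2 : δ ⬝ᵥ δ ≤ M := by
    refine (sum_le_card_nsmul _ _ 1 fun i _ => ?_).trans (by simp)
    simp only [hδ]; split_ifs <;> simp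
  have h3 : 0 ≤ (δ - (z' - z)) ⬝ᵥ (δ - (z' - z)) := sum_nonneg fun i _ => mul_self_nonneg _
  have h4 := o z a1
  have h5 := o z' b1
  simp only [dotProduct_sub, sub_dotProduct, dotProduct_comm δ z, dotProduct_comm δ z',
    dotProduct_comm z' z] at h3 h4 h5
  linarith

theorem iter_inv (t : ℕ) :
    toF M (proj M C ((step M C)^[t] [])) ⬝ᵥ toF M (proj M C ((step M C)^[t] [])) ≤ t * M ∧
      (allPos M (proj M C ((step M C)^[t] [])) = true ∨
        (t : ℝ) ≤ ∑ i, cv M ((step M C)^[t] []) i) := by
  induction t with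
  | zero =>
    obtain ⟨a1, a2⟩ := proj_spec (M := M) (C := C) []
    have e : cv M [] = 0 := by ext; simp [cv]
    have := a2 _ a1
    rw [e, zero_sub, dotProduct_neg, neg_eq_zero] at this
    simp [this, e]
  | succ t ih =>
    rw [Function.iterate_succ_apply']
    set y := (step M C)^[t] []
    refine ⟨(step_norm y).trans (by push_cast; linarith [ih.1]), ?_⟩
    by_cases h : allPos M (proj M C y) = true
    · left
      rwa [proj_congr (y' := y) (funext fun i => by rw [cv_step, if_pos (allPos_iff.1 h i), add_zero])]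
    · right
      have h1 := ih.2.resolve_left h
      rw [allPos_iff, not_forall] at h
      obtain ⟨i, hi⟩ := h
      have h2 := single_le_sum (f := fun i => if 0 < toF M (proj M C y) i then (0 : ℝ) else 1)
        (fun i _ => by split_ifs <;> simp) (mem_univ i)
      simp only [if_neg hi] at h2
      simp only [cv_step, sum_add_distrib]
      push_cast; linarith

theorem inner_fail (h : ¬ allPos M (proj M C (inner M C)) = true) :
    (∃ i : Fin M, 4 * M ^ 3 ≤ (inner M C).getD i 0) ∧ ∀ x ∈ spanL M C, (∀ i, 0 ≤ x i ∧ x i ≤ 1) →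
      ∀ i : Fin M, 4 * M ^ 3 ≤ (inner M C).getD i 0 → 2 * x i ≤ 1 := by
  obtain ⟨h1, h2⟩ := iter_inv (M := M) (C := C) (4 * M ^ 4)
  have h3 := h2.resolve_left h
  change _ ≤ ∑ i, cv M (inner M C) i at h3
  change toF M (proj M C (inner M C)) ⬝ᵥ toF M (proj M C (inner M C)) ≤ _ at h1
  have hM : 0 < M := by
    rw [allPos_iff, not_forall] at h
    obtain ⟨i, -⟩ := h
    exact i.pos
  have hM' : (0 : ℝ) < M := by exact_mod_cast hM
  refine ⟨?_, fun x hx hb i hi => ?_⟩
  · by_contra hc
    push Not at hc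
    have : Nonempty (Fin M) := ⟨⟨0, hM⟩⟩
    have := sum_lt_sum_of_nonempty (s := univ) (f := cv M (inner M C))
      (g := fun _ => (4 * M ^ 3 : ℝ)) univ_nonempty fun i _ => by
        simp only [cv]; exact_mod_cast hc i
    simp only [sum_const, card_univ, Fintype.card_fin, nsmul_eq_mul] at this
    push_cast at h3
    nlinarith
  · have e := (proj_spec (inner M C)).2 x hx
    set z := toF M (proj M C (inner M C))
    rw [dotProduct_sub, sub_eq_zero] at e
    have c1 : (x ⬝ᵥ z) ^ 2 ≤ (∑ i, x i ^ 2) * ∑ i, z i ^ 2 := sum_mul_sq_le_sq_mul_sq _ _ _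
    have c2 : ∑ i, x i ^ 2 ≤ M := (sum_le_card_nsmul _ _ 1 fun i _ => by
      nlinarith [hb i]).trans (by simp)
    have c3 : ∑ i, z i ^ 2 ≤ 4 * M ^ 4 * M := by
      simpa [dotProduct, sq] using h1
    have c4 : (x ⬝ᵥ z) ^ 2 ≤ (2 * M ^ 3) ^ 2 :=
      c1.trans ((mul_le_mul c2 c3 (by positivity) hM'.le).trans_eq (by ring))
    have c5 : x ⬝ᵥ z ≤ 2 * M ^ 3 := (abs_le_of_sq_le_sq' c4 (by positivity)).2
    have c6 := single_le_sum (f := fun i => x i * cv M (inner M C) i)
      (fun i _ => mul_nonneg (hb i).1 (by simp [cv])) (mem_univ i)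
    have c7 : (4 * M ^ 3 : ℝ) ≤ cv M (inner M C) i := by simp only [cv]; exact_mod_cast hi
    have c8 : x i * (4 * M ^ 3) ≤ 2 * M ^ 3 :=
      (mul_le_mul_of_nonneg_left c7 (hb i).1).trans (c6.trans (e.le.trans c5))
    have : (0 : ℝ) < M ^ 3 := by positivity
    nlinarith

variable {w : ℕ} {G : List (List ℝ)}

theorem mem_cols {E : List ℕ} {z : Fin G.length → ℝ} : z ∈ spanL G.length (cols w G E) ↔
    ∃ x : Fin w → ℝ, ∀ i, z i = 2 ^ E.getD i 0 * (toF w (G.getD i []) ⬝ᵥ x) := by
  have e : toF G.length '' {v | v ∈ cols w G E} = Set.range fun (j : Fin w) (i : Fin G.length) =>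
      (2 : ℝ) ^ E.getD i 0 * (G.getD i []).getD j 0 := by
    ext v
    simp only [cols, List.mem_map, List.mem_range, Set.mem_image, Set.mem_ofPred_eq, Set.mem_range]
    constructor
    · rintro ⟨_, ⟨j, hj, rfl⟩, rfl⟩
      exact ⟨⟨j, hj⟩, by rw [toF_map_range]⟩
    · rintro ⟨j, rfl⟩
      exact ⟨_, ⟨j, j.2, rfl⟩, toF_map_range _⟩
  rw [spanL, e, Submodule.mem_span_range_iff_exists_fun]
  refine exists_congr fun x => ?_
  rw [eq_comm, funext_iff]
  refine forall_congr' fun i => ?_
  rw [Finset.sum_apply, dotProduct, mul_sum]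
  rw [sum_congr rfl fun j _ => show (x j • fun i : Fin G.length => (2 : ℝ) ^ E.getD i 0 *
    (G.getD i []).getD j 0) i = 2 ^ E.getD i 0 * (toF w (G.getD i []) j * x j) by
      simp only [Pi.smul_apply, smul_eq_mul, toF]; ring]

theorem expo_good {k : ℕ} {x : Fin w → ℝ} (hx : ∀ i : Fin G.length,
    1 ≤ 2 ^ k * (toF w (G.getD i []) ⬝ᵥ x) ∧ toF w (G.getD i []) ⬝ᵥ x ≤ 1) :
    allPos G.length (proj G.length (cols w G (expo w k G))
      (inner G.length (cols w G (expo w k G)))) = true := by
  let good : List ℕ → Prop := fun E =>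
    allPos G.length (proj G.length (cols w G E) (inner G.length (cols w G E))) = true
  let small : List ℕ → Prop := fun E =>
    ∀ i : Fin G.length, 2 ^ E.getD i 0 * (toF w (G.getD i []) ⬝ᵥ x) ≤ 1
  have pos : ∀ i : Fin G.length, 0 < toF w (G.getD i []) ⬝ᵥ x := fun i =>
    (mul_pos_iff_of_pos_left (by positivity)).1 (lt_of_lt_of_le one_pos (hx i).1)
  have st : ∀ E, small E → ¬ good E → small (outer w G E) ∧
      ∑ i : Fin G.length, E.getD i 0 + 1 ≤ ∑ i : Fin G.length, (outer w G E).getD i 0 := by
    intro E hs hg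
    obtain ⟨⟨i0, h0⟩, h1⟩ := inner_fail hg
    have e : ∀ i : Fin G.length, (outer w G E).getD i 0 = E.getD i 0 +
        if 4 * G.length ^ 3 ≤ (inner G.length (cols w G E)).getD i 0 then 1 else 0 := fun i => by
      unfold outer scale
      rw [Bool.eq_false_iff.2 hg, cond_false, getD_map_range i.2]
      split_ifs with h
      · rw [Nat.ble_eq_true_of_le h, cond_true]
      · rw [Bool.eq_false_iff.2 fun h' => h (Nat.le_of_ble_eq_true h'), cond_false, add_zero]
    refine ⟨fun i => ?_, ?_⟩
    · rw [e]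
      split_ifs with h
      · have := h1 _ (mem_cols.2 ⟨x, fun _ => rfl⟩)
          (fun i => ⟨(mul_pos (by positivity) (pos i)).le, hs i⟩) i h
        rw [pow_succ]; linarith
      · exact hs i
    · simp only [e, sum_add_distrib]
      have := single_le_sum (f := fun i : Fin G.length =>
        if 4 * G.length ^ 3 ≤ (inner G.length (cols w G E)).getD i 0 then 1 else 0)
        (fun _ _ => Nat.zero_le _) (mem_univ i0)
      simp only [if_pos h0] at this
      omega
  have inv : ∀ t, small ((outer w G)^[t] []) ∧ (good ((outer w G)^[t] []) ∨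
      t ≤ ∑ i : Fin G.length, ((outer w G)^[t] []).getD i 0) := by
    intro t
    induction t with
    | zero => exact ⟨fun i => by simpa using (hx i).2, Or.inr (Nat.zero_le _)⟩
    | succ t ih =>
      rw [Function.iterate_succ_apply']
      by_cases h : good ((outer w G)^[t] [])
      · have : outer w G ((outer w G)^[t] []) = (outer w G)^[t] [] := by
          generalize (outer w G)^[t] [] = E at h
          unfold outer scale
          rw [show allPos _ _ = true from h, cond_true]
        rw [this]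
        exact ⟨ih.1, Or.inl h⟩
      · have := ih.2.resolve_left h
        exact ⟨(st _ ih.1 h).1, Or.inr (by have := (st _ ih.1 h).2; omega)⟩
  by_contra h
  obtain ⟨h1, h2⟩ := inv (G.length * k)
  obtain ⟨h3, h4⟩ := st _ h1 h
  have h5 := h2.resolve_left h
  have h6 : ∑ i : Fin G.length, (outer w G ((outer w G)^[G.length * k] [])).getD i 0 ≤
      G.length * k := by
    refine (sum_le_card_nsmul _ _ k fun i _ => ?_).trans (by simp)
    exact (pow_le_pow_iff_right₀ (one_lt_two (α := ℝ))).1
      (le_of_mul_le_mul_right ((h3 i).trans (hx i).1) (pos i))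
  omega

end Feas

open Feas

/-- looks for `x` with `0 < dot g x` for all rows `g` of `G` -/
noncomputable def feas (w k : ℕ) (G : List (List ℝ)) : Option (List ℝ) :=
  check G (cand w G (expo w k G))

@[fun_prop] theorem sp_feas {n k : α → ℕ} {f : α → List (List ℝ)} (hn : SP n) (hk : SP k)
    (hf : SP f) : SP fun a => feas (n a) (k a) (f a) := by unfold feas; fun_prop

theorem feas_sound {w k : ℕ} {G : List (List ℝ)} {x : List ℝ} (h : feas w k G = some x) :
    x.length = w ∧ ∀ g ∈ G, 0 < dot g x := by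
  unfold feas check at h
  cases e : G.all fun g => ltb 0 (dot g (cand w G (expo w k G)))
  · simp [e] at h
  · simp only [e, cond_true, Option.some.injEq] at h
    subst h
    exact ⟨by simp [cand, point], by simpa using e⟩

theorem feas_complete' {w k : ℕ} {G : List (List ℝ)} (hl : ∀ g ∈ G, g.length ≤ w)
    {x : Fin w → ℝ} (hx : ∀ g ∈ G, 1 ≤ 2 ^ k * (toF w g ⬝ᵥ x) ∧ toF w g ⬝ᵥ x ≤ 1) :
    (feas w k G).isSome = true := by
  have h1 := allPos_iff.1 (expo_good (G := G) (k := k) (x := x) fun i => hx _ (by simp))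
  set E := expo w k G
  obtain ⟨u, hu⟩ := mem_cols.1 (proj_spec (M := G.length) (C := cols w G E)
    (inner G.length (cols w G E))).1
  set z := proj G.length (cols w G E) (inner G.length (cols w G E)) with hz
  have h2 := solve_toF (w := w) (R := (List.range G.length).map fun i =>
    (G.getD i [], z.getD i 0 / (2 : ℝ) ^ E.getD i 0)) ⟨u, fun r hr => by
      obtain ⟨i, hi, rfl⟩ := List.mem_map.1 hr
      have := hu ⟨i, List.mem_range.1 hi⟩
      simp only [toF] at this ⊢
      rw [this]; field_simp⟩
  have : (G.all fun g => ltb 0 (dot g (cand w G E))) = true := by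
    simp only [List.all_eq_true, ltb_iff]
    intro g hg
    obtain ⟨i, hi, rfl⟩ := List.getElem_of_mem hg
    have h3 := h2 _ (List.mem_map_of_mem (List.mem_range.2 hi))
    simp only [List.getD_eq_getElem _ _ hi] at h3
    rw [dot_toF (hl _ hg), cand, ← hz, point]
    exact h3 ▸ div_pos (h1 ⟨i, hi⟩) (by positivity)
  change (check G (cand w G E)).isSome = true
  rw [check, this]; rfl

theorem feas_complete {w k : ℕ} {G : List (List ℝ)} (hl : ∀ g ∈ G, g.length ≤ w) {x : List ℝ}
    (hx : ∀ g ∈ G, 1 ≤ 2 ^ k * dot g x ∧ dot g x ≤ 1) : (feas w k G).isSome = true :=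
  feas_complete' hl (x := toF w x) fun g hg => by rw [← dot_toF (hl g hg)]; exact hx g hg

/-- the same, with sums over indices -/
theorem feas_complete_sum {w k : ℕ} {G : List (List ℝ)} (hl : ∀ g ∈ G, g.length ≤ w) {x : ℕ → ℝ}
    (hx : ∀ g ∈ G, 1 ≤ 2 ^ k * ∑ j ∈ range w, g.getD j 0 * x j ∧
      ∑ j ∈ range w, g.getD j 0 * x j ≤ 1) : (feas w k G).isSome = true :=
  feas_complete' hl (x := fun j => x j) fun g hg => by
    have := hx g hg
    rwa [Finset.sum_range] at this

end Pool.Agent.Lib.RealRAM.SP
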