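import Pool.Agent.Lib.RealRAM.SPNat

/-! Orthogonal projections and linear systems in strongly polynomial time. -/

namespace Pool.Agent.Lib.RealRAM.SP

open Finset

variable {α : Type} [Enc α] {w : ℕ}

/-- a list read as a vector with `w` coordinates -/
def toF (w : ℕ) (l : List ℝ) : Fin w → ℝ := fun j => l.getD j 0

theorem dot_toF {a : List ℝ} (h : a.length ≤ w) (b : List ℝ) : dot a b = toF w a ⬝ᵥ toF w b := by
  rw [dot_eq_sum h, Finset.sum_range]; rfl

theorem toF_map_range (f : ℕ → ℝ) : toF w ((List.range w).map f) = fun j : Fin w => f j := by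
  ext j; simp [toF]

/-- the span of a list of vectors -/
def spanL (w : ℕ) (V : List (List ℝ)) : Submodule ℝ (Fin w → ℝ) :=
  Submodule.span ℝ (toF w '' {v | v ∈ V})

theorem mem_spanL {V : List (List ℝ)} {v : List ℝ} (h : v ∈ V) : toF w v ∈ spanL w V :=
  Submodule.subset_span ⟨v, h, rfl⟩

theorem spanL_orth {V : List (List ℝ)} {r : Fin w → ℝ} (h : ∀ v ∈ V, toF w v ⬝ᵥ r = 0)
    {x : Fin w → ℝ} (hx : x ∈ spanL w V) : x ⬝ᵥ r = 0 := by
  induction hx using Submodule.span_induction with
  | mem x hx => obtain ⟨v, hv, rfl⟩ := hx; exact h v hv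
  | zero => simp
  | add x y _ _ h1 h2 => rw [add_dotProduct, h1, h2, add_zero]
  | smul c x _ h1 => rw [smul_dotProduct, h1, smul_zero]

theorem spanL_cons (v : List ℝ) (V : List (List ℝ)) :
    spanL w (v :: V) = Submodule.span ℝ {toF w v} ⊔ spanL w V := by
  rw [spanL, spanL, ← Submodule.span_union]
  congr 1
  ext x; simp [eq_comm]

/-- subtract the components along the vectors of `U` -/
noncomputable def redAll (w : ℕ) (U : List (List ℝ)) (y : List ℝ) : List ℝ :=
  (List.range w).map fun j => y.getD j 0 - (U.map fun u => dot u y / dot u u * u.getD j 0).sum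

/-- Gram-Schmidt orthogonalisation -/
noncomputable def gs (w : ℕ) (V : List (List ℝ)) : List (List ℝ) :=
  V.foldl (fun U v => redAll w U v :: U) []

/-- the component of `y` orthogonal to the vectors of `V` -/
noncomputable def resid (w : ℕ) (V : List (List ℝ)) (y : List ℝ) : List ℝ := redAll w (gs w V) y

@[simp] theorem length_redAll (U : List (List ℝ)) (y : List ℝ) : (redAll w U y).length = w := by
  simp [redAll]

@[simp] theorem length_resid (V : List (List ℝ)) (y : List ℝ) : (resid w V y).length = w := by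
  simp [resid]

def Orth (w : ℕ) (U : List (List ℝ)) : Prop :=
  (∀ u ∈ U, u.length = w) ∧ U.Pairwise fun u v => toF w u ⬝ᵥ toF w v = 0

theorem toF_redAll (U : List (List ℝ)) (y : List ℝ) : toF w (redAll w U y) =
    toF w y - (U.map fun u => (dot u y / dot u u) • toF w u).sum := by
  rw [redAll, toF_map_range]
  ext j
  simp only [Pi.sub_apply]
  congr 1
  induction U with
  | nil => simp
  | cons u U ih => simp only [List.map_cons, List.sum_cons, Pi.add_apply, ih]; rfl

theorem redAll_mem (U : List (List ℝ)) (y : List ℝ) :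
    toF w y - toF w (redAll w U y) ∈ spanL w U := by
  rw [toF_redAll, sub_sub_cancel]
  refine list_sum_mem fun x hx => ?_
  obtain ⟨u, hu, rfl⟩ := List.mem_map.1 hx
  exact Submodule.smul_mem _ _ (mem_spanL hu)

theorem redAll_orth {U : List (List ℝ)} (hU : Orth w U) (y : List ℝ) :
    ∀ u ∈ U, toF w u ⬝ᵥ toF w (redAll w U y) = 0 := by
  have key : ∀ u ∈ U, toF w u ⬝ᵥ (U.map fun u => (dot u y / dot u u) • toF w u).sum =
      toF w u ⬝ᵥ toF w y := by
    induction U with
    | nil => simp
    | cons a U ih =>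
      obtain ⟨h1, h2⟩ := hU
      rw [List.pairwise_cons] at h2
      intro u hu
      rw [List.map_cons, List.sum_cons, dotProduct_add, dotProduct_smul, smul_eq_mul]
      rcases List.mem_cons.1 hu with rfl | hu
      · have e : toF w u ⬝ᵥ (U.map fun u => (dot u y / dot u u) • toF w u).sum = 0 := by
          rw [dotProduct_comm]
          refine spanL_orth (V := U) (fun v hv => by rw [dotProduct_comm]; exact h2.1 v hv) ?_
          refine list_sum_mem fun x hx => ?_
          obtain ⟨u, hu, rfl⟩ := List.mem_map.1 hx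
          exact Submodule.smul_mem _ _ (mem_spanL hu)
        rw [e, add_zero, dot_toF (h1 u (by simp)).le, dot_toF (h1 u (by simp)).le]
        by_cases h0 : toF w u ⬝ᵥ toF w u = 0
        · rw [dotProduct_self_eq_zero.1 h0]; simp
        · field_simp
      · rw [dotProduct_comm (toF w u) (toF w a), h2.1 u hu, mul_zero, zero_add]
        exact ih ⟨fun v hv => h1 v (by simp [hv]), h2.2⟩ u hu
  intro u hu
  rw [toF_redAll, dotProduct_sub, key u hu, sub_self]

theorem gs_snoc (V : List (List ℝ)) (v : List ℝ) :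
    gs w (V ++ [v]) = resid w V v :: gs w V := by simp [gs, resid]

theorem gs_spec (V : List (List ℝ)) : Orth w (gs w V) ∧ spanL w (gs w V) = spanL w V := by
  induction V using List.reverseRecOn with
  | nil => exact ⟨⟨by simp [gs], by simp [gs]⟩, rfl⟩
  | append_singleton V v ih =>
    rw [gs_snoc]
    refine ⟨⟨?_, List.pairwise_cons.2 ⟨fun u hu => ?_, ih.1.2⟩⟩, ?_⟩
    · simpa using ih.1.1
    · rw [dotProduct_comm]; exact redAll_orth ih.1 v u hu
    · have e : spanL w (V ++ [v]) = spanL w (v :: V) := by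
        unfold spanL; congr 2; ext x; simp [or_comm]
      have h1 := redAll_mem (w := w) (gs w V) v
      rw [e, spanL_cons, spanL_cons, ih.2]
      rw [ih.2] at h1
      refine le_antisymm (sup_le ?_ le_sup_right) (sup_le ?_ le_sup_right)
      · rw [Submodule.span_singleton_le_iff_mem, ← sub_sub_cancel (toF w v) (toF w (resid w V v))]
        exact Submodule.sub_mem _ (Submodule.mem_sup_left (Submodule.mem_span_singleton_self _))
          (Submodule.mem_sup_right h1)
      · rw [Submodule.span_singleton_le_iff_mem, ← sub_add_cancel (toF w v) (toF w (resid w V v))]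
        exact Submodule.add_mem _ (Submodule.mem_sup_right h1)
          (Submodule.mem_sup_left (Submodule.mem_span_singleton_self _))

theorem resid_mem (V : List (List ℝ)) (y : List ℝ) :
    toF w y - toF w (resid w V y) ∈ spanL w V := (gs_spec V).2 ▸ redAll_mem _ y

theorem resid_orth (V : List (List ℝ)) (y : List ℝ) {x : Fin w → ℝ} (hx : x ∈ spanL w V) :
    x ⬝ᵥ toF w (resid w V y) = 0 :=
  spanL_orth (redAll_orth (gs_spec V).1 y) ((gs_spec V).2 ▸ hx)

/-- the height bound of `resid` -/
def resB (n : ℕ) : ℕ :=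
  n + (n * (n + n + 1) + n) * (spanB (n * (n + n + 1) + n) + n + 1) + 1

@[fun_prop] theorem IsP.resB : IsP resB := by unfold SP.resB; fun_prop

theorem resid_hb {n : ℕ} {V : List (List ℝ)} {y : List ℝ} (hw : w ≤ n) (hl : V.length ≤ n)
    (hV : ht V ≤ n) (hy : ht y ≤ n) : ht (resid w V y) ≤ resB n := by
  classical
  set n' := n * (n + n + 1) + n with hn'
  let G : (Fin w → ℝ) →ₗ[ℝ] (Fin V.length → ℝ) :=
    Matrix.mulVecLin (Matrix.of fun i => toF w V[i])
  have hG : ∀ x i, G x i = toF w V[i] ⬝ᵥ x := fun _ _ => rfl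
  have hV' : ∀ v ∈ V, ∀ j, Hb n (toF w v j) := fun v hv j =>
    hb_getD ((ht_le_of_mem hv).trans hV) _
  have hb : ∀ x : Fin w → ℝ, (∀ j, Hb n (x j)) → ∀ i, Hb n' (G x i) := fun x hx i => by
    rw [hG]
    refine (Hb.sum univ fun j _ => (hV' _ (List.getElem_mem _) j).mul (hx j)).mono ?_
    simp only [card_univ, Fintype.card_fin]
    exact (Nat.mul_le_mul_right _ hw).trans (Nat.le_add_right _ _)
  have h0 : ∀ x ∈ spanL w V, G x = 0 → x = 0 := fun x hx h => by
    refine dotProduct_self_eq_zero.1 (spanL_orth (fun v hv => ?_) hx)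
    obtain ⟨i, hi, rfl⟩ := List.getElem_of_mem hv
    exact congrFun h ⟨i, hi⟩
  have e : G (toF w y) = G (toF w y - toF w (resid w V y)) := by
    ext i
    rw [hG, hG, dotProduct_sub, resid_orth V y (x := toF w V[i]) (mem_spanL (List.getElem_mem _)),
      sub_zero]
  obtain ⟨s, hs, hc, c, hc1, hc2⟩ := small_span (n := n') (S := G '' (toF w '' {v | v ∈ V}))
    (c := G (toF w y)) (by simpa using hl.trans (Nat.le_add_left _ _))
    (by rintro _ ⟨_, ⟨v, hv, rfl⟩, rfl⟩; exact hb _ (hV' v hv)) (hb _ fun j => hb_getD hy _)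
    (by rw [e, Submodule.span_image]; exact Submodule.mem_map_of_mem (resid_mem V y))
  have : ∀ g ∈ s, ∃ v ∈ V, G (toF w v) = g := fun g hg => by
    obtain ⟨_, ⟨v, hv, rfl⟩, rfl⟩ := hs hg
    exact ⟨v, hv, rfl⟩
  choose! v hv1 hv2 using this
  have e2 : toF w (resid w V y) = toF w y - ∑ g ∈ s, c g • toF w (v g) := by
    have := h0 (toF w y - toF w (resid w V y) - ∑ g ∈ s, c g • toF w (v g))
      (Submodule.sub_mem _ (resid_mem V y) (Submodule.sum_mem _ fun g hg =>
        Submodule.smul_mem _ _ (mem_spanL (hv1 g hg)))) (by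
      rw [map_sub, ← e, hc2, map_sum, sub_eq_zero]
      exact sum_congr rfl fun g hg => by rw [map_smul, hv2 g hg])
    rw [sub_right_comm, sub_eq_zero] at this
    exact this.symm
  refine ht_list_le.2 fun x hx => htR_le.2 ?_
  obtain ⟨j, hj, rfl⟩ := List.getElem_of_mem hx
  have e3 := congrFun e2 ⟨j, by simpa using hj⟩
  simp only [toF, List.getD_eq_getElem _ _ hj, Pi.sub_apply, Finset.sum_apply, Pi.smul_apply,
    smul_eq_mul] at e3
  rw [e3]
  refine ((hb_getD hy _).sub (Hb.sum s fun g hg => (hc1 g hg).mul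
    (hb_getD ((ht_le_of_mem (hv1 g hg)).trans hV) _))).mono ?_
  unfold resB
  gcongr

@[fun_prop] theorem sp_redAll {n : α → ℕ} {f : α → List (List ℝ)} {g : α → List ℝ} (hn : SP n)
    (hf : SP f) (hg : SP g) : SP fun a => redAll (n a) (f a) (g a) := by
  unfold redAll; fun_prop

theorem sz_reals (l : List ℝ) : sz l = 2 * l.length + 1 := by
  induction l with
  | nil => simp
  | cons x l ih => simp [ih]; omega

@[fun_prop] theorem sp_gs {n : α → ℕ} {f : α → List (List ℝ)} (hn : SP n) (hf : SP f) :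
    SP fun a => gs (n a) (f a) := by
  have : SP fun p : ℕ × List (List ℝ) => gs p.1 p.2 := by
    refine SP.foldl_inv (by fun_prop) (by fun_prop) (by fun_prop)
      (fun p u b => b.length = u.length ∧ (∀ x ∈ b, x.length = p.1) ∧ b = gs p.1 u ∧
        ∀ n : ℕ, mu p ≤ n → ht b ≤ resB n) (fun _ => ⟨rfl, by simp, rfl, by simp⟩)
      (fun p u x b hu h => ⟨by simp [h.1], by simpa using h.2.1, by rw [gs_snoc, h.2.2.1]; rfl,
        fun n hn => ?_⟩) (g := fun n => n * (n + 1) + 1 + resB n) (by fun_prop)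
      (fun p u b n hu h a1 a2 _ => ?_) fun p u b n hu h a1 _ _ => ?_
    · have e1 := sz_le_of_mu hn
      have e2 : ht p.2 ≤ n := (le_max_right _ _).trans (ht_le_of_mu hn)
      have e3 := hu.length_le.trans (length_le_sz _)
      rw [sz_pair', sz_nat] at e1
      rw [ht_cons, h.2.2.1]
      refine max_le (resid_hb (by omega) (by simp at e3; omega) ?_ ?_) (h.2.2.1 ▸ h.2.2.2 n hn)
      · exact (ht_sublist ((List.sublist_append_left _ _).trans hu.sublist)).trans e2
      · exact (ht_le_of_mem (hu.subset (by simp))).trans e2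
    · have e3 := hu.length_le.trans (length_le_sz _)
      rw [sz_pair', sz_nat] at a1
      refine (sz_list_le (B := n) fun x hx => by rw [sz_reals, h.2.1 x hx]; omega).trans ?_
      have : b.length * (n + 1) ≤ n * (n + 1) := Nat.mul_le_mul_right _ (by omega)
      omega
    · exact (h.2.2.2 n a1).trans (by exact_mod_cast Nat.le_add_left _ _)
  exact this.comp (hn.pair hf)

@[fun_prop] theorem sp_resid {n : α → ℕ} {f : α → List (List ℝ)} {g : α → List ℝ} (hn : SP n)
    (hf : SP f) (hg : SP g) : SP fun a => resid (n a) (f a) (g a) := by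
  unfold resid; fun_prop

/-- a solution of the system `dot r.1 x = r.2` in `w` unknowns, if there is one -/
noncomputable def solve (w : ℕ) (R : List (List ℝ × ℝ)) : List ℝ :=
  (List.range w).map fun j => (resid (w + 1) (R.map fun r => -r.2 :: r.1) [1]).getD (j + 1) 0 /
    (resid (w + 1) (R.map fun r => -r.2 :: r.1) [1]).getD 0 0

@[fun_prop] theorem sp_solve {n : α → ℕ} {f : α → List (List ℝ × ℝ)} (hn : SP n) (hf : SP f) :
    SP fun a => solve (n a) (f a) := by
  unfold solve; fun_prop

@[simp] theorem length_solve (R : List (List ℝ × ℝ)) : (solve w R).length = w := by simp [solve]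

theorem solve_toF {R : List (List ℝ × ℝ)} (h : ∃ x : Fin w → ℝ, ∀ r ∈ R, toF w r.1 ⬝ᵥ x = r.2) :
    ∀ r ∈ R, toF w r.1 ⬝ᵥ toF w (solve w R) = r.2 := by
  obtain ⟨x, hx⟩ := h
  set V := R.map fun r => -r.2 :: r.1 with hV
  set z := toF (w + 1) (resid (w + 1) V [1]) with hz
  have e : ∀ (r : List ℝ × ℝ) (u : Fin (w + 1) → ℝ), toF (w + 1) (-r.2 :: r.1) ⬝ᵥ u =
      -r.2 * u 0 + toF w r.1 ⬝ᵥ fun j => u j.succ := fun r u => by
    simp [dotProduct, Fin.sum_univ_succ, toF]
  have e1 : ∀ u : Fin (w + 1) → ℝ, toF (w + 1) [1] ⬝ᵥ u = u 0 := fun u => by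
    simp [dotProduct, Fin.sum_univ_succ, toF]
  have h0 : z 0 ≠ 0 := fun h0 => by
    have h1 := resid_orth V [1] (resid_mem (w := w + 1) V [1])
    rw [sub_dotProduct, e1, ← hz, h0, zero_sub, neg_eq_zero, dotProduct_self_eq_zero] at h1
    have h2 := spanL_orth (r := Fin.cons 1 x) (fun v hv => ?_) (resid_mem (w := w + 1) V [1])
    · rw [← hz, h1, sub_zero, e1] at h2
      simp at h2
    · obtain ⟨r, hr, rfl⟩ := List.mem_map.1 hv
      rw [e]; simp [hx r hr]
  intro r hr
  have h1 := resid_orth V [1] (mem_spanL (w := w + 1) (List.mem_map_of_mem hr))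
  rw [e, ← hz] at h1
  have h2 : toF w (solve w R) = (z 0)⁻¹ • fun j => z j.succ := by
    rw [solve, toF_map_range]
    ext j
    simp [hz, toF, div_eq_inv_mul, hV]
  rw [h2, dotProduct_smul, smul_eq_mul]
  field_simp
  linarith

theorem solve_spec {R : List (List ℝ × ℝ)} (hl : ∀ r ∈ R, r.1.length ≤ w)
    (h : ∃ x : List ℝ, ∀ r ∈ R, dot r.1 x = r.2) : ∀ r ∈ R, dot r.1 (solve w R) = r.2 := by
  obtain ⟨x, hx⟩ := h
  intro r hr
  rw [dot_toF (hl r hr)]
  exact solve_toF ⟨toF w x, fun r hr => by rw [← dot_toF (hl r hr), hx r hr]⟩ r hr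

/-- the same, with sums over indices -/
theorem solve_sum {R : List (List ℝ × ℝ)}
    (h : ∃ x : ℕ → ℝ, ∀ r ∈ R, ∑ j ∈ range w, r.1.getD j 0 * x j = r.2) :
    ∀ r ∈ R, ∑ j ∈ range w, r.1.getD j 0 * (solve w R).getD j 0 = r.2 := by
  obtain ⟨x, hx⟩ := h
  intro r hr
  rw [Finset.sum_range]
  exact solve_toF ⟨fun j => x j, fun r hr => by rw [← hx r hr, Finset.sum_range]; rfl⟩ r hr

end Pool.Agent.Lib.RealRAM.SP
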