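import Pool.Agent.Lib.RealRAM.Defs

namespace Pool.Agent.Lib.RealRAM

/-- total correctness with a step bound -/
def Runs (ok : ℝ → Prop) (c : Cmd) (s : Mem) (t : ℕ) (Q : Mem → Prop) : Prop :=
  ∃ t' s', t' ≤ t ∧ Exec ok c s t' s' ∧ Q s'

def Cmd.wN : Cmd → List ℕ
  | .setN a _ _ => [a]
  | .andThen c d => c.wN ++ d.wN
  | .cond _ c d => c.wN ++ d.wN
  | .loop _ c => c.wN
  | _ => []

def Cmd.wR : Cmd → List ℕ
  | .setN _ _ _ => []
  | .setOne d => [d.arr]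
  | .plus d _ _ => [d.arr]
  | .minus d _ _ => [d.arr]
  | .times d _ _ => [d.arr]
  | .quot d _ _ => [d.arr]
  | .andThen c d => c.wR ++ d.wR
  | .cond _ c d => c.wR ++ d.wR
  | .loop _ c => c.wR

def Agree (WN WR : List ℕ) (s s' : Mem) : Prop :=
  (∀ a, a ∉ WN → s'.nats a = s.nats a) ∧ (∀ a, a ∉ WR → s'.reals a = s.reals a)

theorem Agree.refl (WN WR : List ℕ) (s : Mem) : Agree WN WR s s := ⟨fun _ _ => rfl, fun _ _ => rfl⟩

theorem Agree.mono {WN WR WN' WR' : List ℕ} {s s' : Mem} (h : Agree WN WR s s')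
    (h1 : ∀ a ∈ WN, a ∈ WN') (h2 : ∀ a ∈ WR, a ∈ WR') : Agree WN' WR' s s' :=
  ⟨fun a ha => h.1 a fun hh => ha (h1 a hh), fun a ha => h.2 a fun hh => ha (h2 a hh)⟩

theorem Agree.trans {WN WR : List ℕ} {s s' s'' : Mem} (h : Agree WN WR s s')
    (h' : Agree WN WR s' s'') : Agree WN WR s s'' :=
  ⟨fun a ha => (h'.1 a ha).trans (h.1 a ha), fun a ha => (h'.2 a ha).trans (h.2 a ha)⟩

@[simp] theorem wrN_reals (s : Mem) (a i v : ℕ) : (s.wrN a i v).reals = s.reals := rfl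
@[simp] theorem wrR_nats (s : Mem) (c : Cell) (x : ℝ) : (s.wrR c x).nats = s.nats := rfl

theorem wrN_nats_apply (s : Mem) (a i v a' i' : ℕ) :
    (s.wrN a i v).nats a' i' = if a' = a ∧ i' = i then v else s.nats a' i' := rfl

@[simp] theorem wrN_nats_ne (s : Mem) (a i v a' : ℕ) (h : a' ≠ a) :
    (s.wrN a i v).nats a' = s.nats a' := by
  funext i'; simp [wrN_nats_apply, h]

@[simp] theorem wrN_nats_same (s : Mem) (a i v : ℕ) :
    (s.wrN a i v).nats a = Function.update (s.nats a) i v := by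
  funext i'; simp [wrN_nats_apply, Function.update_apply]

/-- update of one entry of a two-dimensional array -/
def upd2 (f : ℕ → ℕ → ℝ) (i j : ℕ) (x : ℝ) : ℕ → ℕ → ℝ :=
  fun a b => if a = i ∧ b = j then x else f a b

@[simp] theorem upd2_same (f : ℕ → ℕ → ℝ) (i j : ℕ) (x : ℝ) : upd2 f i j x i j = x := by
  simp [upd2]

@[simp] theorem ev_wrR (s : Mem) (c : Cell) (x : ℝ) (e : Ix) : e.ev (s.wrR c x) = e.ev s := by
  induction e with
  | zero => rfl
  | succ e ih => simp [Ix.ev, ih]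
  | look a e ih => simp [Ix.ev, ih]

@[simp] theorem wrR_reals_ne (s : Mem) (a : ℕ) (e f : Ix) (x : ℝ) (a' : ℕ) (h : a' ≠ a) :
    (s.wrR ⟨a, e, f⟩ x).reals a' = s.reals a' := by
  funext i j; simp [Mem.wrR, h]

@[simp] theorem wrR_reals_same (s : Mem) (a : ℕ) (e f : Ix) (x : ℝ) :
    (s.wrR ⟨a, e, f⟩ x).reals a = upd2 (s.reals a) (e.ev s) (f.ev s) x := by
  funext i j; simp [Mem.wrR, upd2]

theorem agree_wrN (s : Mem) (a i v : ℕ) : Agree [a] [] s (s.wrN a i v) :=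
  ⟨fun a' ha => wrN_nats_ne s a i v a' (by simpa using ha), fun _ _ => rfl⟩

theorem agree_wrR (s : Mem) (c : Cell) (x : ℝ) : Agree [] [c.arr] s (s.wrR c x) :=
  ⟨fun _ _ => rfl, fun a ha => by
    obtain ⟨a0, e, f⟩ := c
    exact wrR_reals_ne s a0 e f x a (by simpa using ha)⟩

theorem Exec.agree {ok : ℝ → Prop} {c : Cmd} {s s' : Mem} {t : ℕ} (h : Exec ok c s t s') :
    Agree c.wN c.wR s s' := by
  induction h with
  | setN a i v s => exact agree_wrN _ _ _ _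
  | setOne d s _ => exact agree_wrR _ _ _
  | plus d x y s _ => exact agree_wrR _ _ _
  | minus d x y s _ => exact agree_wrR _ _ _
  | times d x y s _ => exact agree_wrR _ _ _
  | quot d x y s _ _ => exact agree_wrR _ _ _
  | andThen c₁ c₂ s s₁ s₂ t₁ t₂ _ _ ih1 ih2 =>
    exact (ih1.mono (by simp +contextual [Cmd.wN]) (by simp +contextual [Cmd.wR])).trans
      (ih2.mono (by simp +contextual [Cmd.wN]) (by simp +contextual [Cmd.wR]))
  | condT b c₁ c₂ s s' t _ _ ih =>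
    exact ih.mono (by simp +contextual [Cmd.wN]) (by simp +contextual [Cmd.wR])
  | condF b c₁ c₂ s s' t _ _ ih =>
    exact ih.mono (by simp +contextual [Cmd.wN]) (by simp +contextual [Cmd.wR])
  | loopF b c s _ => exact Agree.refl _ _ _
  | loopT b c s s₁ s₂ t₁ t₂ _ _ _ ih1 ih2 => exact ih1.trans ih2

variable {ok : ℝ → Prop}

theorem Runs.mono {c : Cmd} {s : Mem} {t t' : ℕ} {Q Q' : Mem → Prop} (h : Runs ok c s t Q)
    (ht : t ≤ t') (hQ : ∀ s', Q s' → Q' s') : Runs ok c s t' Q' := by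
  obtain ⟨t1, s1, h1, h2, h3⟩ := h
  exact ⟨t1, s1, h1.trans ht, h2, hQ _ h3⟩

/-- consequence rule with the frame condition for free -/
theorem Runs.frame {c : Cmd} {s : Mem} {t : ℕ} {Q Q' : Mem → Prop} (h : Runs ok c s t Q)
    (hQ : ∀ s', Agree c.wN c.wR s s' → Q s' → Q' s') : Runs ok c s t Q' := by
  obtain ⟨t1, s1, h1, h2, h3⟩ := h
  exact ⟨t1, s1, h1, h2, hQ _ h2.agree h3⟩

theorem Runs.le {c : Cmd} {s : Mem} {t t' : ℕ} {Q : Mem → Prop} (h : Runs ok c s t Q)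
    (ht : t ≤ t') : Runs ok c s t' Q := h.mono ht fun _ h => h

theorem Runs.setN {a : ℕ} {i v : Ix} {s : Mem} {Q : Mem → Prop}
    (h : Q (s.wrN a (i.ev s) (v.ev s))) : Runs ok (.setN a i v) s 1 Q :=
  ⟨1, _, le_rfl, .setN _ _ _ _, h⟩

theorem Runs.setOne {d : Cell} {s : Mem} {Q : Mem → Prop} (h0 : ok 1)
    (h : Q (s.wrR d 1)) : Runs ok (.setOne d) s 1 Q :=
  ⟨1, _, le_rfl, .setOne _ _ h0, h⟩

theorem Runs.plus {d x y : Cell} {s : Mem} {Q : Mem → Prop} (h0 : ok (x.rd s + y.rd s))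
    (h : Q (s.wrR d (x.rd s + y.rd s))) : Runs ok (.plus d x y) s 1 Q :=
  ⟨1, _, le_rfl, .plus _ _ _ _ h0, h⟩

theorem Runs.minus {d x y : Cell} {s : Mem} {Q : Mem → Prop} (h0 : ok (x.rd s - y.rd s))
    (h : Q (s.wrR d (x.rd s - y.rd s))) : Runs ok (.minus d x y) s 1 Q :=
  ⟨1, _, le_rfl, .minus _ _ _ _ h0, h⟩

theorem Runs.times {d x y : Cell} {s : Mem} {Q : Mem → Prop} (h0 : ok (x.rd s * y.rd s))
    (h : Q (s.wrR d (x.rd s * y.rd s))) : Runs ok (.times d x y) s 1 Q :=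
  ⟨1, _, le_rfl, .times _ _ _ _ h0, h⟩

theorem Runs.quot {d x y : Cell} {s : Mem} {Q : Mem → Prop} (h1 : y.rd s ≠ 0)
    (h0 : ok (x.rd s / y.rd s))
    (h : Q (s.wrR d (x.rd s / y.rd s))) : Runs ok (.quot d x y) s 1 Q :=
  ⟨1, _, le_rfl, .quot _ _ _ _ h1 h0, h⟩

theorem Runs.andThen {c d : Cmd} {s : Mem} {t₁ t₂ : ℕ} {Q : Mem → Prop}
    (h : Runs ok c s t₁ fun s₁ => Runs ok d s₁ t₂ Q) : Runs ok (.andThen c d) s (t₁ + t₂) Q := by
  obtain ⟨t1, s1, h1, h2, t2, s2, h3, h4, h5⟩ := h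
  exact ⟨t1 + t2, s2, by omega, .andThen _ _ _ _ _ _ _ h2 h4, h5⟩

theorem Runs.cond {b : Tst} {c d : Cmd} {s : Mem} {t : ℕ} {Q : Mem → Prop}
    (h1 : b.holds s → Runs ok c s t Q) (h2 : ¬ b.holds s → Runs ok d s t Q) :
    Runs ok (.cond b c d) s (t + 1) Q := by
  by_cases hb : b.holds s
  · obtain ⟨t1, s1, h3, h4, h5⟩ := h1 hb
    exact ⟨t1 + 1, s1, by omega, .condT _ _ _ _ _ _ hb h4, h5⟩
  · obtain ⟨t1, s1, h3, h4, h5⟩ := h2 hb
    exact ⟨t1 + 1, s1, by omega, .condF _ _ _ _ _ _ hb h4, h5⟩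

theorem Runs.loop {b : Tst} {c : Cmd} {tb : ℕ} (I : ℕ → Mem → Prop)
    (hb : ∀ v s, I v s → b.holds s → Runs ok c s tb fun s' => ∃ v' < v, I v' s') :
    ∀ (v : ℕ) (s : Mem), I v s →
      Runs ok (.loop b c) s (v * (tb + 1) + 1) fun s' => (∃ v', I v' s') ∧ ¬ b.holds s' := by
  intro v
  induction v using Nat.strong_induction_on with
  | _ v ih =>
    intro s hI
    by_cases hh : b.holds s
    · obtain ⟨t1, s1, h1, h2, v', hv', h3⟩ := hb v s hI hh
      obtain ⟨t2, s2, h4, h5, h6⟩ := ih v' hv' s1 h3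
      refine ⟨t1 + t2 + 1, s2, ?_, .loopT _ _ _ _ _ _ _ hh h2 h5, h6⟩
      have : (v' + 1) * (tb + 1) ≤ v * (tb + 1) := Nat.mul_le_mul_right _ hv'
      nlinarith
    · exact ⟨1, s, by omega, .loopF _ _ _ hh, ⟨v, hI⟩, hh⟩

/-- scalar index variable -/
def vr (a : ℕ) : Ix := .look a .zero
/-- scalar real variable -/
def sc (a : ℕ) : Cell := ⟨a, .zero, .zero⟩

@[simp] theorem ev_vr (s : Mem) (a : ℕ) : (vr a).ev s = s.nats a 0 := rfl
@[simp] theorem ev_zero (s : Mem) : Ix.zero.ev s = 0 := rfl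
@[simp] theorem ev_succ (s : Mem) (e : Ix) : (Ix.succ e).ev s = e.ev s + 1 := rfl
@[simp] theorem ev_look (s : Mem) (a : ℕ) (e : Ix) : (Ix.look a e).ev s = s.nats a (e.ev s) := rfl
@[simp] theorem rd_mk (s : Mem) (a : ℕ) (e f : Ix) :
    Cell.rd s ⟨a, e, f⟩ = s.reals a (e.ev s) (f.ev s) := rfl
@[simp] theorem rd_sc (s : Mem) (a : ℕ) : (sc a).rd s = s.reals a 0 0 := rfl
@[simp] theorem holds_ltN (s : Mem) (e f : Ix) : (Tst.ltN e f).holds s ↔ e.ev s < f.ev s := Iff.rfl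
@[simp] theorem holds_ltR (s : Mem) (c d : Cell) : (Tst.ltR c d).holds s ↔ c.rd s < d.rd s :=
  Iff.rfl
@[simp] theorem wrR_sc_ne (s : Mem) (a : ℕ) (x : ℝ) (a' : ℕ) (h : a' ≠ a) :
    (s.wrR (sc a) x).reals a' = s.reals a' := wrR_reals_ne s a _ _ x a' h
@[simp] theorem wrR_sc_same (s : Mem) (a : ℕ) (x : ℝ) :
    (s.wrR (sc a) x).reals a = upd2 (s.reals a) 0 0 x := wrR_reals_same s a _ _ x

/-- assignment to a scalar index variable -/
def asg (a : ℕ) (e : Ix) : Cmd := .setN a .zero e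

theorem Runs.asg {a : ℕ} {v : Ix} {s : Mem} {Q : Mem → Prop}
    (h : Q (s.wrN a 0 (v.ev s))) : Runs ok (asg a v) s 1 Q := Runs.setN h

/-- `for x in [0, B) do body` -/
def forL (x : ℕ) (B : Ix) (body : Cmd) : Cmd :=
  .andThen (asg x .zero) (.loop (.ltN (vr x) B) (.andThen body (asg x (.succ (vr x)))))

theorem Runs.forL {x : ℕ} {B : Ix} {body : Cmd} {s0 : Mem} (bnd tb : ℕ) (I : ℕ → Mem → Prop)
    (hx : x ∉ body.wN)
    (hB : ∀ s, Agree (x :: body.wN) body.wR s0 s → B.ev s = bnd)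
    (hI0 : I 0 s0)
    (hIx : ∀ j s v, I j s → I j (s.wrN x 0 v))
    (hbody : ∀ j < bnd, ∀ s, Agree (x :: body.wN) body.wR s0 s → s.nats x 0 = j → I j s →
      Runs ok body s tb (I (j + 1))) :
    Runs ok (forL x B body) s0 (bnd * (tb + 2) + 2) (I bnd) := by
  have key := Runs.loop (ok := ok) (b := .ltN (vr x) B)
    (c := .andThen body (RealRAM.asg x (.succ (vr x)))) (tb := tb + 1)
    (fun v s => ∃ j, j + v = bnd ∧ Agree (x :: body.wN) body.wR s0 s ∧ s.nats x 0 = j ∧ I j s) ?_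
    bnd (s0.wrN x 0 0) ⟨0, by simp, (agree_wrN _ _ _ _).mono (by simp) (by simp), by simp,
      hIx _ _ _ hI0⟩
  · have := Runs.andThen (c := RealRAM.asg x .zero) (t₁ := 1) (Runs.asg (s := s0) (ok := ok) key)
    refine this.mono (by nlinarith) ?_
    rintro s' ⟨⟨v', j, hj, hA, hxj, hI⟩, hn⟩
    simp only [holds_ltN, ev_vr, hB s' hA, hxj] at hn
    have : j = bnd := by omega
    exact this ▸ hI
  · rintro v s ⟨j, hj, hA, hxj, hI⟩ hh
    simp only [holds_ltN, ev_vr, hB s hA, hxj] at hh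
    refine Runs.andThen ((hbody j hh s hA hxj hI).frame fun s1 hA1 hI1 => Runs.asg ?_)
    refine ⟨v - 1, by omega, j + 1, by omega, ?_, ?_, hIx _ _ _ hI1⟩
    · exact (hA.trans (hA1.mono (by simp +contextual) (by simp))).trans
        ((agree_wrN _ _ _ _).mono (by simp) (by simp))
    · simp [hA1.1 x hx, hxj]

theorem forL_wN (x : ℕ) (B : Ix) (body : Cmd) :
    (forL x B body).wN = x :: (body.wN ++ [x]) := rfl
theorem forL_wR (x : ℕ) (B : Ix) (body : Cmd) :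
    (forL x B body).wR = body.wR ++ [] := rfl

/-- filling a rectangle of the array `d` cell by cell -/
theorem Runs.fill {x y d : ℕ} {B C : Ix} {body : Cmd} {s0 : Mem} (b c tb : ℕ)
    (F : ℕ → ℕ → ℝ) (hx : x ∉ body.wN) (hy : y ∉ body.wN) (hxy : x ≠ y)
    (hB : ∀ s, Agree (x :: y :: body.wN) body.wR s0 s → B.ev s = b ∧ C.ev s = c)
    (hbody : ∀ i < b, ∀ j < c, ∀ s, Agree (x :: y :: body.wN) body.wR s0 s → s.nats x 0 = i →
      s.nats y 0 = j → Runs ok body s tb fun s' => s'.reals d = upd2 (s.reals d) i j (F i j)) :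
    Runs ok (RealRAM.forL x B (RealRAM.forL y C body)) s0 (b * (c * (tb + 2) + 4) + 2)
      fun s => s.reals d = fun i j => if i < b ∧ j < c then F i j else s0.reals d i j := by
  have hW : ∀ s, Agree (x :: (RealRAM.forL y C body).wN) (RealRAM.forL y C body).wR s0 s →
      Agree (x :: y :: body.wN) body.wR s0 s := fun s h =>
    h.mono (by simp +contextual [forL_wN, or_imp]) (by simp [forL_wR])
  refine Runs.forL b (c * (tb + 2) + 2)
    (fun i s => s.reals d = fun i' j => if i' < i ∧ j < c then F i' j else s0.reals d i' j)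
    (by simp [forL_wN, hx, hxy]) (fun s h => (hB s (hW s h)).1) (by simp) (fun _ _ _ h => h) ?_
  intro i hi s hA hxi hI
  have hA' := hW s hA
  have hW2 : ∀ s', Agree (y :: body.wN) body.wR s s' →
      Agree (x :: y :: body.wN) body.wR s0 s' := fun s' h =>
    hA'.trans (h.mono (by simp +contextual) (by simp))
  refine (Runs.forL c tb (fun j s' => s'.reals d = fun i' j' =>
      if (i' < i ∧ j' < c) ∨ (i' = i ∧ j' < j) then F i' j' else s0.reals d i' j')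
    hy (fun s' h => (hB s' (hW2 s' h)).2) (by simpa using hI) (fun _ _ _ h => h) ?_).mono
      le_rfl ?_
  · intro j hj s' hA2 hyj hI2
    have hxi' : s'.nats x 0 = i := by rw [hA2.1 x (by simp [hx, hxy]), hxi]
    refine (hbody i hi j hj s' (hW2 s' hA2) hxi' hyj).mono le_rfl fun s'' h => ?_
    rw [h, hI2]
    funext i' j'
    simp only [upd2]
    by_cases h1 : i' = i ∧ j' = j
    · obtain ⟨rfl, rfl⟩ := h1
      simp
    · rw [if_neg h1]
      have : ((i' < i ∧ j' < c) ∨ (i' = i ∧ j' < j)) ↔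
          ((i' < i ∧ j' < c) ∨ (i' = i ∧ j' < j + 1)) := by omega
      simp only [this]
  · intro s' h
    rw [h]
    funext i' j'
    have : ((i' < i ∧ j' < c) ∨ (i' = i ∧ j' < c)) ↔ (i' < i + 1 ∧ j' < c) := by omega
    simp only [this]

/-- sticky search: `Fd` (found) persists, and holds afterwards if some index satisfies `P`. -/
theorem Runs.sticky {x : ℕ} {B : Ix} {body : Cmd} {s0 : Mem} (bnd tb : ℕ)
    (G Fd : Mem → Prop) (P : ℕ → Prop)
    (hx : x ∉ body.wN)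
    (hB : ∀ s, Agree (x :: body.wN) body.wR s0 s → B.ev s = bnd)
    (hG : G s0)
    (hGx : ∀ s v, G s → G (s.wrN x 0 v)) (hFx : ∀ s v, Fd s → Fd (s.wrN x 0 v))
    (hbody : ∀ j < bnd, ∀ s, Agree (x :: body.wN) body.wR s0 s → s.nats x 0 = j → G s →
      Runs ok body s tb fun s' => G s' ∧ (Fd s → Fd s') ∧ (P j → Fd s')) :
    Runs ok (RealRAM.forL x B body) s0 (bnd * (tb + 2) + 2)
      fun s' => G s' ∧ (Fd s0 → Fd s') ∧ ((∃ j < bnd, P j) → Fd s') := by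
  refine Runs.forL bnd tb (fun j s => G s ∧ (Fd s0 → Fd s) ∧ ((∃ j' < j, P j') → Fd s)) hx hB
    ⟨hG, fun h => h, by simp⟩
    (fun j s v h => ⟨hGx _ _ h.1, fun h' => hFx _ _ (h.2.1 h'), fun h' => hFx _ _ (h.2.2 h')⟩) ?_
  intro j hj s hA hxj hI
  refine (hbody j hj s hA hxj hI.1).mono le_rfl fun s' h => ⟨h.1, fun h' => h.2.1 (hI.2.1 h'), ?_⟩
  rintro ⟨j', hj', hP⟩
  rcases Nat.lt_succ_iff_lt_or_eq.1 hj' with h1 | rfl
  · exact h.2.1 (hI.2.2 ⟨j', h1, hP⟩)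
  · exact h.2.2 hP

end Pool.Agent.Lib.RealRAM
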