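import Pool.Agent.Lib.RealRAM.SD

/-! `SD` for vectors, decidable predicates, big operators, iteration and reachability. -/

namespace Pool.Agent.Lib.RealRAM.SP

open Enc Relation

theorem Hb.nat (n : ℕ) : Hb n (n : ℝ) :=
  ⟨n, 1, one_ne_zero, by rw [Nat.abs_cast]; exact_mod_cast Nat.lt_two_pow_self.le,
    by simpa using one_le_pow₀ (by norm_num), by simp⟩

theorem Hb.pow {k : ℕ} {x : ℝ} (h : Hb k x) (n : ℕ) : Hb (n * k) (x ^ n) := by
  induction n with
  | zero => simpa using Hb.one 0
  | succ n ih => rw [pow_succ, add_mul, one_mul]; exact ih.mul h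

theorem Hb.abs {k : ℕ} {x : ℝ} (h : Hb k x) : Hb k |x| := by
  rcases abs_choice x with e | e <;> rw [e]
  exacts [h, h.neg]

theorem Hb.max {k : ℕ} {x y : ℝ} (h : Hb k x) (h' : Hb k y) : Hb k (max x y) := by
  rcases max_choice x y with e | e <;> rwa [e]

theorem Hb.min {k : ℕ} {x y : ℝ} (h : Hb k x) (h' : Hb k y) : Hb k (min x y) := by
  rcases min_choice x y with e | e <;> rwa [e]

/-- bounds along an iteration with additive growth -/
theorem iterate_bound {β : Type} [Enc β] {f : β → β} {Inv : β → Prop} {Z : ℕ} {H : ℕ∞} {s : β}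
    (h0 : Inv s) (h1 : ∀ b, Inv b → Inv (f b) ∧ sz (f b) ≤ sz b + Z ∧ ht (f b) ≤ ht b + H) (k : ℕ) :
    Inv (f^[k] s) ∧ sz (f^[k] s) ≤ sz s + k * Z ∧ ht (f^[k] s) ≤ ht s + k * H := by
  induction k with
  | zero => simpa using h0
  | succ k ih =>
    rw [Function.iterate_succ_apply']
    obtain ⟨a, b, c⟩ := h1 _ ih.1
    refine ⟨a, by nlinarith [ih.2.1], c.trans ((add_le_add ih.2.2 le_rfl).trans (le_of_eq ?_))⟩
    push_cast; ring

theorem foldl_max_le {l : List ℝ} {s x : ℝ} : l.foldl max s ≤ x ↔ s ≤ x ∧ ∀ y ∈ l, y ≤ x := by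
  induction l generalizing s with
  | nil => simp
  | cons y l ih => simp [ih, and_assoc]

theorem le_foldl_min {l : List ℝ} {s x : ℝ} : x ≤ l.foldl min s ↔ x ≤ s ∧ ∀ y ∈ l, x ≤ y := by
  induction l generalizing s with
  | nil => simp
  | cons y l ih => simp [ih, and_assoc]

theorem foldl_min_mem (l : List ℝ) (s : ℝ) : l.foldl min s = s ∨ l.foldl min s ∈ l := by
  induction l generalizing s with
  | nil => simp
  | cons y l ih =>
    rcases ih (min s y) with h | h
    · rw [List.foldl_cons, h]; rcases min_choice s y with e | e <;> simp [e]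
    · simp [h]

theorem foldl_max_mem (l : List ℝ) (s : ℝ) : l.foldl max s = s ∨ l.foldl max s ∈ l := by
  induction l generalizing s with
  | nil => simp
  | cons y l ih =>
    rcases ih (max s y) with h | h
    · rw [List.foldl_cons, h]; rcases max_choice s y with e | e <;> simp [e]
    · simp [h]

/-- an inflationary map on subsets is stationary after `card` rounds -/
theorem iterate_fixed {ι : Type} [Fintype ι] (F : (ι → Bool) → ι → Bool)
    (h : ∀ R k, R k = true → F R k = true) (R : ι → Bool) :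
    F (F^[Fintype.card ι] R) = F^[Fintype.card ι] R := by
  have key : ∀ i, i ≤ (Finset.univ.filter fun k => F^[i] R k = true).card ∨
      F (F^[i] R) = F^[i] R := fun i => by
    induction i with
    | zero => simp
    | succ i ih =>
      rw [Function.iterate_succ_apply']
      by_cases e : F (F^[i] R) = F^[i] R
      · right; rw [e, e]
      · refine .inl (Nat.succ_le_of_lt ((ih.resolve_right e).trans_lt (Finset.card_lt_card
          ⟨fun k hk => by simpa using h _ k (by simpa using hk), fun hs => e (funext fun k => ?_)⟩)))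
        rw [Bool.eq_iff_iff]
        exact ⟨fun hk => by simpa using hs (by simpa using hk), h _ k⟩
  refine (key _).elim (fun h1 => funext fun k => ?_) fun h1 => h1
  have : k ∈ Finset.univ.filter fun k => F^[Fintype.card ι] R k = true := by
    rw [Finset.eq_univ_of_card _ (le_antisymm (Finset.card_le_univ _) h1)]; simp
  rw [(Finset.mem_filter.1 this).2, h _ k (Finset.mem_filter.1 this).2]

/-- a proposition as a Boolean -/
noncomputable def dc (p : Prop) : Bool := @decide p (Classical.propDecidable p)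

@[simp] theorem dc_iff {p : Prop} : dc p = true ↔ p := by simp [dc]
@[simp] theorem dc_True : dc True = true := by simp [dc]
@[simp] theorem dc_False : dc False = false := by simp [dc]
@[simp] theorem dc_false {p : Prop} : dc p = false ↔ ¬ p := by simp [dc]

namespace SD

variable {α ε : Type} [Enc α] [Enc ε] {β γ δ : α → Type} [iβ : ∀ a, Enc (β a)] [∀ a, Enc (γ a)]
  [∀ a, Enc (δ a)] {n m : α → ℕ}

@[fun_prop] theorem finRange (hn : SD n) : SD fun a => List.finRange (n a) :=
  Rz.congr hn.range (fun _ => rfl) fun a => by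
    rw [← enc_map, ← enc_map (List.range _), ← List.map_coe_finRange_eq_range, List.map_map]; rfl

@[fun_prop] theorem pi {f : ∀ a, Fin (n a) → β a} (hn : SD n)
    (hf : SD fun p : (a : α) × Fin (n a) => f p.1 p.2) : SD (fun a j => f a j) :=
  Rz.congr (map hn.finRange hf) (fun _ => rfl) fun a =>
    congrArg enc (List.ofFn_eq_map (f := f a))

@[fun_prop] theorem ofFn {f : ∀ a, Fin (n a) → β a} (hf : SD f) : SD fun a => List.ofFn (f a) := hf

theorem dim {f : ∀ a, Fin (n a) → β a} (hf : SD f) : SD n := hf.ofFn.length.congr fun _ => by simp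

theorem app {f : ∀ a, Fin (n a) → β a} {i : ∀ a, Fin (n a)} (hf : SD f) (hi : SD i) :
    SD fun a => f a (i a) :=
  ofV ((hf.ofFn.toL.getElem? hi.finVal).getD (g := fun _ => Val.nil) Rz.nil) fun a => by simp

/-- put `have := hf.ap` in the context to let `fun_prop` apply the vector `f` to an index -/
theorem ap {f : ∀ a, Fin (n a) → β a} (hf : SD f) (ε : Type) [Enc ε] (g : ε → α)
    (i : ∀ c, Fin (n (g c))) (j : ∀ c, Enc (β (g c))) [h : Same j fun c => iβ (g c)] (hg : SD g)
    (hi : SD i) : @SD _ _ _ j fun c => f (g c) (i c) := by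
  obtain rfl := h.eq; exact app (β := fun c => β (g c)) (hf.comp' hg) hi

/-- the same for matrices -/
theorem ap2 {f : ∀ a, Fin (n a) → Fin (m a) → β a} (hf : SD f) (ε : Type) [Enc ε] (g : ε → α)
    (i : ∀ c, Fin (n (g c))) (k : ∀ c, Fin (m (g c))) (j : ∀ c, Enc (β (g c)))
    [h : Same j fun c => iβ (g c)] (hg : SD g) (hi : SD i) (hk : SD k) :
    @SD _ _ _ j fun c => f (g c) (i c) (k c) := by
  obtain rfl := h.eq
  exact app (β := fun c => β (g c)) (app (β := fun c => Fin (m (g c)) → β (g c)) (hf.comp' hg) hi) hk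

/-- the same for a function of the context and one more argument -/
theorem fn {f : ∀ a, γ a → β a} (hf : SD fun p : (a : α) × γ a => f p.1 p.2) (ε : Type) [Enc ε]
    (g : ε → α) (x : ∀ c, γ (g c)) (j : ∀ c, Enc (β (g c))) [h : Same j fun c => iβ (g c)]
    (hg : SD g) (hx : SD x) : @SD _ _ _ j fun c => f (g c) (x c) := by
  rw [h.eq]; exact Rz.comp (smk hg hx) (Rz.reindex hf fun c => ⟨g c, x c⟩)

theorem fn2 {f : ∀ a, γ a → δ a → β a}
    (hf : SD fun p : (a : α) × (γ a × δ a) => f p.1 p.2.1 p.2.2) (ε : Type) [Enc ε]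
    (g : ε → α) (x : ∀ c, γ (g c)) (y : ∀ c, δ (g c)) (j : ∀ c, Enc (β (g c)))
    [h : Same j fun c => iβ (g c)] (hg : SD g) (hx : SD x) (hy : SD y) :
    @SD _ _ _ j fun c => f (g c) (x c) (y c) := by
  rw [h.eq]; exact Rz.comp (Rz.pair hg (Rz.pair hx hy)) (Rz.reindex hf fun c => ⟨g c, x c, y c⟩)

section applied
variable {i : ∀ a, Fin (n a)} {k : ∀ a, Fin (m a)}

@[fun_prop] theorem fst1 {f : ∀ a, (Fin (n a) → β a) × γ a} (hf : SD f) (hi : SD i) :
    SD fun a => (f a).1 (i a) := app hf.fst hi
@[fun_prop] theorem snd1 {f : ∀ a, γ a × (Fin (n a) → β a)} (hf : SD f) (hi : SD i) :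
    SD fun a => (f a).2 (i a) := app hf.snd hi
@[fun_prop] theorem fst2 {f : ∀ a, (Fin (n a) → Fin (m a) → β a) × γ a} (hf : SD f) (hi : SD i)
    (hk : SD k) : SD fun a => (f a).1 (i a) (k a) := app (app hf.fst hi) hk
@[fun_prop] theorem snd2 {f : ∀ a, γ a × (Fin (n a) → Fin (m a) → β a)} (hf : SD f) (hi : SD i)
    (hk : SD k) : SD fun a => (f a).2 (i a) (k a) := app (app hf.snd hi) hk

@[fun_prop] theorem ssnd1 {f : ε → (a : α) × (Fin (n a) → β a)} {i : ∀ c, Fin (n (f c).1)}
    {j : ∀ c, Enc (β (f c).1)} [h : Same j fun c => iβ (f c).1] (hf : SD f) (hi : SD i) :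
    @SD _ _ _ j fun c => (f c).2 (i c) := by
  obtain rfl := h.eq; exact app (β := fun c => β (f c).1) hf.ssnd' hi

@[fun_prop] theorem ssnd2 {f : ε → (a : α) × (Fin (n a) → Fin (m a) → β a)}
    {i : ∀ c, Fin (n (f c).1)} {k : ∀ c, Fin (m (f c).1)} {j : ∀ c, Enc (β (f c).1)}
    [h : Same j fun c => iβ (f c).1] (hf : SD f) (hi : SD i) (hk : SD k) :
    @SD _ _ _ j fun c => (f c).2 (i c) (k c) := by
  obtain rfl := h.eq
  exact app (β := fun c => β (f c).1) (app (β := fun c => Fin (m (f c).1) → β (f c).1) hf.ssnd' hi) hk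

end applied

@[fun_prop] theorem finsum {f : ∀ a, Fin (n a) → ℝ} (hn : SD n)
    (hf : SD fun p : (a : α) × Fin (n a) => f p.1 p.2) : SD fun a => ∑ j, f a j :=
  (pi hn hf).ofFn.sum.congr fun _ => List.sum_ofFn.symm

@[fun_prop] theorem sumRange {f : α → ℕ → ℝ} (hn : SD n)
    (hf : SD fun p : (_ : α) × ℕ => f p.1 p.2) : SD fun a => ∑ j ∈ Finset.range (n a), f a j :=
  (map hn.range hf).sum.congr fun _ => (sum_map_range _ _).symm

@[fun_prop] theorem foldlMax {l : α → List ℝ} {s : α → ℝ} (hl : SD l) (hs : SD s) :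
    SD fun a => (l a).foldl Max.max (s a) :=
  foldl_growth hl hs (by fun_prop) (g := fun _ x => x) (by fun_prop) fun a b x =>
    ⟨by simp, by rcases max_choice b x with e | e <;> simp [e]⟩

@[fun_prop] theorem foldlMin {l : α → List ℝ} {s : α → ℝ} (hl : SD l) (hs : SD s) :
    SD fun a => (l a).foldl Min.min (s a) :=
  foldl_growth hl hs (by fun_prop) (g := fun _ x => x) (by fun_prop) fun a b x =>
    ⟨by simp, by rcases min_choice b x with e | e <;> simp [e]⟩

@[fun_prop] theorem foldMax {f : ∀ a, Fin (n a) → ℝ} {s : α → ℝ} (hn : SD n) (hs : SD s)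
    (hf : SD fun p : (a : α) × Fin (n a) => f p.1 p.2) :
    SD fun a => Finset.univ.fold Max.max (s a) (f a) :=
  ((pi hn hf).ofFn.foldlMax hs).congr fun _ => eq_of_forall_ge_iff fun _ => by
    simp [foldl_max_le, Finset.fold_max_le, List.mem_ofFn]

@[fun_prop] theorem foldMin {f : ∀ a, Fin (n a) → ℝ} {s : α → ℝ} (hn : SD n) (hs : SD s)
    (hf : SD fun p : (a : α) × Fin (n a) => f p.1 p.2) :
    SD fun a => Finset.univ.fold Min.min (s a) (f a) :=
  ((pi hn hf).ofFn.foldlMin hs).congr fun _ => eq_of_forall_le_iff fun _ => by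
    simp [le_foldl_min, Finset.le_fold_min, List.mem_ofFn]

@[fun_prop] theorem zipWith {f : ∀ a, List (β a)} {g : ∀ a, List (γ a)} {h : ∀ a, β a → γ a → δ a}
    (hf : SD f) (hg : SD g) (hh : SD fun p : (a : α) × (β a × γ a) => h p.1 p.2.1 p.2.2) :
    SD (fun a => List.zipWith (h a) (f a) (g a)) :=
  (map (f := fun a (p : β a × γ a) => h a p.1 p.2) (zip hf hg) hh).congr fun a => by
    rw [← List.map_uncurry_zip_eq_zipWith]; rfl

/-! ### decidable predicates -/

theorem dec {p : α → Prop} {b : α → Bool} (hb : SD b) (h : ∀ a, p a ↔ b a = Bool.true) :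
    SD fun a => dc (p a) := hb.congr fun a => by rw [Bool.eq_iff_iff, dc_iff, h]

theorem decCongr {p q : α → Prop} (hp : SD fun a => dc (p a)) (h : ∀ a, q a ↔ p a) :
    SD fun a => dc (q a) := dec hp fun a => by simp [h]

@[fun_prop] theorem decide {p : α → Prop} {i : ∀ a, Decidable (p a)} (hp : SD fun a => dc (p a)) :
    SD fun a => @decide (p a) (i a) := hp.congr fun a => by rw [Bool.eq_iff_iff]; simp

section dec
variable {p q : α → Prop}

@[fun_prop] theorem ite {i : ∀ a, Decidable (p a)} {f g : ∀ a, β a} (hp : SD fun a => dc (p a)) (hf : SD f)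
    (hg : SD g) : SD fun a => @_root_.ite _ (p a) (i a) (f a) (g a) :=
  (cond hp hf hg).congr fun a => by by_cases h : p a <;> simp [h]

@[fun_prop] theorem dite {i : ∀ a, Decidable (p a)} {f : ∀ a, p a → β a} {g : ∀ a, ¬ p a → β a}
    (hp : SD fun a => dc (p a)) (hf : SD fun x : {a // p a} => f x.1 x.2)
    (hg : SD fun x : {a // ¬ p a} => g x.1 x.2) :
    SD fun a => @_root_.dite _ (p a) (i a) (f a) (g a) := by
  have e : ∀ a, (enc (dc (p a))).isCons = dc (p a) := fun a => SP.isCons_vb _
  refine Rz.ite hp ((Rz.reindex hf fun x => ⟨x.1, by simpa [e] using x.2⟩).congr (fun _ => rfl)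
    fun x => ?_) ((Rz.reindex hg fun x => ⟨x.1, by simpa [e] using x.2⟩).congr (fun _ => rfl)
      fun x => ?_)
  · have : p x.1 := by simpa [e] using x.2
    simp [this]
  · have : ¬ p x.1 := by simpa [e] using x.2
    simp [this]

@[fun_prop] theorem decBool {b : α → Bool} (hb : SD b) :
    SD fun a => dc (b a = Bool.true) := dec hb fun _ => Iff.rfl

@[fun_prop] theorem decLt {f g : α → ℝ} (hf : SD f) (hg : SD g) :
    SD fun a => dc (f a < g a) := dec (lt hf hg) fun _ => by simp

@[fun_prop] theorem decLe {f g : α → ℝ} (hf : SD f) (hg : SD g) :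
    SD fun a => dc (f a ≤ g a) := dec (lt hg hf).not fun _ => by simp

@[fun_prop] theorem decEq {f g : α → ℝ} (hf : SD f) (hg : SD g) :
    SD fun a => dc (f a = g a) :=
  dec ((lt hg hf).not.and (lt hf hg).not) fun _ => by rw [le_antisymm_iff]; simp

@[fun_prop] theorem decNatLe (hm : SD m) (hn : SD n) :
    SD fun a => dc (m a ≤ n a) := dec (SP.natBle hm hn).sd fun _ => by simp

@[fun_prop] theorem decNatLt (hm : SD m) (hn : SD n) :
    SD fun a => dc (m a < n a) := dec (SP.natBlt hm hn).sd fun _ => by simp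

@[fun_prop] theorem decNatEq (hm : SD m) (hn : SD n) :
    SD fun a => dc (m a = n a) := dec (SP.natBeq hm hn).sd fun _ => by simp

@[fun_prop] theorem decFinEq {f g : ∀ a, Fin (n a)} (hf : SD f)
    (hg : SD g) : SD fun a => dc (f a = g a) :=
  dec (SP.natBeq hf.finVal hg.finVal).sd fun _ => by simp [Fin.ext_iff]

@[fun_prop] theorem decNot (hp : SD fun a => dc (p a)) :
    SD fun a => dc (¬ p a) := dec hp.not fun _ => by simp

@[fun_prop] theorem decNe {ι : α → Type} {f g : ∀ a, ι a}
    (h : SD fun a => dc (f a = g a)) : SD fun a => dc (f a ≠ g a) := decNot h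

@[fun_prop] theorem decAnd (hp : SD fun a => dc (p a)) (hq : SD fun a => dc (q a)) :
    SD fun a => dc (p a ∧ q a) := dec (hp.and hq) fun _ => by simp

@[fun_prop] theorem decOr (hp : SD fun a => dc (p a)) (hq : SD fun a => dc (q a)) :
    SD fun a => dc (p a ∨ q a) := dec (hp.or hq) fun _ => by simp

variable {r : ∀ a, β a → Prop} {l : ∀ a, List (β a)}

@[fun_prop] theorem decExMem (hl : SD l)
    (hr : SD fun q : (a : α) × β a => dc (r q.1 q.2)) : SD fun a => dc (∃ x ∈ l a, r a x) :=
  dec (any (f := fun a x => dc (r a x)) hl hr) fun _ => by simp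

@[fun_prop] theorem decAllMem (hl : SD l)
    (hr : SD fun q : (a : α) × β a => dc (r q.1 q.2)) : SD fun a => dc (∀ x ∈ l a, r a x) :=
  dec (all (f := fun a x => dc (r a x)) hl hr) fun _ => by simp

@[fun_prop] theorem decExFin {r : ∀ a, Fin (n a) → Prop}
    (hn : SD n) (hr : SD fun q : (a : α) × Fin (n a) => dc (r q.1 q.2)) :
    SD fun a => dc (∃ x, r a x) :=
  decCongr (decExMem hn.finRange hr) fun _ => by simp

@[fun_prop] theorem decAllFin {r : ∀ a, Fin (n a) → Prop}
    (hn : SD n) (hr : SD fun q : (a : α) × Fin (n a) => dc (r q.1 q.2)) :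
    SD fun a => dc (∀ x, r a x) :=
  decCongr (decAllMem hn.finRange hr) fun _ => by simp

@[fun_prop] theorem decImp (hp : SD fun a => dc (p a)) (hq : SD fun a => dc (q a)) :
    SD fun a => dc (p a → q a) := dec (hp.not.or hq) fun _ => by simp [imp_iff_not_or]

@[fun_prop] theorem decNone {o : ∀ a, Option (β a)} (ho : SD o) :
    SD fun a => dc (o a = .none) := dec ho.isSome.not fun _ => by simp

@[fun_prop] theorem decAllSome {o : ∀ a, Option (β a)} (ho : SD o)
    (hr : SD fun q : (a : α) × β a => dc (r q.1 q.2)) :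
    SD fun a => dc (∀ x, o a = .some x → r a x) :=
  decCongr (decAllMem ho.toList hr) fun _ => by simp

end dec

@[fun_prop] theorem update {f : ∀ a, Fin (n a) → β a} {i : ∀ a, Fin (n a)} {x : ∀ a, β a}
    (hf : SD f) (hi : SD i) (hx : SD x) : SD fun a => Function.update (f a) (i a) (x a) := by
  have := hf.ap
  have := hf.dim
  exact congr (f := fun a j => if j = i a then x a else f a j) (by fun_prop) fun a =>
    funext fun j => Function.update_apply _ _ _ _

@[fun_prop] theorem argmin {l : ∀ a, List (β a)} {f : ∀ a, β a → ℝ} (hl : SD l)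
    (hf : SD fun p : (a : α) × β a => f p.1 p.2) : SD fun a => (l a).argmin (f a) := by
  have := fn (f := f) hf
  refine (foldl_growth (f := fun a o x => o.elim (.some x) fun y =>
    if f a x < f a y then .some x else .some y) hl none (by fun_prop) (g := fun _ x => Option.some x)
    (by fun_prop) fun a o x => ?_).congr fun a => ?_
  · cases o with
    | none => simp; omega
    | some y => simp only [Option.elim_some]; split_ifs <;> simp <;> omega
  · unfold List.argmin
    congr 1
    funext o x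
    cases o <;> simp [List.argAux]

@[fun_prop] theorem argmax {l : ∀ a, List (β a)} {f : ∀ a, β a → ℝ} (hl : SD l)
    (hf : SD fun p : (a : α) × β a => f p.1 p.2) : SD fun a => (l a).argmax (f a) :=
  (argmin (f := fun a x => -f a x) hl hf.neg).congr fun a => by
    unfold List.argmin List.argmax
    congr 1
    funext o x
    cases o <;> simp [List.argAux]

/-- iteration; the bounds are needed up to the number of rounds -/
theorem iter {s : ∀ a, β a} {f : ∀ a, β a → β a} (hn : SD n) (hs : SD s)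
    (hf : SD fun p : (a : α) × β a => f p.1 p.2) {Z : α → ℕ} {H : α → ℕ∞} (hZ : PB sz Z)
    (hH : PE mu H) (h : ∀ a, ∀ k ≤ n a, sz ((f a)^[k] (s a)) ≤ Z a ∧ ht ((f a)^[k] (s a)) ≤ H a) :
    SD fun a => (f a)^[n a] (s a) := by
  have := fn (f := f) hf
  refine (foldl (f := fun a b _ => f a b) (hn.replicate unit) hs (by fun_prop) hZ hH
    fun a k => ?_).congr fun a => by rw [List.foldl_const]; simp
  rw [List.foldl_const]
  exact h _ _ (by simp)

/-- iteration with additive growth of size and height under an invariant -/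
theorem iter_add {s : ∀ a, β a} {f : ∀ a, β a → β a} (hn : SD n) (hs : SD s)
    (hf : SD fun p : (a : α) × β a => f p.1 p.2) {Z : α → ℕ} {H : α → ℕ∞} (hZ : PB sz Z)
    (hH : PE mu H) (Inv : ∀ a, β a → Prop) (h0 : ∀ a, Inv a (s a)) (h1 : ∀ a b, Inv a b →
      Inv a (f a b) ∧ sz (f a b) ≤ sz b + Z a ∧ ht (f a b) ≤ ht b + H a) :
    SD fun a => (f a)^[n a] (s a) := by
  refine iter hn hs hf (hs.size.add (hn.natB.mul hZ)) (hs.height.add (hn.natE.mul hH))
    fun a k hk => ?_
  obtain ⟨-, b, c⟩ := iterate_bound (h0 a) (h1 a) k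
  exact ⟨b.trans (by gcongr), c.trans (by gcongr)⟩

/-- iteration on subsets of `Fin n` -/
theorem iterSet {k : α → ℕ} {s : ∀ a, Fin (n a) → Bool}
    {f : ∀ a, (Fin (n a) → Bool) → Fin (n a) → Bool} (hk : SD k) (hs : SD s)
    (hf : SD fun p : (a : α) × (Fin (n a) → Bool) => f p.1 p.2) : SD fun a => (f a)^[k a] (s a) :=
  iter hk hs hf ((hs.dim.natB.mul (PB.const 4)).add (PB.const 1)) (PE.const 0) fun _ _ _ =>
    ⟨sz_fun_le fun _ => sz_bool _, ht_fun_le.2 fun _ => by simp⟩

@[fun_prop] theorem decReach {E : ∀ a, Fin (n a) → Fin (n a) → Prop} {s t : ∀ a, Fin (n a)}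
    (hn : SD n) (hE : SD fun p : (a : α) × (Fin (n a) × Fin (n a)) => dc (E p.1 p.2.1 p.2.2))
    (hs : SD s) (ht : SD t) : SD fun a => dc (ReflTransGen (E a) (s a) (t a)) := by
  obtain ⟨B, hB⟩ : ∃ B : ∀ a, Fin (n a) → Fin (n a) → Bool, B = fun a x y => dc (E a x y) := ⟨_, rfl⟩
  have := fn2 (f := B) (hB ▸ hE)
  let F : ∀ a, (Fin (n a) → Bool) → Fin (n a) → Bool := fun a R k =>
    R k || (List.finRange (n a)).any fun j => R j && B a j k
  refine dec ((iterSet (f := F) (s := fun a k => dc (k = s a)) hn (by fun_prop)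
    (by simp only [F]; fun_prop)).app ht) fun a => ?_
  generalize t a = y
  constructor
  · intro h
    have e := iterate_fixed (F a) (fun R k h => by simp [F, h]) fun k => dc (k = s a)
    rw [Fintype.card_fin] at e
    induction h with
    | refl =>
      have : ∀ k, (F a)^[k] (fun k => dc (k = s a)) (s a) = Bool.true := fun k => by
        induction k with
        | zero => simp
        | succ k ih => rw [Function.iterate_succ_apply']; simp [F, ih]
      exact this _
    | tail _ h ih => rw [← e]; simpa [F, hB] using .inr ⟨_, by simpa [F, hB] using ih, h⟩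
  · have : ∀ k y, (F a)^[k] (fun k => dc (k = s a)) y = Bool.true → ReflTransGen (E a) (s a) y :=
      fun k => by
      induction k with
      | zero => intro y h; rw [show y = s a by simpa using h]
      | succ k ih =>
        intro y
        rw [Function.iterate_succ_apply']
        simp only [F, hB, Bool.or_eq_true, List.any_eq_true, Bool.and_eq_true, dc_iff] at ih ⊢
        rintro (h | ⟨j, -, h, h'⟩)
        exacts [ih _ h, (ih _ h).tail h']
    exact this _ _

end SD

end Pool.Agent.Lib.RealRAM.SP
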