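import Pool.Agent.Lib.RealRAM.SPNat

/-! Strongly polynomial computability `SD` of dependent functions, with `fun_prop` support. -/

namespace Pool.Agent.Lib.RealRAM.SP

open Enc

instance : Enc Val := ⟨fun v => v⟩
instance {n : ℕ} : Enc (Fin n) := ⟨fun i => enc i.val⟩
instance {n : ℕ} {β : Type} [Enc β] : Enc (Fin n → β) := ⟨fun f => enc (List.ofFn f)⟩
instance {α : Type} {β : α → Type} [Enc α] [∀ a, Enc (β a)] : Enc ((a : α) × β a) :=
  ⟨fun p => .cons (enc p.1) (enc p.2)⟩
instance {α : Type} {p : α → Prop} [Enc α] : Enc (Subtype p) := ⟨fun x => enc x.1⟩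

theorem enc_map {β : Type} [Enc β] (l : List β) : enc (l.map enc) = enc l := by
  induction l with
  | nil => rfl
  | cons x l ih => exact congrArg (Val.cons (enc x)) ih

theorem enc_omap {β : Type} [Enc β] (o : Option β) : enc (o.map enc) = enc o := by
  cases o <;> rfl

section
variable {α : Type} {β : α → Type} [Enc α] [∀ a, Enc (β a)] {γ : Type} [Enc γ] {n : ℕ}

@[simp] theorem sz_sigma (p : (a : α) × β a) : sz p = sz p.1 + sz p.2 + 1 := rfl
@[simp] theorem ht_sigma (p : (a : α) × β a) : ht p = max (ht p.1) (ht p.2) := rfl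
@[simp] theorem sz_fin (i : Fin n) : sz i = 2 * i + 1 := sz_nat _
@[simp] theorem ht_fin (i : Fin n) : ht i = 0 := ht_nat _
@[simp] theorem sz_subtype {p : α → Prop} (x : Subtype p) : sz x = sz x.1 := rfl
@[simp] theorem ht_subtype {p : α → Prop} (x : Subtype p) : ht x = ht x.1 := rfl

theorem mu_sigma_le (a : α) (b : β a) : mu (⟨a, b⟩ : (a : α) × β a) ≤ mu a + mu b + 1 :=
  mu_pair_le a b

theorem ht_fun_le {f : Fin n → γ} {B : ℕ∞} : ht f ≤ B ↔ ∀ i, ht (f i) ≤ B :=
  (ht_list_le (l := List.ofFn f)).trans (by simp [List.mem_ofFn])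

theorem ht_apply_le (f : Fin n → γ) (i : Fin n) : ht (f i) ≤ ht f := ht_fun_le.1 le_rfl i

theorem sz_fun_le {f : Fin n → γ} {B : ℕ} (h : ∀ i, sz (f i) ≤ B) : sz f ≤ n * (B + 1) + 1 :=
  (sz_list_le (l := List.ofFn f) (B := B) (by simpa [List.mem_ofFn] using h)).trans (by simp)

theorem sz_apply_le (f : Fin n → γ) (i : Fin n) : sz (f i) ≤ sz f :=
  sz_le_of_mem (l := List.ofFn f) (by simp [List.mem_ofFn])

theorem card_le_sz (f : Fin n → γ) : n ≤ sz f :=
  (List.length_ofFn (f := f)).symm.le.trans (length_le_sz (List.ofFn f))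

theorem ht_option_le {o : Option γ} {B : ℕ∞} : ht o ≤ B ↔ ∀ x, o = some x → ht x ≤ B := by
  cases o <;> simp

end

/-- the dependent function `f` is computed in strongly polynomial time -/
@[fun_prop]
def SD {α : Type} {β : α → Type} [Enc α] [∀ a, Enc (β a)] (f : ∀ a, β a) : Prop :=
  Rz (fun a => enc a) (fun a => enc (f a))

/-- equality of two families of codes, found by class inference -/
class Same {α : Type} {β : α → Type} (i j : ∀ a, Enc (β a)) : Prop where
  eq : i = j

instance {α : Type} {β : α → Type} (i : ∀ a, Enc (β a)) : Same i i := ⟨rfl⟩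

@[fun_prop] theorem SP.sd {α β : Type} [Enc α] [Enc β] {f : α → β} (h : SP f) : SD f := h

namespace SD

variable {α ε : Type} [Enc α] [Enc ε] {β γ δ : α → Type} [iβ : ∀ a, Enc (β a)] [∀ a, Enc (γ a)]
  [∀ a, Enc (δ a)]

theorem sp {f : α → ε} (h : SD f) : SP f := h
theorem toV {f : ∀ a, β a} (h : SD f) : SP fun a => enc (f a) := h
theorem toL {f : ∀ a, List (β a)} (h : SD f) : SP fun a => (f a).map enc :=
  Rz.congr h (fun _ => rfl) fun _ => enc_map _
theorem toO {f : ∀ a, Option (β a)} (h : SD f) : SP fun a => (f a).map enc :=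
  Rz.congr h (fun _ => rfl) fun _ => enc_omap _
theorem ofV {f : ∀ a, β a} {g : α → Val} (h : SP g) (e : ∀ a, enc (f a) = g a) : SD f :=
  Rz.congr h (fun _ => rfl) e
theorem ofL {f : ∀ a, List (β a)} {g : α → List Val} (h : SP g) (e : ∀ a, (f a).map enc = g a) :
    SD f := Rz.congr h (fun _ => rfl) fun a => by rw [← e, enc_map]
theorem ofO {f : ∀ a, Option (β a)} {g : α → Option Val} (h : SP g)
    (e : ∀ a, (f a).map enc = g a) : SD f := Rz.congr h (fun _ => rfl) fun a => by rw [← e, enc_omap]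

theorem size {f : ∀ a, β a} (h : SD f) : PB sz (fun a => sz (f a)) := Rz.size h
theorem height {f : ∀ a, β a} (h : SD f) : PE mu (fun a => ht (f a)) := Rz.height h
theorem meas {f : ∀ a, β a} (h : SD f) : PE mu (fun a => mu (f a)) := Rz.mu h
theorem natB {n : α → ℕ} (h : SD n) : PB sz n := h.size.mono fun a => by simp; omega
theorem natE {n : α → ℕ} (h : SD n) : PE mu fun a => (n a : ℕ∞) := PE.ofPB h.natB sz_le_mu

theorem congr {f g : ∀ a, β a} (hf : SD f) (h : ∀ a, g a = f a) : SD g := by rwa [funext h]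

@[fun_prop] theorem id : SD (fun a : α => a) := Rz.refl

theorem comp' {f : ∀ a, β a} {g : ε → α} (hf : SD f) (hg : SD g) : SD fun c => f (g c) :=
  Rz.comp hg (Rz.reindex hf g)

theorem ssnd' {f : ε → (a : α) × β a} (hf : SD f) : SD fun c => (f c).2 := Rz.comp hf Rz.cdr

@[fun_prop] theorem comp {f : ∀ a, β a} {g : ε → α} {i : ∀ c, Enc (β (g c))}
    [h : Same i fun c => iβ (g c)] (hf : SD f) (hg : SD g) : @SD _ _ _ i (fun c => f (g c)) := by
  rw [h.eq]; exact Rz.comp hg (Rz.reindex hf g)

@[fun_prop] theorem sfst {f : ε → (a : α) × β a} (hf : SD f) : SD fun c => (f c).1 :=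
  Rz.comp hf Rz.car

@[fun_prop] theorem ssnd {f : ε → (a : α) × β a} {i : ∀ c, Enc (β (f c).1)}
    [h : Same i fun c => iβ (f c).1] (hf : SD f) : @SD _ _ _ i fun c => (f c).2 := by
  rw [h.eq]; exact Rz.comp hf Rz.cdr

@[fun_prop] theorem smk {f : ε → α} {g : ∀ c, β (f c)} (hf : SD f)
    (hg : @SD _ _ _ (fun c => iβ (f c)) g) : SD fun c => (⟨f c, g c⟩ : (a : α) × β a) :=
  Rz.pair hf hg

@[fun_prop] theorem pair {f : ∀ a, β a} {g : ∀ a, γ a} (hf : SD f) (hg : SD g) :
    SD (fun a => (f a, g a)) := Rz.pair hf hg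

@[fun_prop] theorem fst {f : ∀ a, β a × γ a} (hf : SD f) : SD (fun a => (f a).1) :=
  Rz.comp hf Rz.car

@[fun_prop] theorem snd {f : ∀ a, β a × γ a} (hf : SD f) : SD (fun a => (f a).2) :=
  Rz.comp hf Rz.cdr

@[fun_prop] theorem val {p : ∀ a, β a → Prop} {f : ∀ a, Subtype (p a)} (hf : SD f) :
    SD (fun a => (f a).1) := hf

@[fun_prop] theorem subMk {p : ∀ a, β a → Prop} {f : ∀ a, β a} {h : ∀ a, p a (f a)} (hf : SD f) :
    SD (fun a => (⟨f a, h a⟩ : Subtype (p a))) := hf

@[fun_prop] theorem finVal {n : α → ℕ} {f : ∀ a, Fin (n a)} (hf : SD f) :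
    SD (fun a => (f a).val) := hf

@[fun_prop] theorem finMk {n f : α → ℕ} {h : ∀ a, f a < n a} (hf : SD f) :
    SD (fun a => (⟨f a, h a⟩ : Fin (n a))) := hf

@[fun_prop] theorem nil : SD (fun a : α => ([] : List (β a))) := Rz.nil
@[fun_prop] theorem none : SD (fun a : α => (none : Option (β a))) := Rz.nil
@[fun_prop] theorem unit : SD (fun _ : α => ()) := Rz.nil
@[fun_prop] theorem false : SD (fun _ : α => false) := Rz.nil
@[fun_prop] theorem true : SD (fun _ : α => true) := SP.true
@[fun_prop] theorem one : SD (fun _ : α => (1 : ℝ)) := Rz.one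
@[fun_prop] theorem zero : SD (fun _ : α => (0 : ℝ)) := SP.zero
@[fun_prop] theorem natConst (c : ℕ) : SD (fun _ : α => c) := SP.natConst c
@[fun_prop] theorem ofNat (c : ℕ) [c.AtLeastTwo] : SD (fun _ : α => (OfNat.ofNat c : ℝ)) :=
  SP.ofNat c

@[fun_prop] theorem some {f : ∀ a, β a} (hf : SD f) : SD (fun a => some (f a)) := Rz.pair hf Rz.nil

@[fun_prop] theorem cons {f : ∀ a, β a} {g : ∀ a, List (β a)} (hf : SD f) (hg : SD g) :
    SD (fun a => f a :: g a) := Rz.pair hf hg

section arith
variable {f g : α → ℝ} {m n : α → ℕ} {b c : α → Bool}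

@[fun_prop] theorem add (hf : SD f) (hg : SD g) : SD fun a => f a + g a := SP.add hf hg
@[fun_prop] theorem sub (hf : SD f) (hg : SD g) : SD fun a => f a - g a := SP.sub hf hg
@[fun_prop] theorem mul (hf : SD f) (hg : SD g) : SD fun a => f a * g a := SP.mul hf hg
@[fun_prop] theorem div (hf : SD f) (hg : SD g) : SD fun a => f a / g a := SP.div hf hg
@[fun_prop] theorem neg (hf : SD f) : SD fun a => -f a := SP.neg hf
@[fun_prop] theorem inv (hf : SD f) : SD fun a => (f a)⁻¹ := SP.inv hf
@[fun_prop] theorem abs (hf : SD f) : SD fun a => |f a| := SP.abs hf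
@[fun_prop] theorem max (hf : SD f) (hg : SD g) : SD fun a => max (f a) (g a) := SP.max hf hg
@[fun_prop] theorem min (hf : SD f) (hg : SD g) : SD fun a => min (f a) (g a) := SP.min hf hg
@[fun_prop] theorem pow (hf : SD f) (hn : SD n) : SD fun a => f a ^ n a := SP.pow hf hn
@[fun_prop] theorem natCast (hn : SD n) : SD fun a => (n a : ℝ) := SP.natCast hn
@[fun_prop] theorem natAdd (hm : SD m) (hn : SD n) : SD fun a => m a + n a := SP.natAdd hm hn
@[fun_prop] theorem natMul (hm : SD m) (hn : SD n) : SD fun a => m a * n a := SP.natMul hm hn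
@[fun_prop] theorem natSub (hm : SD m) (hn : SD n) : SD fun a => m a - n a := SP.natSub hm hn
@[fun_prop] theorem natPow (hm : SD m) (k : ℕ) : SD fun a => m a ^ k := SP.natPow hm k
@[fun_prop] theorem cardFin (hn : SD n) : SD fun a => Fintype.card (Fin (n a)) :=
  hn.congr fun _ => Fintype.card_fin _
@[fun_prop] theorem range (hn : SD n) : SD fun a => List.range (n a) := SP.range hn
@[fun_prop] theorem lt (hf : SD f) (hg : SD g) : SD fun a => ltb (f a) (g a) := SP.lt hf hg
@[fun_prop] theorem not (hb : SD b) : SD fun a => !(b a) := SP.not hb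
@[fun_prop] theorem and (hb : SD b) (hc : SD c) : SD fun a => b a && c a := SP.and hb hc
@[fun_prop] theorem or (hb : SD b) (hc : SD c) : SD fun a => b a || c a := SP.or hb hc
@[fun_prop] theorem sum {l : α → List ℝ} (hl : SD l) : SD fun a => (l a).sum := SP.sum hl
@[fun_prop] theorem prod {l : α → List ℝ} (hl : SD l) : SD fun a => (l a).prod := SP.prod hl
@[fun_prop] theorem dot {l r : α → List ℝ} (hl : SD l) (hr : SD r) :
    SD fun a => dot (l a) (r a) := sp_dot hl hr

end arith

@[fun_prop] theorem cond {c : α → Bool} {f g : ∀ a, β a} (hc : SD c) (hf : SD f) (hg : SD g) :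
    SD (fun a => bif c a then f a else g a) :=
  ofV (SP.cond hc hf.toV hg.toV) fun a => by cases c a <;> rfl

section list
variable {f g : ∀ a, List (β a)} {n : α → ℕ} {o : ∀ a, Option (β a)} {d : ∀ a, β a}

@[fun_prop] theorem append (hf : SD f) (hg : SD g) : SD fun a => f a ++ g a :=
  ofL (hf.toL.append hg.toL) fun _ => by simp
@[fun_prop] theorem reverse (hf : SD f) : SD fun a => (f a).reverse :=
  ofL hf.toL.reverse fun _ => by simp
@[fun_prop] theorem tail (hf : SD f) : SD fun a => (f a).tail := ofL hf.toL.tail fun _ => by simp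
@[fun_prop] theorem drop (hn : SD n) (hf : SD f) : SD fun a => (f a).drop (n a) :=
  ofL (SP.drop hn hf.toL) fun _ => by simp
@[fun_prop] theorem take (hn : SD n) (hf : SD f) : SD fun a => (f a).take (n a) :=
  ofL (SP.take hn hf.toL) fun _ => by simp
@[fun_prop] theorem replicate (hn : SD n) (hd : SD d) : SD fun a => List.replicate (n a) (d a) :=
  ofL (SP.replicate hn hd.toV) fun _ => by simp
@[fun_prop] theorem length (hf : SD f) : SD fun a => (f a).length :=
  hf.toL.length.sd.congr fun _ => by simp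
@[fun_prop] theorem isEmpty (hf : SD f) : SD fun a => (f a).isEmpty :=
  hf.toL.isEmpty.sd.congr fun _ => by simp
@[fun_prop] theorem head? (hf : SD f) : SD fun a => (f a).head? :=
  ofO hf.toL.head? fun _ => by simp
@[fun_prop] theorem getElem? (hf : SD f) (hn : SD n) : SD fun a => (f a)[n a]? :=
  ofO (hf.toL.getElem? hn) fun _ => by simp
@[fun_prop] theorem getD (ho : SD o) (hd : SD d) : SD fun a => (o a).getD (d a) :=
  ofV (ho.toO.getD hd.toV) fun a => by cases o a <;> rfl
@[fun_prop] theorem isSome (ho : SD o) : SD fun a => (o a).isSome :=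
  ho.toO.isSome.sd.congr fun _ => by simp
@[fun_prop] theorem toList (ho : SD o) : SD fun a => (o a).toList :=
  ofL ho.toO.toList fun a => by cases o a <;> rfl
@[fun_prop] theorem listGetD (hf : SD f) (hn : SD n) (hd : SD d) :
    SD fun a => (f a).getD (n a) (d a) := ((hf.getElem? hn).getD hd).congr fun _ => by simp
@[fun_prop] theorem headD (hf : SD f) (hd : SD d) : SD fun a => (f a).headD (d a) :=
  (hf.head?.getD hd).congr fun _ => by simp

@[fun_prop] theorem zip {g : ∀ a, List (γ a)} (hf : SD f) (hg : SD g) :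
    SD fun a => (f a).zip (g a) :=
  Rz.congr (hf.toL.zip hg.toL) (fun _ => rfl) fun a => by
    rw [← enc_map, ← enc_map (List.zip _ _), List.zip_map, List.map_map]; rfl

end list

@[fun_prop] theorem elim {f : ∀ a, Option (β a)} {g : ∀ a, γ a} {h : ∀ a, β a → γ a} (hf : SD f)
    (hg : SD g) (hh : SD fun p : (a : α) × β a => h p.1 p.2) :
    SD (fun a => (f a).elim (g a) (h a)) := by
  refine Rz.ite hf ?_ ((Rz.reindex hg Subtype.val).congr (fun _ => rfl) fun i => ?_)
  · have k : ∀ i : {i // (enc (f i)).isCons = Bool.true}, ∃ p : β i.1, f i = .some p := by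
      rintro ⟨i, hi⟩
      cases e : f i with
      | none => rw [e] at hi; cases hi
      | some x => exact ⟨x, rfl⟩
    choose p hp using k
    have h1 : Rz (fun i : {i // (enc (f i)).isCons = Bool.true} => enc i.1)
        fun i => .cons (enc (p i)) .nil := (Rz.reindex hf Subtype.val).congr (fun _ => rfl)
          fun i => by rw [hp i]; rfl
    refine Rz.comp (Rz.pair Rz.refl (h1.comp Rz.car))
      ((Rz.reindex hh fun i => ⟨i.1, p i⟩).congr (fun _ => rfl) fun i => ?_)
    simp only [hp i, Option.elim_some]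
  · obtain ⟨i, hi⟩ := i
    cases e : f i with
    | none => simp [e]
    | some x => rw [e] at hi; cases hi

@[fun_prop] theorem omap {f : ∀ a, Option (β a)} {h : ∀ a, β a → γ a} (hf : SD f)
    (hh : SD fun p : (a : α) × β a => h p.1 p.2) : SD (fun a => (f a).map (h a)) :=
  (elim (h := fun a x => .some (h a x)) hf none hh.some).congr fun a => by cases f a <;> rfl

@[fun_prop] theorem obind {f : ∀ a, Option (β a)} {h : ∀ a, β a → Option (γ a)} (hf : SD f)
    (hh : SD fun p : (a : α) × β a => h p.1 p.2) : SD (fun a => (f a).bind (h a)) :=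
  (elim hf none hh).congr fun a => by cases f a <;> rfl

theorem foldl {l : ∀ a, List (γ a)} {s : ∀ a, β a} {f : ∀ a, β a → γ a → β a} (hl : SD l)
    (hs : SD s) (hf : SD fun p : (a : α) × (β a × γ a) => f p.1 p.2.1 p.2.2)
    {Z : α → ℕ} {H : α → ℕ∞} (hZ : PB sz Z) (hH : PE mu H)
    (h : ∀ a k, sz (((l a).take k).foldl (f a) (s a)) ≤ Z a ∧
      ht (((l a).take k).foldl (f a) (s a)) ≤ H a) :
    SD fun a => (l a).foldl (f a) (s a) := by
  have key := Rz.loop (fun a m => enc ((l a).drop m))
    (fun a m => enc (a, ((l a).take m).foldl (f a) (s a))) (fun a => (l a).length)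
    (fun a m hm => by rw [List.drop_eq_getElem_cons hm]; rfl) (fun a => by simp; rfl) ?_ ?_ ?_ ?_
  · refine Rz.comp (Rz.comp (Rz.comp (Rz.pair hl (Rz.pair Rz.refl hs))
      (key.congr (fun _ => rfl) fun _ => rfl)) Rz.cdr) ((Rz.cdr (u := fun a => enc a)).congr (fun a => ?_)
        fun _ => rfl)
    simp only [List.take_length]; rfl
  · let J := {p : α × ℕ // p.2 < (l p.1).length}
    let X : J → Val := fun p => enc ((l p.1.1)[p.1.2]'p.2)
    let R : J → Val := fun p => enc ((l p.1.1).drop (p.1.2 + 1))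
    let A : J → Val := fun p => enc p.1.1
    let B : J → Val := fun p => enc (((l p.1.1).take p.1.2).foldl (f p.1.1) (s p.1.1))
    let u : J → Val := fun p => .cons (.cons (X p) (R p)) (.cons (A p) (B p))
    have hX : Rz u X := Rz.car.comp Rz.car
    have hR : Rz u R := Rz.car.comp Rz.cdr
    have hA : Rz u A := Rz.cdr.comp Rz.car
    have hB : Rz u B := Rz.cdr.comp Rz.cdr
    refine (hR.pair (hA.pair ((hA.pair (hB.pair hX)).comp (Rz.reindex hf fun p : J =>
      ⟨p.1.1, ((l p.1.1).take p.1.2).foldl (f p.1.1) (s p.1.1), (l p.1.1)[p.1.2]'p.2⟩)))).congr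
        (fun p => ?_) fun p => ?_
    · rw [List.drop_eq_getElem_cons p.2]; rfl
    · rw [List.take_succ_eq_append_getElem p.2, List.foldl_append]; rfl
  · exact PB.self.mono fun a => by
      change _ ≤ sz ((l a).drop 0, a, ((l a).take 0).foldl (f a) (s a))
      have := length_le_sz (l a)
      simp; omega
  · have h1 : PB (fun p : {p : α × ℕ // p.2 ≤ (l p.1).length} =>
        sz ((l p.1.1).drop 0, p.1.1, ((l p.1.1).take 0).foldl (f p.1.1) (s p.1.1)))
        fun p => sz p.1.1 := PB.self.mono fun p => by simp; omega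
    refine ((PB.self.add ((hZ.reindex fun p => p.1.1).trans h1))).mono fun p => ?_
    change sz ((l p.1.1).drop p.1.2, p.1.1, ((l p.1.1).take p.1.2).foldl (f p.1.1) (s p.1.1)) ≤
      sz ((l p.1.1).drop 0, p.1.1, ((l p.1.1).take 0).foldl (f p.1.1) (s p.1.1)) + _
    have := sz_sublist (List.drop_sublist p.1.2 (l p.1.1))
    have := (h p.1.1 p.1.2).1
    simp; omega
  · have h1 : PE (fun p : {p : α × ℕ // p.2 ≤ (l p.1).length} =>
        mu ((l p.1.1).drop 0, p.1.1, ((l p.1.1).take 0).foldl (f p.1.1) (s p.1.1)))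
        fun p => mu p.1.1 := PE.self.mono fun p =>
          (mu_fst (p.1.1, ((l p.1.1).take 0).foldl (f p.1.1) (s p.1.1))).trans
            (mu_snd ((l p.1.1).drop 0, p.1.1, ((l p.1.1).take 0).foldl (f p.1.1) (s p.1.1)))
    have h2 := (((PE.ofPB hZ sz_le_mu).add hH).reindex
      fun p : {p : α × ℕ // p.2 ≤ (l p.1).length} => p.1.1).trans h1
    refine ((((PE.self.add h1).add h2).add PE.one).add PE.one).mono fun p => ?_
    change mu ((l p.1.1).drop p.1.2, p.1.1, ((l p.1.1).take p.1.2).foldl (f p.1.1) (s p.1.1)) ≤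
      mu ((l p.1.1).drop 0, p.1.1, ((l p.1.1).take 0).foldl (f p.1.1) (s p.1.1)) + _ + _ + 1 + 1
    have a1 : mu ((l p.1.1).drop p.1.2) ≤
        mu ((l p.1.1).drop 0, p.1.1, ((l p.1.1).take 0).foldl (f p.1.1) (s p.1.1)) :=
      (mu_le_of (sz_sublist (List.drop_sublist _ _)) (ht_sublist (List.drop_sublist _ _))).trans
        (mu_fst (l p.1.1, p.1.1, ((l p.1.1).take 0).foldl (f p.1.1) (s p.1.1)))
    have a2 : mu (((l p.1.1).take p.1.2).foldl (f p.1.1) (s p.1.1)) ≤ Z p.1.1 + H p.1.1 :=
      add_le_add (Nat.cast_le.2 (h _ _).1) (h _ _).2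
    refine (mu_pair_le _ _).trans (add_le_add ?_ le_rfl)
    refine (add_le_add a1 ((mu_pair_le _ _).trans (add_le_add (add_le_add le_rfl a2) le_rfl))).trans
      (le_of_eq ?_)
    ring

/-- `foldl` whose accumulator grows by a piece computed from the current item -/
theorem foldl_growth {l : ∀ a, List (γ a)} {s : ∀ a, β a} {f : ∀ a, β a → γ a → β a} (hl : SD l)
    (hs : SD s) (hf : SD fun p : (a : α) × (β a × γ a) => f p.1 p.2.1 p.2.2)
    {g : ∀ a, γ a → δ a} (hg : SD fun p : (a : α) × γ a => g p.1 p.2)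
    (h : ∀ a b x, sz (f a b x) ≤ sz b + sz (g a x) + 1 ∧
      ht (f a b x) ≤ Max.max (ht b) (ht (g a x))) :
    SD fun a => (l a).foldl (f a) (s a) := by
  obtain ⟨q, hq⟩ := hg.size
  obtain ⟨r, hr⟩ := hg.height
  refine foldl hl hs hf (hs.size.add (hl.size.mul ((PB.eval q ((PB.self.add hl.size).add
    (PB.const 1))).add (PB.const 1)))) (hs.height.add (PE.eval r ((PE.self.add hl.meas).add PE.one)))
    fun a k => ?_
  have key := foldl_bound (f := f a) (B := q.eval (sz a + sz (l a) + 1) + 1)
    (H := pe r (mu a + mu (l a) + 1)) ((l a).take k) (s a) fun b x hx => by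
      have hx' := List.mem_of_mem_take hx
      refine ⟨(h _ _ _).1.trans ?_, (h _ _ _).2.trans (max_le_max le_rfl ((hr ⟨a, x⟩).trans
        (pe_mono r ((mu_sigma_le _ _).trans ?_))))⟩
      · have := (hq ⟨a, x⟩).trans (eval_mono q (b := sz a + sz (l a) + 1) (by
          have := sz_le_of_mem hx'
          simp; omega))
        simp only at this
        omega
      · have := mu_le_of_mem hx'
        gcongr
  have : ((l a).take k).length ≤ sz (l a) := (List.length_take_le' _ _).trans (length_le_sz _)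
  exact ⟨key.1.trans (by gcongr), key.2.trans (max_le le_self_add le_add_self)⟩

@[fun_prop] theorem flatMap {l : ∀ a, List (β a)} {f : ∀ a, β a → List (γ a)} (hl : SD l)
    (hf : SD fun p : (a : α) × β a => f p.1 p.2) : SD (fun a => (l a).flatMap (f a)) := by
  have hf' : SD fun p : (a : α) × (List (γ a) × β a) => f p.1 p.2.2 :=
    hf.comp' (g := fun p : (a : α) × (List (γ a) × β a) => ⟨p.1, p.2.2⟩) (by fun_prop)
  refine (foldl_growth (f := fun a b x => b ++ f a x) hl nil (append (by fun_prop) hf') (g := f) hf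
    fun a b x => ⟨by have := sz_append b (f a x); omega, by simp⟩).congr fun a => ?_
  have : ∀ r : List (γ a), (l a).foldl (fun b x => b ++ f a x) r = r ++ (l a).flatMap (f a) := by
    induction l a with
    | nil => simp
    | cons x l ih => simp [ih]
  simp [this]

@[fun_prop] theorem map {l : ∀ a, List (β a)} {f : ∀ a, β a → γ a} (hl : SD l)
    (hf : SD fun p : (a : α) × β a => f p.1 p.2) : SD (fun a => (l a).map (f a)) :=
  (flatMap (f := fun a x => [f a x]) hl (hf.cons nil)).congr fun a => by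
    induction l a with
    | nil => rfl
    | cons x l ih => simp [ih]

@[fun_prop] theorem filterMap {l : ∀ a, List (β a)} {f : ∀ a, β a → Option (γ a)} (hl : SD l)
    (hf : SD fun p : (a : α) × β a => f p.1 p.2) : SD (fun a => (l a).filterMap (f a)) :=
  (flatMap (f := fun a x => (f a x).toList) hl hf.toList).congr fun a => by
    induction l a with
    | nil => rfl
    | cons x l ih => cases h : f a x <;> simp [ih, h]

section pred
variable {l : ∀ a, List (β a)} {f : ∀ a, β a → Bool}

@[fun_prop] theorem filter (hl : SD l) (hf : SD fun p : (a : α) × β a => f p.1 p.2) :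
    SD (fun a => (l a).filter (f a)) :=
  (flatMap (f := fun a x => bif f a x then [x] else []) hl
    (cond hf (by fun_prop) nil)).congr fun a => by
    induction l a with
    | nil => rfl
    | cons x l ih => cases h : f a x <;> simp [ih, h]

@[fun_prop] theorem find? (hl : SD l) (hf : SD fun p : (a : α) × β a => f p.1 p.2) :
    SD (fun a => (l a).find? (f a)) := (filter hl hf).head?.congr fun _ => by simp

@[fun_prop] theorem any (hl : SD l) (hf : SD fun p : (a : α) × β a => f p.1 p.2) :
    SD (fun a => (l a).any (f a)) := (find? hl hf).isSome.congr fun _ => by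
  rw [Bool.eq_iff_iff]; simp

@[fun_prop] theorem all (hl : SD l) (hf : SD fun p : (a : α) × β a => f p.1 p.2) :
    SD (fun a => (l a).all (f a)) :=
  (any (f := fun a x => !f a x) hl hf.not).not.congr fun _ => by simp [List.all_eq_not_any_not]

end pred

end SD

end Pool.Agent.Lib.RealRAM.SP
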