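import Pool.Agent.Lib.RealRAM.SPRz

/-! Typed strongly polynomial computability `SP`, with `fun_prop` support. -/

namespace Pool.Agent.Lib.RealRAM.SP

/-- types with a tree code -/
class Enc (α : Type) where
  enc : α → Val

open Enc

instance : Enc ℝ := ⟨Val.atom⟩
instance : Enc Bool := ⟨vb⟩
instance : Enc Unit := ⟨fun _ => .nil⟩
instance {α β : Type} [Enc α] [Enc β] : Enc (α × β) := ⟨fun p => .cons (enc p.1) (enc p.2)⟩

def encL {α : Type} [Enc α] : List α → Val
  | [] => .nil
  | a :: l => .cons (enc a) (encL l)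

instance {α : Type} [Enc α] : Enc (List α) := ⟨encL⟩

def encO {α : Type} [Enc α] : Option α → Val
  | none => .nil
  | some a => .cons (enc a) .nil

instance {α : Type} [Enc α] : Enc (Option α) := ⟨encO⟩

variable {α β γ δ : Type} [Enc α] [Enc β] [Enc γ] [Enc δ]

def sz (a : α) : ℕ := (enc a).sz
noncomputable def ht (a : α) : ℕ∞ := (enc a).ht
noncomputable def mu (a : α) : ℕ∞ := (enc a).mu

theorem mu_def (a : α) : mu a = sz a + ht a := rfl
theorem sz_le_mu (a : α) : (sz a : ℕ∞) ≤ mu a := le_self_add
theorem ht_le_mu (a : α) : ht a ≤ mu a := le_add_self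

@[simp] theorem sz_pair (a : α) (b : β) : sz (a, b) = sz a + sz b + 1 := rfl
theorem sz_pair' (p : α × β) : sz p = sz p.1 + sz p.2 + 1 := rfl
@[simp] theorem sz_nil : sz ([] : List α) = 1 := rfl
@[simp] theorem sz_cons (a : α) (l : List α) : sz (a :: l) = sz a + sz l + 1 := rfl
@[simp] theorem sz_none : sz (none : Option α) = 1 := rfl
@[simp] theorem sz_some (a : α) : sz (some a) = sz a + 1 + 1 := rfl
@[simp] theorem sz_real (x : ℝ) : sz x = 1 := rfl
theorem sz_bool (b : Bool) : sz b ≤ 3 := by cases b <;> simp [sz, enc, vb, Val.sz]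
@[simp] theorem ht_pair (a : α) (b : β) : ht (a, b) = max (ht a) (ht b) := rfl
theorem ht_pair' (p : α × β) : ht p = max (ht p.1) (ht p.2) := rfl
@[simp] theorem ht_nil : ht ([] : List α) = 0 := rfl
@[simp] theorem ht_cons (a : α) (l : List α) : ht (a :: l) = max (ht a) (ht l) := rfl
@[simp] theorem ht_none : ht (none : Option α) = 0 := rfl
@[simp] theorem ht_some (a : α) : ht (some a) = ht a := by
  change max (ht a) 0 = _; simp
@[simp] theorem ht_real (x : ℝ) : ht x = htR x := rfl
@[simp] theorem ht_bool (b : Bool) : ht b = 0 := by cases b <;> simp [ht, enc, vb, Val.ht]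

theorem sz_pos (a : α) : 0 < sz a := by
  unfold sz; cases enc a <;> simp [Val.sz]

theorem sz_append (l l' : List α) : sz (l ++ l') + 1 = sz l + sz l' := by
  induction l with
  | nil => simp; omega
  | cons a l ih => simp; omega

@[simp] theorem ht_append (l l' : List α) : ht (l ++ l') = max (ht l) (ht l') := by
  induction l with
  | nil => simp
  | cons a l ih => simp [ih, max_assoc]

theorem length_le_sz (l : List α) : l.length ≤ sz l := by
  induction l with
  | nil => simp
  | cons a l ih => simp; omega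

theorem sz_le_of_mem {l : List α} {a : α} (h : a ∈ l) : sz a ≤ sz l := by
  induction l with
  | nil => simp at h
  | cons b l ih =>
    rcases List.mem_cons.1 h with rfl | h
    · simp; omega
    · have := ih h; simp; omega

theorem ht_list_le {l : List α} {B : ℕ∞} : ht l ≤ B ↔ ∀ a ∈ l, ht a ≤ B := by
  induction l with
  | nil => simp
  | cons b l ih => simp [ih]

theorem ht_le_of_mem {l : List α} {a : α} (h : a ∈ l) : ht a ≤ ht l := ht_list_le.1 le_rfl a h

theorem sz_list_le {l : List α} {B : ℕ} (h : ∀ a ∈ l, sz a ≤ B) :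
    sz l ≤ l.length * (B + 1) + 1 := by
  induction l with
  | nil => simp
  | cons b l ih =>
    have := ih fun a ha => h a (by simp [ha])
    have := h b (by simp)
    simp only [sz_cons, List.length_cons]; nlinarith

theorem sz_sublist {l l' : List α} (h : l.Sublist l') : sz l ≤ sz l' := by
  induction h with
  | slnil => simp
  | cons a _ ih => simp; omega
  | cons_cons a _ ih => simp; omega

theorem ht_sublist {l l' : List α} (h : l.Sublist l') : ht l ≤ ht l' :=
  ht_list_le.2 fun _ ha => ht_le_of_mem (h.subset ha)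

theorem mu_le_of {a : α} {b : β} (h1 : sz a ≤ sz b) (h2 : ht a ≤ ht b) : mu a ≤ mu b := by
  rw [mu_def, mu_def]; gcongr

theorem mu_fst (p : α × β) : mu p.1 ≤ mu p :=
  mu_le_of (by rw [sz_pair' p]; omega) (le_max_left _ _)

theorem mu_snd (p : α × β) : mu p.2 ≤ mu p :=
  mu_le_of (by rw [sz_pair' p]; omega) (le_max_right _ _)

theorem mu_pair_le (a : α) (b : β) : mu (a, b) ≤ mu a + mu b + 1 := by
  simp only [mu_def, sz_pair, ht_pair]
  have : max (ht a) (ht b) ≤ ht a + ht b := max_le le_self_add le_add_self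
  push_cast
  calc _ ≤ (sz a : ℕ∞) + sz b + 1 + (ht a + ht b) := by gcongr
    _ = _ := by ring

theorem mu_le_of_mem {l : List α} {a : α} (h : a ∈ l) : mu a ≤ mu l :=
  mu_le_of (sz_le_of_mem h) (ht_le_of_mem h)

/-- `f` is computed in strongly polynomial time. -/
@[fun_prop]
def SP (f : α → β) : Prop := Rz (fun a => enc a) (fun a => enc (f a))

namespace SP

theorem size {f : α → β} (h : SP f) : PB sz (fun a => sz (f a)) := Rz.size h
theorem height {f : α → β} (h : SP f) : PE mu (fun a => ht (f a)) := Rz.height h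
theorem meas {f : α → β} (h : SP f) : PE mu (fun a => mu (f a)) := Rz.mu h

@[fun_prop] theorem id : SP (fun a : α => a) := Rz.refl

@[fun_prop] theorem comp {f : β → γ} {g : α → β} (hf : SP f) (hg : SP g) :
    SP (fun a => f (g a)) := Rz.comp hg (Rz.reindex hf g)

theorem congr {f g : α → β} (hf : SP f) (h : ∀ a, g a = f a) : SP g := by
  rwa [funext h]

@[fun_prop] theorem pair {f : α → β} {g : α → γ} (hf : SP f) (hg : SP g) :
    SP (fun a => (f a, g a)) := Rz.pair hf hg

@[fun_prop] theorem fst {f : α → β × γ} (hf : SP f) : SP (fun a => (f a).1) :=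
  Rz.comp hf Rz.car

@[fun_prop] theorem snd {f : α → β × γ} (hf : SP f) : SP (fun a => (f a).2) :=
  Rz.comp hf Rz.cdr

@[fun_prop] theorem nil : SP (fun _ : α => ([] : List β)) := Rz.nil
@[fun_prop] theorem none : SP (fun _ : α => (none : Option β)) := Rz.nil
@[fun_prop] theorem unit : SP (fun _ : α => ()) := Rz.nil
@[fun_prop] theorem false : SP (fun _ : α => false) := Rz.nil
@[fun_prop] theorem true : SP (fun _ : α => true) := Rz.pair Rz.nil Rz.nil
@[fun_prop] theorem one : SP (fun _ : α => (1 : ℝ)) := Rz.one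

@[fun_prop] theorem some {f : α → β} (hf : SP f) : SP (fun a => some (f a)) := Rz.pair hf Rz.nil

@[fun_prop] theorem cons {f : α → β} {g : α → List β} (hf : SP f) (hg : SP g) :
    SP (fun a => f a :: g a) := Rz.pair hf hg

@[fun_prop] theorem add {f g : α → ℝ} (hf : SP f) (hg : SP g) : SP (fun a => f a + g a) :=
  Rz.comp (Rz.pair hf hg) Rz.add

@[fun_prop] theorem sub {f g : α → ℝ} (hf : SP f) (hg : SP g) : SP (fun a => f a - g a) :=
  Rz.comp (Rz.pair hf hg) Rz.sub

@[fun_prop] theorem mul {f g : α → ℝ} (hf : SP f) (hg : SP g) : SP (fun a => f a * g a) :=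
  Rz.comp (Rz.pair hf hg) Rz.mul

@[fun_prop] theorem zero : SP (fun _ : α => (0 : ℝ)) :=
  (sub one one).congr fun _ => by simp

@[fun_prop] theorem neg {f : α → ℝ} (hf : SP f) : SP (fun a => -f a) :=
  (sub zero hf).congr fun _ => by simp

/-- the comparison `x < y` as a Boolean -/
noncomputable def _root_.Pool.Agent.Lib.RealRAM.SP.ltb (x y : ℝ) : Bool := decide (x < y)

@[simp] theorem _root_.Pool.Agent.Lib.RealRAM.SP.ltb_iff {x y : ℝ} : ltb x y = Bool.true ↔ x < y := by
  simp [ltb]

@[simp] theorem _root_.Pool.Agent.Lib.RealRAM.SP.ltb_false {x y : ℝ} :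
    ltb x y = Bool.false ↔ y ≤ x := by
  simp [ltb]

@[fun_prop] theorem lt {f g : α → ℝ} (hf : SP f) (hg : SP g) : SP (fun a => ltb (f a) (g a)) :=
  Rz.comp (Rz.pair hf hg) Rz.lt

theorem isCons_vb (b : Bool) : (vb b).isCons = b := by cases b <;> rfl

@[fun_prop] theorem cond {c : α → Bool} {f g : α → β} (hc : SP c) (hf : SP f) (hg : SP g) :
    SP (fun a => bif c a then f a else g a) := by
  refine Rz.ite hc ((Rz.reindex hf Subtype.val).congr (fun _ => rfl) fun i => ?_)
    ((Rz.reindex hg Subtype.val).congr (fun _ => rfl) fun i => ?_)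
  · have := i.2
    simp only [enc, isCons_vb] at this
    simp [this]
  · have := i.2
    simp only [enc, isCons_vb] at this
    simp [this]

@[fun_prop] theorem not {f : α → Bool} (hf : SP f) : SP (fun a => !(f a)) :=
  (cond hf false true).congr fun a => by cases f a <;> rfl

@[fun_prop] theorem and {f g : α → Bool} (hf : SP f) (hg : SP g) : SP (fun a => f a && g a) :=
  (cond hf hg false).congr fun a => by cases f a <;> rfl

@[fun_prop] theorem or {f g : α → Bool} (hf : SP f) (hg : SP g) : SP (fun a => f a || g a) :=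
  (cond hf true hg).congr fun a => by cases f a <;> rfl

@[fun_prop] theorem div {f g : α → ℝ} (hf : SP f) (hg : SP g) : SP (fun a => f a / g a) := by
  have hc : SP (fun a => ltb (g a) 0 || ltb 0 (g a)) := by fun_prop
  refine Rz.ite hc (Rz.comp (Rz.reindex (Rz.pair hf hg) Subtype.val) (Rz.div fun i => ?_))
    ((Rz.reindex (zero (α := α)) Subtype.val).congr (fun _ => rfl) fun i => ?_)
  · have := i.2
    simp only [enc, isCons_vb, Bool.or_eq_true, ltb_iff] at this
    rcases this with h | h
    · exact h.ne
    · exact h.ne'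
  · have := i.2
    simp only [enc, isCons_vb, Bool.or_eq_false_iff, ltb_false] at this
    simp [le_antisymm this.2 this.1]

theorem listCases {f : α → List β} {g : α → γ} {h : α × β × List β → γ} (hf : SP f) (hg : SP g)
    (hh : SP h) : SP (fun a => match f a with
      | [] => g a
      | x :: r => h (a, x, r)) := by
  refine Rz.ite hf ?_ ((Rz.reindex hg Subtype.val).congr (fun _ => rfl) fun i => ?_)
  · have k : ∀ i : {i // (enc (f i)).isCons = Bool.true}, ∃ p : β × List β, f i = p.1 :: p.2 := by
      rintro ⟨i, hi⟩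
      cases e : f i with
      | nil => rw [e] at hi; cases hi
      | cons x r => exact ⟨(x, r), rfl⟩
    choose p hp using k
    refine Rz.comp (v := fun i => enc (i.1, p i)) ((Rz.reindex (Rz.pair Rz.refl hf)
      Subtype.val).congr (fun _ => rfl) fun i => ?_)
      ((Rz.reindex hh fun i => (i.1, p i)).congr (fun _ => rfl) fun i => ?_)
    · rw [hp i]; rfl
    · simp only [hp i]
  · obtain ⟨i, hi⟩ := i
    cases e : f i with
    | nil => simp [e]
    | cons x r => rw [e] at hi; cases hi

theorem optionCases {f : α → Option β} {g : α → γ} {h : α × β → γ} (hf : SP f) (hg : SP g)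
    (hh : SP h) : SP (fun a => match f a with
      | .none => g a
      | .some x => h (a, x)) := by
  refine Rz.ite hf ?_ ((Rz.reindex hg Subtype.val).congr (fun _ => rfl) fun i => ?_)
  · have k : ∀ i : {i // (enc (f i)).isCons = Bool.true}, ∃ p : β, f i = .some p := by
      rintro ⟨i, hi⟩
      cases e : f i with
      | none => rw [e] at hi; cases hi
      | some x => exact ⟨x, rfl⟩
    choose p hp using k
    have h1 : Rz (fun i : {i // (enc (f i)).isCons = Bool.true} => enc i.1)
        fun i => .cons (enc (p i)) .nil := (Rz.reindex hf Subtype.val).congr (fun _ => rfl)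
          fun i => by rw [hp i]; rfl
    refine Rz.comp (v := fun i => enc (i.1, p i)) (Rz.pair Rz.refl (h1.comp Rz.car))
      ((Rz.reindex hh fun i => (i.1, p i)).congr (fun _ => rfl) fun i => ?_)
    simp only [hp i]
  · obtain ⟨i, hi⟩ := i
    cases e : f i with
    | none => simp [e]
    | some x => rw [e] at hi; cases hi

@[fun_prop] theorem elim {f : α → Option β} {g : α → γ} {h : α → β → γ} (hf : SP f) (hg : SP g)
    (hh : SP fun p : α × β => h p.1 p.2) : SP (fun a => (f a).elim (g a) (h a)) :=
  (optionCases hf hg hh).congr fun a => by cases f a <;> rfl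

@[fun_prop] theorem getD {f : α → Option β} {g : α → β} (hf : SP f) (hg : SP g) :
    SP (fun a => (f a).getD (g a)) :=
  (optionCases (h := fun p => p.2) hf hg (by fun_prop)).congr fun a => by cases f a <;> rfl

@[fun_prop] theorem omap {f : α → Option β} {h : α → β → γ} (hf : SP f)
    (hh : SP fun p : α × β => h p.1 p.2) : SP (fun a => (f a).map (h a)) :=
  (optionCases hf none hh.some).congr fun a => by cases f a <;> rfl

@[fun_prop] theorem obind {f : α → Option β} {h : α → β → Option γ} (hf : SP f)
    (hh : SP fun p : α × β => h p.1 p.2) : SP (fun a => (f a).bind (h a)) :=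
  (optionCases hf none hh).congr fun a => by cases f a <;> rfl

@[fun_prop] theorem isSome {f : α → Option β} (hf : SP f) : SP (fun a => (f a).isSome) :=
  (optionCases hf false true).congr fun a => by cases f a <;> rfl

@[fun_prop] theorem toList {f : α → Option β} (hf : SP f) : SP (fun a => (f a).toList) :=
  (optionCases (h := fun p => [p.2]) hf nil (by fun_prop)).congr fun a => by cases f a <;> rfl

@[fun_prop] theorem isEmpty {f : α → List β} (hf : SP f) : SP (fun a => (f a).isEmpty) :=
  (listCases hf true false).congr fun a => by cases f a <;> rfl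

@[fun_prop] theorem tail {f : α → List β} (hf : SP f) : SP (fun a => (f a).tail) :=
  (listCases (h := fun p => p.2.2) hf nil (by fun_prop)).congr fun a => by cases f a <;> rfl

@[fun_prop] theorem head? {f : α → List β} (hf : SP f) : SP (fun a => (f a).head?) :=
  (listCases (h := fun p => .some p.2.1) hf none (by fun_prop)).congr fun a => by
    cases f a <;> rfl

@[fun_prop] theorem headD {f : α → List β} {g : α → β} (hf : SP f) (hg : SP g) :
    SP (fun a => (f a).headD (g a)) :=
  (listCases (h := fun p => p.2.1) hf hg (by fun_prop)).congr fun a => by cases f a <;> rfl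

theorem foldl {l : α → List γ} {s : α → β} {f : α → β → γ → β} (hl : SP l) (hs : SP s)
    (hf : SP (fun p : α × β × γ => f p.1 p.2.1 p.2.2))
    (hb : PB (fun p : α × ℕ => sz p.1) (fun p => sz (((l p.1).take p.2).foldl (f p.1) (s p.1))))
    (hh : PE (fun p : α × ℕ => mu p.1) (fun p => ht (((l p.1).take p.2).foldl (f p.1) (s p.1)))) :
    SP (fun a => (l a).foldl (f a) (s a)) := by
  let F : List γ × α × β → List γ × α × β := fun q =>
    match q.1 with
    | [] => q
    | x :: r => (r, q.2.1, f q.2.1 q.2.2 x)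
  have hF : SP F := listCases (f := fun q : List γ × α × β => q.1) (g := fun q => q)
    (h := fun r => (r.2.2, r.1.2.1, f r.1.2.1 r.1.2.2 r.2.1)) (by fun_prop) (by fun_prop)
    (pair (by fun_prop) (pair (by fun_prop) (hf.comp
      (g := fun r : (List γ × α × β) × γ × List γ => (r.1.2.1, r.1.2.2, r.2.1)) (by fun_prop))))
  have h0 : SP (fun a => (l a, a, s a)) := by fun_prop
  have key := Rz.loop (fun a m => enc ((l a).drop m))
    (fun a m => enc (a, ((l a).take m).foldl (f a) (s a))) (fun a => (l a).length)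
    (fun a m hm => by rw [List.drop_eq_getElem_cons hm]; rfl) (fun a => by simp; rfl)
    ((Rz.reindex hF fun p => ((l p.1.1).drop p.1.2, p.1.1,
      ((l p.1.1).take p.1.2).foldl (f p.1.1) (s p.1.1))).congr (fun _ => rfl) fun p => ?_) ?_ ?_ ?_
  · have h1 : SP (fun a => (([] : List γ), a, (l a).foldl (f a) (s a))) :=
      (Rz.comp h0 (key.congr (fun _ => by simp; rfl) fun _ => rfl)).congr (fun _ => rfl)
        fun a => by simp; rfl
    exact h1.snd.snd
  · have hm := p.2
    simp only [F]
    rw [List.drop_eq_getElem_cons hm, List.take_add_one, List.foldl_append]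
    simp [hm]; rfl
  · exact PB.self.mono fun a => by
      change _ ≤ sz ((l a).drop 0, a, ((l a).take 0).foldl (f a) (s a))
      have := length_le_sz (l a)
      simp; omega
  · have h1 : PB (fun p : {p : α × ℕ // p.2 ≤ (l p.1).length} =>
        sz ((l p.1.1).drop 0, p.1.1, ((l p.1.1).take 0).foldl (f p.1.1) (s p.1.1)))
        fun p => sz p.1.1 := PB.self.mono fun p => by simp; omega
    refine ((PB.self.add ((hb.reindex Subtype.val).trans h1))).mono fun p => ?_
    change sz ((l p.1.1).drop p.1.2, p.1.1, ((l p.1.1).take p.1.2).foldl (f p.1.1) (s p.1.1)) ≤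
      sz ((l p.1.1).drop 0, p.1.1, ((l p.1.1).take 0).foldl (f p.1.1) (s p.1.1)) + _
    have := sz_sublist (List.drop_sublist p.1.2 (l p.1.1))
    simp; omega
  · have h1 : PE (fun p : {p : α × ℕ // p.2 ≤ (l p.1).length} =>
        mu ((l p.1.1).drop 0, p.1.1, ((l p.1.1).take 0).foldl (f p.1.1) (s p.1.1)))
        fun p => mu p.1.1 := PE.self.mono fun p =>
          (mu_fst (p.1.1, ((l p.1.1).take 0).foldl (f p.1.1) (s p.1.1))).trans
            (mu_snd ((l p.1.1).drop 0, p.1.1, ((l p.1.1).take 0).foldl (f p.1.1) (s p.1.1)))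
    have h2 := ((PE.ofPB (hb.reindex Subtype.val) fun p => sz_le_mu p.1.1).add
      (hh.reindex Subtype.val)).trans h1
    refine ((((PE.self.add h1).add h2).add PE.one).add PE.one).mono fun p => ?_
    change mu ((l p.1.1).drop p.1.2, p.1.1, ((l p.1.1).take p.1.2).foldl (f p.1.1) (s p.1.1)) ≤
      mu ((l p.1.1).drop 0, p.1.1, ((l p.1.1).take 0).foldl (f p.1.1) (s p.1.1)) + _ + _ + 1 + 1
    have a1 : mu ((l p.1.1).drop p.1.2) ≤
        mu ((l p.1.1).drop 0, p.1.1, ((l p.1.1).take 0).foldl (f p.1.1) (s p.1.1)) :=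
      (mu_le_of (sz_sublist (List.drop_sublist _ _)) (ht_sublist (List.drop_sublist _ _))).trans
        (mu_fst (l p.1.1, p.1.1, ((l p.1.1).take 0).foldl (f p.1.1) (s p.1.1)))
    refine (mu_pair_le _ _).trans (add_le_add ?_ le_rfl)
    refine (add_le_add a1 (mu_pair_le p.1.1
      (((l p.1.1).take p.1.2).foldl (f p.1.1) (s p.1.1)))).trans (le_of_eq ?_)
    rw [mu_def (List.foldl _ _ _)]; ring

end SP

end Pool.Agent.Lib.RealRAM.SP
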