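import Pool.Agent.Lib.RealRAM.SPHt

/-! Heap-allocated trees with real leaves, and programs computing on them. -/

namespace Pool.Agent.Lib.RealRAM.SP

/-- binary trees with real leaves -/
inductive Val where
  | nil : Val
  | atom : ℝ → Val
  | cons : Val → Val → Val

/-- number of nodes -/
def Val.sz : Val → ℕ
  | .nil => 1
  | .atom _ => 1
  | .cons u v => u.sz + v.sz + 1

/-- largest height of a leaf -/
noncomputable def Val.ht : Val → ℕ∞
  | .nil => 0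
  | .atom x => htR x
  | .cons u v => max u.ht v.ht

def Val.isCons : Val → Bool
  | .cons _ _ => true
  | _ => false

def hp (s : Mem) : ℕ := s.nats 3 0
def rR (s : Mem) : ℕ := s.nats 4 0
def rS (s : Mem) : ℕ := s.nats 5 0

/-- the tree `v` is stored at address `a` -/
def Rep (s : Mem) : Val → ℕ → Prop
  | .nil, a => a < hp s ∧ s.nats 6 a = 0
  | .atom x, a => a < hp s ∧ s.nats 6 a = 0 ∧ s.reals 2 a 0 = x
  | .cons u v, a => a < hp s ∧ s.nats 6 a = 1 ∧ Rep s u (s.nats 7 a) ∧ Rep s v (s.nats 8 a)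

def Ext (s s' : Mem) : Prop :=
  hp s ≤ hp s' ∧ ∀ a < hp s, s'.nats 6 a = s.nats 6 a ∧ s'.nats 7 a = s.nats 7 a ∧
    s'.nats 8 a = s.nats 8 a ∧ s'.reals 2 a 0 = s.reals 2 a 0

theorem Ext.refl (s : Mem) : Ext s s := ⟨le_rfl, fun _ _ => ⟨rfl, rfl, rfl, rfl⟩⟩

theorem Ext.trans {s s' s'' : Mem} (h : Ext s s') (h' : Ext s' s'') : Ext s s'' :=
  ⟨h.1.trans h'.1, fun a ha => by
    obtain ⟨a1, a2, a3, a4⟩ := h.2 a ha
    obtain ⟨b1, b2, b3, b4⟩ := h'.2 a (lt_of_lt_of_le ha h.1)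
    exact ⟨b1.trans a1, b2.trans a2, b3.trans a3, b4.trans a4⟩⟩

theorem Rep.lt {s : Mem} {v : Val} {a : ℕ} (h : Rep s v a) : a < hp s := by
  cases v <;> exact h.1

theorem Rep.ext {s s' : Mem} (e : Ext s s') : ∀ {v : Val} {a : ℕ}, Rep s v a → Rep s' v a
  | .nil, a, h => ⟨lt_of_lt_of_le h.1 e.1, (e.2 a h.1).1.trans h.2⟩
  | .atom _, a, h => ⟨lt_of_lt_of_le h.1 e.1, (e.2 a h.1).1.trans h.2.1,
      (e.2 a h.1).2.2.2.trans h.2.2⟩
  | .cons u v, a, h => by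
    obtain ⟨a1, a2, a3, -⟩ := e.2 a h.1
    exact ⟨lt_of_lt_of_le h.1 e.1, a1.trans h.2.1, a2 ▸ Rep.ext e h.2.2.1, a3 ▸ Rep.ext e h.2.2.2⟩

theorem Rep.tag {s : Mem} {v : Val} {a : ℕ} (h : Rep s v a) :
    (0 < s.nats 6 a ↔ v.isCons = true) := by
  cases v with
  | nil => simp [h.2, Val.isCons]
  | atom x => simp [h.2.1, Val.isCons]
  | cons u v => simp [h.2.1, Val.isCons]

/-- writing a register other than the heap arrays -/
theorem ext_wrN (s : Mem) (r v : ℕ) (h : r ≠ 3 ∧ r ≠ 6 ∧ r ≠ 7 ∧ r ≠ 8) : Ext s (s.wrN r 0 v) := by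
  obtain ⟨h1, h2, h3, h4⟩ := h
  refine ⟨by simp [hp, h1.symm], fun a _ => ?_⟩
  simp [h2.symm, h3.symm, h4.symm]

/-- allocate a cell with tag `tg`, first address in register 9, second in register 10;
its address goes to register `r` -/
def alloc (r : ℕ) (tg : Ix) : Cmd :=
  .andThen (.setN 7 (vr 3) (vr 9)) (.andThen (.setN 8 (vr 3) (vr 10))
    (.andThen (.setN 6 (vr 3) tg) (.andThen (asg r (vr 3)) (asg 3 (.succ (vr 3))))))

variable {ok : ℝ → Prop}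

theorem runs_alloc (r : ℕ) (hr : r = 4 ∨ r = 5 ∨ r = 11) (b : Bool) (s : Mem) :
    Runs ok (alloc r (bif b then .succ .zero else .zero)) s 5 fun s' =>
      Ext s s' ∧ hp s' = hp s + 1 ∧ s'.nats r 0 = hp s ∧ s'.nats 6 (hp s) = b.toNat ∧
      s'.nats 7 (hp s) = s.nats 9 0 ∧ s'.nats 8 (hp s) = s.nats 10 0 ∧ s'.reals = s.reals ∧
      ∀ j, j ≠ r → j ≠ 3 → j ≠ 6 → j ≠ 7 → j ≠ 8 → s'.nats j = s.nats j := by
  refine Runs.andThen (t₁ := 1) (t₂ := 4) (Runs.setN (Runs.andThen (t₁ := 1) (t₂ := 3) (Runs.setN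
    (Runs.andThen (t₁ := 1) (t₂ := 2) (Runs.setN (Runs.andThen (t₁ := 1) (t₂ := 1)
      (Runs.asg (Runs.asg ?_))))))))
  have hb : ∀ s : Mem, (bif b then Ix.succ .zero else Ix.zero).ev s = b.toNat := by
    intro s; cases b <;> rfl
  rcases hr with rfl | rfl | rfl
  all_goals
    refine ⟨⟨?_, fun a ha => ?_⟩, ?_, ?_, ?_, ?_, ?_, ?_, fun j h1 h2 h3 h4 h5 => ?_⟩
    · simp [hp]
    · have : a ≠ s.nats 3 0 := ne_of_lt ha
      simp [Function.update_of_ne this]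
    · simp [hp]
    · simp [hp]
    · simp [hp, hb]
    · simp [hp]
    · simp [hp]
    · simp
    · simp [h1, h2, h3, h4, h5]

/-- `P` turns a stored `v` into a stored `w` -/
def Comp (ok : ℝ → Prop) (P : Cmd) (v w : Val) (t : ℕ) : Prop :=
  ∀ s, Rep s v (rR s) → Runs ok P s t fun s' => Rep s' w (rR s') ∧ Ext s s' ∧ rS s' = rS s

theorem Exec.mono' {ok ok' : ℝ → Prop} (h : ∀ x, ok x → ok' x) {c : Cmd} {s s' : Mem} {t : ℕ}
    (e : Exec ok c s t s') : Exec ok' c s t s' := by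
  induction e with
  | setN a i v s => exact .setN _ _ _ _
  | setOne d s h0 => exact .setOne _ _ (h _ h0)
  | plus d x y s h0 => exact .plus _ _ _ _ (h _ h0)
  | minus d x y s h0 => exact .minus _ _ _ _ (h _ h0)
  | times d x y s h0 => exact .times _ _ _ _ (h _ h0)
  | quot d x y s h1 h0 => exact .quot _ _ _ _ h1 (h _ h0)
  | andThen _ _ _ _ _ _ _ _ _ ih1 ih2 => exact .andThen _ _ _ _ _ _ _ ih1 ih2
  | condT _ _ _ _ _ _ hb _ ih => exact .condT _ _ _ _ _ _ hb ih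
  | condF _ _ _ _ _ _ hb _ ih => exact .condF _ _ _ _ _ _ hb ih
  | loopF _ _ _ hb => exact .loopF _ _ _ hb
  | loopT _ _ _ _ _ _ _ hb _ _ ih1 ih2 => exact .loopT _ _ _ _ _ _ _ hb ih1 ih2

theorem Comp.mono {ok ok' : ℝ → Prop} {P : Cmd} {v w : Val} {t t' : ℕ} (h : Comp ok P v w t)
    (h1 : ∀ x, ok x → ok' x) (h2 : t ≤ t') : Comp ok' P v w t' := by
  intro s hs
  obtain ⟨t1, s1, a, b, c⟩ := h s hs
  exact ⟨t1, s1, a.trans h2, Exec.mono' h1 b, c⟩

theorem comp_id (v : Val) : Comp ok (asg 9 .zero) v v 1 := fun s hs =>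
  have e := ext_wrN s 9 0 (by simp)
  Runs.asg ⟨by simpa [rR] using hs.ext e, e, by simp [rS]⟩

theorem comp_nil (v : Val) : Comp ok (alloc 4 .zero) v .nil 5 := fun s _ =>
  (runs_alloc 4 (by simp) false s).mono le_rfl fun s' h => by
    obtain ⟨h1, h2, h3, h4, -, -, -, h8⟩ := h
    refine ⟨⟨?_, ?_⟩, h1, ?_⟩
    · simp [rR, h3, h2]
    · simpa [rR, h3] using h4
    · simp [rS, h8 5]

theorem comp_car (u v : Val) : Comp ok (asg 4 (.look 7 (vr 4))) (.cons u v) u 1 := fun s hs =>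
  have e := ext_wrN s 4 (s.nats 7 (s.nats 4 0)) (by simp)
  Runs.asg ⟨by simpa [rR] using hs.2.2.1.ext e, e, by simp [rS]⟩

theorem comp_cdr (u v : Val) : Comp ok (asg 4 (.look 8 (vr 4))) (.cons u v) v 1 := fun s hs =>
  have e := ext_wrN s 4 (s.nats 8 (s.nats 4 0)) (by simp)
  Runs.asg ⟨by simpa [rR] using hs.2.2.2.ext e, e, by simp [rS]⟩

theorem Comp.seq {P Q : Cmd} {u v w : Val} {t t' : ℕ} (h : Comp ok P u v t)
    (h' : Comp ok Q v w t') : Comp ok (.andThen P Q) u w (t + t') := fun s hs =>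
  Runs.andThen ((h s hs).mono le_rfl fun s1 h1 => (h' s1 h1.1).mono le_rfl fun _ h2 =>
    ⟨h2.1, h1.2.1.trans h2.2.1, h2.2.2.trans h1.2.2⟩)

/-- allocate a pair from two address expressions -/
def mk (r : ℕ) (e f : Ix) : Cmd :=
  .andThen (asg 9 e) (.andThen (asg 10 f) (alloc r (.succ .zero)))

theorem runs_mk (r : ℕ) (hr : r = 4 ∨ r = 5 ∨ r = 11) (e f : Ix) (s : Mem)
    (hf : ∀ v, f.ev (s.wrN 9 0 v) = f.ev s) :
    Runs ok (mk r e f) s 7 fun s' =>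
      Ext s s' ∧ hp s' = hp s + 1 ∧ s'.nats r 0 = hp s ∧ s'.nats 6 (hp s) = 1 ∧
      s'.nats 7 (hp s) = e.ev s ∧ s'.nats 8 (hp s) = f.ev s ∧ s'.reals = s.reals ∧
      ∀ j, j ≠ r → j ≠ 3 → j ≠ 6 → j ≠ 7 → j ≠ 8 → j ≠ 9 → j ≠ 10 → s'.nats j = s.nats j := by
  refine Runs.andThen (t₁ := 1) (t₂ := 6) (Runs.asg (Runs.andThen (t₁ := 1) (t₂ := 5)
    (Runs.asg ((runs_alloc r hr true _).mono le_rfl fun s' h => ?_))))
  obtain ⟨h1, h2, h3, h4, h5, h6, h7, h8⟩ := h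
  have e1 := ext_wrN s 9 (e.ev s) (by simp)
  have e2 := ext_wrN (s.wrN 9 0 (e.ev s)) 10 (f.ev (s.wrN 9 0 (e.ev s))) (by simp)
  simp only [hp, ne_eq, Nat.reduceEqDiff, not_false_eq_true, wrN_nats_ne, wrN_nats_same,
    Function.update_self, Bool.toNat_true, wrN_reals, hf] at h2 h3 h4 h5 h6 h7
  exact ⟨e1.trans (e2.trans h1), h2, h3, h4, h5, h6, h7, fun j a b c d e f g => by
    rw [h8 j a b c d e]; simp [f, g]⟩

def pairCmd (P Q : Cmd) : Cmd :=
  .andThen (mk 5 (vr 4) (vr 5)) (.andThen P (.andThen (asg 11 (vr 5))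
    (.andThen (mk 5 (vr 4) (.look 8 (vr 5))) (.andThen (asg 4 (.look 7 (vr 11)))
      (.andThen Q (.andThen (mk 4 (.look 7 (vr 5)) (vr 4)) (asg 5 (.look 8 (vr 5)))))))))

theorem Comp.pair {P Q : Cmd} {u v w : Val} {t t' : ℕ} (h : Comp ok P u v t)
    (h' : Comp ok Q u w t') : Comp ok (pairCmd P Q) u (.cons v w) (t + t' + 24) := by
  intro s hs
  refine (Runs.andThen (t₁ := 7) (t₂ := t + (1 + (7 + (1 + (t' + (7 + 1))))))
    ((runs_mk 5 (by simp) _ _ s (by simp)).mono le_rfl fun s1 h1 => ?_)).le (by omega)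
  obtain ⟨e1, a2, a3, -, a5, a6, -, a8⟩ := h1
  have hs1 : Rep s1 u (rR s1) := by
    have := hs.ext e1
    simpa [rR, a8 4] using this
  refine Runs.andThen ((h s1 hs1).mono le_rfl fun s2 ⟨r2, e2, b3⟩ => ?_)
  have hlt : hp s < hp s1 := by omega
  obtain ⟨-, c2, c3, -⟩ := e2.2 _ hlt
  simp only [rS, a3] at b3
  refine Runs.andThen (Runs.asg ?_)
  have e3 := ext_wrN s2 11 ((vr 5).ev s2) (by simp)
  set s3 := s2.wrN 11 0 ((vr 5).ev s2) with hs3
  refine Runs.andThen ((runs_mk 5 (by simp) _ _ s3 (by simp)).mono le_rfl fun s4 h4 => ?_)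
  obtain ⟨e4, d2, d3, -, d5, d6, -, d8⟩ := h4
  refine Runs.andThen (Runs.asg ?_)
  have e5 := ext_wrN s4 4 ((Ix.look 7 (vr 11)).ev s4) (by simp)
  set s5 := s4.wrN 4 0 ((Ix.look 7 (vr 11)).ev s4) with hs5
  have hlt3 : hp s < hp s3 := lt_of_lt_of_le hlt (e2.trans e3).1
  have hs5' : Rep s5 u (rR s5) := by
    have h7 : s4.nats 7 (hp s) = rR s := by
      rw [(e4.2 _ hlt3).2.1]
      simp [hs3, c2, a5, rR]
    have : rR s5 = rR s := by simp [rR, hs5, d8 11, hs3, b3, h7]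
    rw [this]
    exact hs.ext (e1.trans (e2.trans (e3.trans (e4.trans e5))))
  refine Runs.andThen ((h' s5 hs5').mono le_rfl fun s6 ⟨r6, e6, f3⟩ => ?_)
  have f4 : s6.nats 5 0 = hp s3 := by simpa [rS, hs5, d3] using f3
  have hlt5 : hp s3 < hp s5 := by have := e5.1; omega
  obtain ⟨-, g2, g3, -⟩ := e6.2 _ hlt5
  have g2' : s6.nats 7 (hp s3) = rR s2 := by
    rw [g2, hs5, wrN_nats_ne _ _ _ _ _ (by simp), d5]; simp [hs3, rR]
  have g3' : s6.nats 8 (hp s3) = rS s := by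
    rw [g3, hs5, wrN_nats_ne _ _ _ _ _ (by simp), d6]; simp [hs3, b3, c3, a6, rS]
  refine Runs.andThen ((runs_mk 4 (by simp) _ _ s6 (by simp)).mono le_rfl fun s7 h7 => ?_)
  obtain ⟨e7, k2, k3, k4, k5, k6, -, k8⟩ := h7
  have e8 := ext_wrN s7 5 ((Ix.look 8 (vr 5)).ev s7) (by simp)
  refine Runs.asg ⟨Rep.ext e8 ?_, e1.trans (e2.trans (e3.trans (e4.trans (e5.trans
    (e6.trans (e7.trans e8)))))), ?_⟩
  · have : rR (s7.wrN 5 0 ((Ix.look 8 (vr 5)).ev s7)) = hp s6 := by simp [rR, k3]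
    rw [this]
    refine ⟨by omega, k4, ?_, ?_⟩
    · rw [k5]
      simp only [ev_look, ev_vr, f4, g2']
      exact r2.ext (e3.trans (e4.trans (e5.trans (e6.trans e7))))
    · rw [k6]; exact r6.ext e7
  · have hlt6 : hp s3 < hp s6 := lt_of_lt_of_le hlt5 e6.1
    simp [rS, k8 5, f4, (e7.2 _ hlt6).2.2.1, g3']

/-- branch on whether the first component is a pair -/
def iteCmd (P Q : Cmd) : Cmd :=
  .cond (.ltN .zero (.look 6 (.look 7 (vr 4)))) (.andThen (asg 4 (.look 8 (vr 4))) P)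
    (.andThen (asg 4 (.look 8 (vr 4))) Q)

theorem Comp.ite {P Q : Cmd} {c u w : Val} {t : ℕ} (h : c.isCons = true → Comp ok P u w t)
    (h' : c.isCons = false → Comp ok Q u w t) : Comp ok (iteCmd P Q) (.cons c u) w (1 + t + 1) := by
  intro s hs
  have ht := hs.2.2.1.tag
  refine Runs.cond (fun hb => ?_) fun hb => ?_
  · exact ((comp_cdr c u).seq (h (ht.1 hb))) s hs
  · exact ((comp_cdr c u).seq (h' (by simpa using mt ht.2 hb))) s hs

/-- repeat while the first component is a pair -/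
def whileCmd (P : Cmd) : Cmd := .loop (.ltN .zero (.look 6 (.look 7 (vr 4)))) P

theorem Comp.whileC {P : Cmd} (c r : ℕ → Val) (N t : ℕ) (h1 : ∀ m < N, (c m).isCons = true)
    (h2 : (c N).isCons = false)
    (h : ∀ m < N, Comp ok P (.cons (c m) (r m)) (.cons (c (m + 1)) (r (m + 1))) t) :
    Comp ok (whileCmd P) (.cons (c 0) (r 0)) (.cons (c N) (r N)) (N * (t + 1) + 1) := by
  intro s hs
  refine (Runs.loop (fun v s' => ∃ m, m + v = N ∧ Rep s' (.cons (c m) (r m)) (rR s') ∧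
    Ext s s' ∧ rS s' = rS s) ?_ N s ⟨0, by simp, hs, Ext.refl s, rfl⟩).mono le_rfl ?_
  · rintro v s' ⟨m, hm, a, b, d⟩ hb
    have hc := a.2.2.1.tag.1 hb
    have hmN : m < N := by
      rcases Nat.lt_or_ge m N with h | h
      · exact h
      · have : m = N := by omega
        subst this; rw [h2] at hc; cases hc
    exact (h m hmN s' a).mono le_rfl fun s2 ⟨x, y, z⟩ =>
      ⟨v - 1, by omega, m + 1, by omega, x, b.trans y, z.trans d⟩
  · rintro s' ⟨⟨v, m, hm, a, b, d⟩, hb⟩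
    have : m = N := by
      by_contra hne
      exact hb (a.2.2.1.tag.2 (h1 m (by omega)))
    subst this
    exact ⟨a, b, d⟩

def cX : Cell := ⟨2, .look 7 (vr 4), .zero⟩
def cY : Cell := ⟨2, .look 8 (vr 4), .zero⟩
def cD : Cell := ⟨2, vr 3, .zero⟩

theorem ext_wrD (s : Mem) (x : ℝ) : Ext s (s.wrR cD x) :=
  ⟨le_rfl, fun a ha => ⟨rfl, rfl, rfl, by
    have : a ≠ s.nats 3 0 := ne_of_lt ha
    simp [cD, upd2, this]⟩⟩

theorem runs_atom {c : Cmd} {s : Mem} {x : ℝ}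
    (h : ∀ Q : Mem → Prop, Q (s.wrR cD x) → Runs ok c s 1 Q) :
    Runs ok (.andThen c (alloc 4 .zero)) s 6
      fun s' => Rep s' (.atom x) (rR s') ∧ Ext s s' ∧ rS s' = rS s := by
  refine Runs.andThen (t₁ := 1) (t₂ := 5) (h _ ((runs_alloc 4 (by simp) false _).mono le_rfl
    fun s' h => ?_))
  obtain ⟨h1, h2, h3, h4, -, -, h7, h8⟩ := h
  have e : hp (s.wrR cD x) = hp s := rfl
  rw [e] at h2 h3 h4
  refine ⟨⟨?_, ?_, ?_⟩, (ext_wrD s x).trans h1, ?_⟩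
  · simp [rR, h3, h2]
  · simpa [rR, h3] using h4
  · simp [rR, h3, h7, cD, hp]
  · simp [rS, h8 5]

theorem rd_cX {s : Mem} {x : ℝ} {v : Val} (h : Rep s (.cons (.atom x) v) (rR s)) :
    cX.rd s = x := h.2.2.1.2.2

theorem rd_cY {s : Mem} {y : ℝ} {v : Val} (h : Rep s (.cons v (.atom y)) (rR s)) :
    cY.rd s = y := h.2.2.2.2.2

theorem comp_one (v : Val) (h : ok 1) :
    Comp ok (.andThen (.setOne cD) (alloc 4 .zero)) v (.atom 1) 6 := fun _ _ =>
  runs_atom fun _ hQ => Runs.setOne h hQ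

theorem comp_add (x y : ℝ) (h : ok (x + y)) : Comp ok (.andThen (.plus cD cX cY) (alloc 4 .zero))
    (.cons (.atom x) (.atom y)) (.atom (x + y)) 6 := fun _ hs =>
  runs_atom fun _ hQ => Runs.plus (by rwa [rd_cX hs, rd_cY hs]) (by rwa [rd_cX hs, rd_cY hs])

theorem comp_sub (x y : ℝ) (h : ok (x - y)) : Comp ok (.andThen (.minus cD cX cY) (alloc 4 .zero))
    (.cons (.atom x) (.atom y)) (.atom (x - y)) 6 := fun _ hs =>
  runs_atom fun _ hQ => Runs.minus (by rwa [rd_cX hs, rd_cY hs]) (by rwa [rd_cX hs, rd_cY hs])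

theorem comp_mul (x y : ℝ) (h : ok (x * y)) : Comp ok (.andThen (.times cD cX cY) (alloc 4 .zero))
    (.cons (.atom x) (.atom y)) (.atom (x * y)) 6 := fun _ hs =>
  runs_atom fun _ hQ => Runs.times (by rwa [rd_cX hs, rd_cY hs]) (by rwa [rd_cX hs, rd_cY hs])

theorem comp_div (x y : ℝ) (hy : y ≠ 0) (h : ok (x / y)) :
    Comp ok (.andThen (.quot cD cX cY) (alloc 4 .zero))
      (.cons (.atom x) (.atom y)) (.atom (x / y)) 6 := fun _ hs =>
  runs_atom fun _ hQ => Runs.quot (by rwa [rd_cY hs]) (by rwa [rd_cX hs, rd_cY hs])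
    (by rwa [rd_cX hs, rd_cY hs])

/-- Boolean values -/
def vb : Bool → Val
  | true => .cons .nil .nil
  | false => .nil

theorem comp_lt (x y : ℝ) : Comp ok (.cond (.ltR cX cY) (pairCmd (alloc 4 .zero) (alloc 4 .zero))
    (alloc 4 .zero)) (.cons (.atom x) (.atom y)) (vb (decide (x < y))) 35 := by
  intro s hs
  refine Runs.cond (t := 34) (fun hb => ?_) fun hb => ?_
  · rw [holds_ltR, rd_cX hs, rd_cY hs] at hb
    simpa [hb, vb] using ((comp_nil _).pair (comp_nil _)) s hs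
  · rw [holds_ltR, rd_cX hs, rd_cY hs] at hb
    simpa [hb, vb] using ((comp_nil (ok := ok) _) s hs).le (by norm_num : 5 ≤ 34)

end Pool.Agent.Lib.RealRAM.SP
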