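import Pool.Agent.Lib.RealRAM.Hoare

/-! Heights of real numbers and polynomial bounds. -/

namespace Pool.Agent.Lib.RealRAM.SP

open Finset

/-- a rational number with numerator and denominator at most `2 ^ K` -/
def Hb (K : ℕ) (x : ℝ) : Prop :=
  ∃ a b : ℤ, b ≠ 0 ∧ |a| ≤ 2 ^ K ∧ |b| ≤ 2 ^ K ∧ x = a / b

theorem Hb.mono {K K' : ℕ} {x : ℝ} (h : Hb K x) (hK : K ≤ K') : Hb K' x := by
  obtain ⟨a, b, h0, h1, h2, h3⟩ := h
  have : (2 : ℤ) ^ K ≤ 2 ^ K' := pow_le_pow_right₀ (by norm_num) hK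
  exact ⟨a, b, h0, h1.trans this, h2.trans this, h3⟩

theorem Hb.zero (K : ℕ) : Hb K 0 :=
  ⟨0, 1, one_ne_zero, by simp, by simpa using one_le_pow₀ (by norm_num), by simp⟩

theorem Hb.one (K : ℕ) : Hb K 1 :=
  ⟨1, 1, one_ne_zero, by simpa using one_le_pow₀ (by norm_num),
    by simpa using one_le_pow₀ (by norm_num), by simp⟩

theorem Hb.neg {K : ℕ} {x : ℝ} (h : Hb K x) : Hb K (-x) := by
  obtain ⟨a, b, h0, h1, h2, h3⟩ := h
  exact ⟨-a, b, h0, by simpa using h1, h2, by rw [h3]; push_cast; ring⟩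

theorem Hb.mul {K K' : ℕ} {x y : ℝ} (h : Hb K x) (h' : Hb K' y) : Hb (K + K') (x * y) := by
  obtain ⟨a, b, h0, h1, h2, h3⟩ := h
  obtain ⟨a', b', h0', h1', h2', h3'⟩ := h'
  refine ⟨a * a', b * b', mul_ne_zero h0 h0', ?_, ?_, ?_⟩
  · rw [abs_mul, pow_add]; gcongr
  · rw [abs_mul, pow_add]; gcongr
  · rw [h3, h3']; push_cast; ring

theorem Hb.inv {K : ℕ} {x : ℝ} (h : Hb K x) : Hb K x⁻¹ := by
  obtain ⟨a, b, h0, h1, h2, h3⟩ := h
  by_cases ha : a = 0
  · rw [h3, ha]; simpa using Hb.zero K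
  · exact ⟨b, a, ha, h2, h1, by rw [h3, inv_div]⟩

theorem Hb.div {K K' : ℕ} {x y : ℝ} (h : Hb K x) (h' : Hb K' y) : Hb (K + K') (x / y) := by
  rw [div_eq_mul_inv]; exact h.mul h'.inv

theorem Hb.add {K K' : ℕ} {x y : ℝ} (h : Hb K x) (h' : Hb K' y) :
    Hb (K + K' + 1) (x + y) := by
  obtain ⟨a, b, h0, h1, h2, h3⟩ := h
  obtain ⟨a', b', h0', h1', h2', h3'⟩ := h'
  have e1 : |a * b'| ≤ 2 ^ (K + K') := by rw [abs_mul, pow_add]; gcongr
  have e2 : |b * a'| ≤ 2 ^ (K + K') := by rw [abs_mul, pow_add]; gcongr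
  have e3 : |b * b'| ≤ 2 ^ (K + K') := by rw [abs_mul, pow_add]; gcongr
  have e4 : (0 : ℤ) < 2 ^ (K + K') := by positivity
  refine ⟨a * b' + b * a', b * b', mul_ne_zero h0 h0', ?_, ?_, ?_⟩
  · have := abs_add_le (a * b') (b * a')
    rw [pow_succ]; linarith
  · rw [pow_succ]; linarith
  · have hb : (b : ℝ) ≠ 0 := by exact_mod_cast h0
    have hb' : (b' : ℝ) ≠ 0 := by exact_mod_cast h0'
    rw [h3, h3']; push_cast; field_simp

theorem Hb.sub {K K' : ℕ} {x y : ℝ} (h : Hb K x) (h' : Hb K' y) :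
    Hb (K + K' + 1) (x - y) := by
  rw [sub_eq_add_neg]; exact h.add h'.neg

theorem Hb.bits {K : ℕ} {x : ℝ} (h : Hb K x) : ∃ r : ℚ, x = r ∧ bitLen r ≤ 2 * K + 3 := by
  obtain ⟨a, b, h0, h1, h2, h3⟩ := h
  refine ⟨Rat.divInt a b, by rw [h3, Rat.divInt_eq_div]; push_cast; rfl, ?_⟩
  have key : ∀ u : ℕ, ∀ z : ℤ, |z| ≤ 2 ^ K → u ≤ z.natAbs → Nat.size u ≤ K + 1 := by
    intro u z hz hu
    rw [Nat.size_le]
    have : z.natAbs ≤ 2 ^ K := by
      have : (z.natAbs : ℤ) ≤ 2 ^ K := by rwa [Int.natCast_natAbs]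
      exact_mod_cast this
    have h2 : 0 < 2 ^ K := by positivity
    rw [pow_succ]; omega
  have e1 : Nat.size (Rat.divInt a b).num.natAbs ≤ K + 1 := by
    by_cases ha : a = 0
    · simp [ha]
    · exact key _ a h1 (Nat.le_of_dvd (Int.natAbs_pos.2 ha)
        (Int.natAbs_dvd_natAbs.2 (Rat.num_dvd a h0)))
  have e2 : Nat.size (Rat.divInt a b).den ≤ K + 1 := by
    refine key _ b h2 (Nat.le_of_dvd (Int.natAbs_pos.2 h0) ?_)
    have := Int.natAbs_dvd_natAbs.2 (Rat.den_dvd a b)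
    simpa using this
  unfold bitLen; omega

theorem Hb.ofRat (r : ℚ) : Hb (bitLen r) (r : ℝ) := by
  refine ⟨r.num, r.den, by exact_mod_cast r.den_nz, ?_, ?_, by rw [Rat.cast_def]; simp⟩
  · have h1 := (Nat.lt_size_self r.num.natAbs).le
    have h2 : 2 ^ Nat.size r.num.natAbs ≤ 2 ^ bitLen r :=
      Nat.pow_le_pow_right (by norm_num) (by unfold bitLen; omega)
    rw [← Int.natCast_natAbs]; exact_mod_cast h1.trans h2
  · have h1 := (Nat.lt_size_self r.den).le
    have h2 : 2 ^ Nat.size r.den ≤ 2 ^ bitLen r :=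
      Nat.pow_le_pow_right (by norm_num) (by unfold bitLen; omega)
    rw [Nat.abs_cast]; exact_mod_cast h1.trans h2

/-- the height of a real number: infinite for irrational numbers -/
noncomputable def htR (x : ℝ) : ℕ∞ := ⨅ (k : ℕ) (_ : Hb k x), (k : ℕ∞)

theorem htR_le {x : ℝ} {k : ℕ} : htR x ≤ k ↔ Hb k x := by
  constructor
  · intro h
    by_contra hn
    have : ((k + 1 : ℕ) : ℕ∞) ≤ htR x := by
      refine le_iInf₂ fun j hj => ?_
      by_contra hlt
      exact hn (hj.mono (by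
        have : ¬ (k + 1 ≤ j) := fun h => hlt (by exact_mod_cast h)
        omega))
    have h2 := this.trans h
    have : k + 1 ≤ k := by exact_mod_cast h2
    omega
  · intro h
    exact iInf₂_le_of_le k h le_rfl

theorem htR_two {x y z : ℝ} {c : ℕ} (h : ∀ j k, Hb j x → Hb k y → Hb (j + k + c) z) :
    htR z ≤ htR x + htR y + c := by
  induction hx : htR x using ENat.recTopCoe with
  | top => simp
  | coe j =>
    induction hy : htR y using ENat.recTopCoe with
    | top => simp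
    | coe k =>
      have := htR_le.2 (h j k (htR_le.1 hx.le) (htR_le.1 hy.le))
      exact_mod_cast this

theorem htR_add (x y : ℝ) : htR (x + y) ≤ htR x + htR y + 1 :=
  htR_two (c := 1) fun _ _ => Hb.add

theorem htR_sub (x y : ℝ) : htR (x - y) ≤ htR x + htR y + 1 :=
  htR_two (c := 1) fun _ _ => Hb.sub

theorem htR_mul (x y : ℝ) : htR (x * y) ≤ htR x + htR y + 1 :=
  htR_two (c := 1) fun _ _ h h' => (h.mul h').mono (by omega)

theorem htR_div (x y : ℝ) : htR (x / y) ≤ htR x + htR y + 1 :=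
  htR_two (c := 1) fun _ _ h h' => (h.div h').mono (by omega)

@[simp] theorem htR_zero : htR 0 = 0 := le_antisymm (htR_le.2 (Hb.zero 0)) (by simp)

@[simp] theorem htR_one : htR 1 = 0 := le_antisymm (htR_le.2 (Hb.one 0)) (by simp)

/-! ### Polynomial bounds -/

theorem eval_mono (p : Polynomial ℕ) {a b : ℕ} (h : a ≤ b) : p.eval a ≤ p.eval b := by
  rw [Polynomial.eval_eq_sum_range, Polynomial.eval_eq_sum_range]
  gcongr

/-- `f` is bounded by a polynomial in `n`. -/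
def PB {I : Type} (n f : I → ℕ) : Prop := ∃ p : Polynomial ℕ, ∀ i, f i ≤ p.eval (n i)

namespace PB

variable {I : Type} {n m f g : I → ℕ}

theorem const (c : ℕ) : PB n (fun _ => c) := ⟨Polynomial.C c, fun _ => by simp⟩

theorem self : PB n n := ⟨Polynomial.X, fun _ => by simp⟩

theorem add (hf : PB n f) (hg : PB n g) : PB n (fun i => f i + g i) := by
  obtain ⟨p, hp⟩ := hf
  obtain ⟨q, hq⟩ := hg
  exact ⟨p + q, fun i => by simpa using Nat.add_le_add (hp i) (hq i)⟩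

theorem mul (hf : PB n f) (hg : PB n g) : PB n (fun i => f i * g i) := by
  obtain ⟨p, hp⟩ := hf
  obtain ⟨q, hq⟩ := hg
  exact ⟨p * q, fun i => by simpa using Nat.mul_le_mul (hp i) (hq i)⟩

theorem mono (hg : PB n g) (h : ∀ i, f i ≤ g i) : PB n f := by
  obtain ⟨q, hq⟩ := hg
  exact ⟨q, fun i => (h i).trans (hq i)⟩

theorem trans (hf : PB m f) (hm : PB n m) : PB n f := by
  obtain ⟨p, hp⟩ := hf
  obtain ⟨q, hq⟩ := hm
  exact ⟨p.comp q, fun i => by
    rw [Polynomial.eval_comp]; exact (hp i).trans (eval_mono p (hq i))⟩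

theorem eval (p : Polynomial ℕ) (hf : PB n f) : PB n (fun i => p.eval (f i)) :=
  PB.trans ⟨p, fun _ => le_rfl⟩ hf

theorem reindex {J : Type} (hf : PB n f) (h : J → I) :
    PB (fun j => n (h j)) (fun j => f (h j)) := by
  obtain ⟨p, hp⟩ := hf
  exact ⟨p, fun j => hp _⟩

end PB

/-- evaluation of a polynomial at an extended natural number -/
noncomputable def pe (p : Polynomial ℕ) (x : ℕ∞) : ℕ∞ := p.eval₂ (Nat.castRingHom ℕ∞) x

theorem pe_mono (p : Polynomial ℕ) {a b : ℕ∞} (h : a ≤ b) : pe p a ≤ pe p b := by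
  unfold pe
  rw [Polynomial.eval₂_eq_sum_range, Polynomial.eval₂_eq_sum_range]
  gcongr

theorem pe_coe (p : Polynomial ℕ) (a : ℕ) : pe p a = (p.eval a : ℕ) := by
  simp [pe]

/-- `f` is bounded by a polynomial in `n`, for extended naturals. -/
def PE {I : Type} (n f : I → ℕ∞) : Prop := ∃ p : Polynomial ℕ, ∀ i, f i ≤ pe p (n i)

namespace PE

variable {I : Type} {n m f g : I → ℕ∞}

theorem const (c : ℕ) : PE n (fun _ => c) := ⟨Polynomial.C c, fun _ => by simp [pe]⟩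

theorem one : PE n (fun _ => 1) := by simpa using const (n := n) 1

theorem self : PE n n := ⟨Polynomial.X, fun _ => by simp [pe]⟩

theorem add (hf : PE n f) (hg : PE n g) : PE n (fun i => f i + g i) := by
  obtain ⟨p, hp⟩ := hf
  obtain ⟨q, hq⟩ := hg
  exact ⟨p + q, fun i => by simpa [pe] using add_le_add (hp i) (hq i)⟩

theorem mul (hf : PE n f) (hg : PE n g) : PE n (fun i => f i * g i) := by
  obtain ⟨p, hp⟩ := hf
  obtain ⟨q, hq⟩ := hg
  refine ⟨p * q, fun i => ?_⟩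
  have := mul_le_mul' (hp i) (hq i)
  simpa [pe, Polynomial.eval₂_mul] using this

theorem mono (hg : PE n g) (h : ∀ i, f i ≤ g i) : PE n f := by
  obtain ⟨q, hq⟩ := hg
  exact ⟨q, fun i => (h i).trans (hq i)⟩

theorem trans (hf : PE m f) (hm : PE n m) : PE n f := by
  obtain ⟨p, hp⟩ := hf
  obtain ⟨q, hq⟩ := hm
  refine ⟨p.comp q, fun i => (hp i).trans ?_⟩
  have : pe (p.comp q) (n i) = pe p (pe q (n i)) := by
    unfold pe; rw [Polynomial.eval₂_comp]
  rw [this]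
  exact pe_mono p (hq i)

theorem eval (p : Polynomial ℕ) (hf : PE n f) : PE n (fun i => pe p (f i)) :=
  PE.trans ⟨p, fun _ => le_rfl⟩ hf

theorem reindex {J : Type} (hf : PE n f) (h : J → I) :
    PE (fun j => n (h j)) (fun j => f (h j)) := by
  obtain ⟨p, hp⟩ := hf
  exact ⟨p, fun j => hp _⟩

theorem ofPB {a b : I → ℕ} (h : PB a b) (ha : ∀ i, (a i : ℕ∞) ≤ n i) :
    PE n (fun i => (b i : ℕ∞)) := by
  obtain ⟨p, hp⟩ := h
  refine ⟨p, fun i => le_trans ?_ (pe_mono p (ha i))⟩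
  rw [pe_coe]; exact Nat.cast_le.2 (hp i)

/-- a bound for finite heights suffices -/
theorem of_nat (p : Polynomial ℕ) (h : ∀ i (k : ℕ), n i ≤ k → f i ≤ (p.eval k : ℕ)) :
    PE n f := by
  refine ⟨p + Polynomial.X, fun i => ?_⟩
  have e : pe (p + Polynomial.X) (n i) = pe p (n i) + n i := by simp [pe]
  rw [e]
  induction hn : n i using ENat.recTopCoe with
  | top => simp
  | coe k => rw [pe_coe]; exact (h i k hn.le).trans le_self_add

end PE

end Pool.Agent.Lib.RealRAM.SP
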