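import Pool.Agent.Lib.RealRAM.SP

/-! List combinators for `SP`. -/

namespace Pool.Agent.Lib.RealRAM.SP

variable {α β γ δ : Type} [Enc α] [Enc β] [Enc γ] [Enc δ]

omit [Enc γ] in
theorem foldl_bound {f : β → γ → β} {B : ℕ} {H : ℕ∞} (l : List γ) (b : β)
    (h : ∀ b x, x ∈ l → sz (f b x) ≤ sz b + B ∧ ht (f b x) ≤ max (ht b) H) :
    sz (l.foldl f b) ≤ sz b + l.length * B ∧ ht (l.foldl f b) ≤ max (ht b) H := by
  induction l generalizing b with
  | nil => simp
  | cons x l ih =>
    have h1 := ih (f b x) fun b y hy => h b y (by simp [hy])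
    have h2 := h b x (by simp)
    simp only [List.foldl_cons, List.length_cons]
    exact ⟨by nlinarith [h1.1, h2.1], h1.2.trans (max_le h2.2 (le_max_right _ _))⟩

namespace SP

/-- `foldl` whose accumulator grows by a piece computed from the current item -/
theorem foldl_growth {l : α → List γ} {s : α → β} {f : α → β → γ → β} (hl : SP l) (hs : SP s)
    (hf : SP (fun p : α × β × γ => f p.1 p.2.1 p.2.2)) {g : α × γ → δ} (hg : SP g)
    (h : ∀ a b x, sz (f a b x) ≤ sz b + sz (g (a, x)) + 1 ∧
      ht (f a b x) ≤ max (ht b) (ht (g (a, x)))) :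
    SP (fun a => (l a).foldl (f a) (s a)) := by
  obtain ⟨q, hq⟩ := hg.size
  obtain ⟨r, hr⟩ := hg.height
  have key : ∀ p : α × ℕ, _ := fun p => foldl_bound (f := f p.1)
    (B := q.eval (sz p.1 + sz (l p.1) + 1) + 1) (H := pe r (mu p.1 + mu (l p.1) + 1))
    ((l p.1).take p.2) (s p.1) fun b x hx => by
      have hx' := List.mem_of_mem_take hx
      refine ⟨(h _ _ _).1.trans ?_, (h _ _ _).2.trans (max_le_max le_rfl ((hr _).trans
        (pe_mono r ((mu_pair_le _ _).trans ?_))))⟩
      · have := (hq (p.1, x)).trans (eval_mono q (b := sz p.1 + sz (l p.1) + 1) (by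
          have := sz_le_of_mem hx'
          simp; omega))
        simp only at this
        omega
      · have := mu_le_of_mem hx'
        gcongr
  have h1 := hl.size.reindex (Prod.fst : α × ℕ → α)
  have h2 := hs.size.reindex (Prod.fst : α × ℕ → α)
  have h3 := hl.meas.reindex (Prod.fst : α × ℕ → α)
  have h4 := hs.height.reindex (Prod.fst : α × ℕ → α)
  refine foldl hl hs hf ((h2.add (h1.mul ((PB.eval q ((PB.self.add h1).add (PB.const 1))).add
    (PB.const 1)))).mono fun p => (key p).1.trans ?_)
    ((h4.add (PE.eval r ((PE.self.add h3).add PE.one))).mono fun p => (key p).2.trans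
      (max_le le_self_add le_add_self))
  have : ((l p.1).take p.2).length ≤ sz (l p.1) :=
    (List.length_take_le' _ _).trans (length_le_sz _)
  gcongr

theorem revAppend {f g : α → List β} (hf : SP f) (hg : SP g) :
    SP (fun a => (f a).reverse ++ g a) := by
  refine (foldl_growth (f := fun _ b x => x :: b) hf hg (by fun_prop) (g := fun p => p.2)
    (by fun_prop) fun a b x => ⟨by simp; omega, by simp [max_comm]⟩).congr fun a => ?_
  generalize g a = r
  induction f a generalizing r with
  | nil => rfl
  | cons x l ih => simp [← ih]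

@[fun_prop] theorem reverse {f : α → List β} (hf : SP f) : SP (fun a => (f a).reverse) :=
  (revAppend hf nil).congr fun _ => by simp

@[fun_prop] theorem append {f g : α → List β} (hf : SP f) (hg : SP g) :
    SP (fun a => f a ++ g a) :=
  (revAppend hf.reverse hg).congr fun _ => by simp

@[fun_prop] theorem flatMap {l : α → List β} {f : α → β → List γ} (hl : SP l)
    (hf : SP fun p : α × β => f p.1 p.2) : SP (fun a => (l a).flatMap (f a)) := by
  have hf' : SP fun p : α × List γ × β => f p.1 p.2.2 :=
    hf.comp (g := fun p : α × List γ × β => (p.1, p.2.2)) (by fun_prop)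
  refine (foldl_growth (f := fun a b x => b ++ f a x) hl nil (by fun_prop) hf
    fun a b x => ⟨by have := sz_append b (f a x); simp; omega, by simp⟩).congr fun a => ?_
  have : ∀ r : List γ, (l a).foldl (fun b x => b ++ f a x) r = r ++ (l a).flatMap (f a) := by
    induction l a with
    | nil => simp
    | cons x l ih => simp [ih]
  simp [this]

@[fun_prop] theorem map {l : α → List β} {f : α → β → γ} (hl : SP l)
    (hf : SP fun p : α × β => f p.1 p.2) : SP (fun a => (l a).map (f a)) :=
  (flatMap (f := fun a x => [f a x]) hl (by fun_prop)).congr fun a => by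
    induction l a with
    | nil => rfl
    | cons x l ih => simp [ih]

@[fun_prop] theorem filterMap {l : α → List β} {f : α → β → Option γ} (hl : SP l)
    (hf : SP fun p : α × β => f p.1 p.2) : SP (fun a => (l a).filterMap (f a)) :=
  (flatMap (f := fun a x => (f a x).toList) hl (by fun_prop)).congr fun a => by
    induction l a with
    | nil => rfl
    | cons x l ih => cases h : f a x <;> simp [ih, h]

@[fun_prop] theorem filter {l : α → List β} {f : α → β → Bool} (hl : SP l)
    (hf : SP fun p : α × β => f p.1 p.2) : SP (fun a => (l a).filter (f a)) :=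
  (flatMap (f := fun a x => bif f a x then [x] else []) hl (by fun_prop)).congr fun a => by
    induction l a with
    | nil => rfl
    | cons x l ih => cases h : f a x <;> simp [ih, h]

@[fun_prop] theorem find? {l : α → List β} {f : α → β → Bool} (hl : SP l)
    (hf : SP fun p : α × β => f p.1 p.2) : SP (fun a => (l a).find? (f a)) :=
  (filter hl hf).head?.congr fun _ => by simp

@[fun_prop] theorem findSome? {l : α → List β} {f : α → β → Option γ} (hl : SP l)
    (hf : SP fun p : α × β => f p.1 p.2) : SP (fun a => (l a).findSome? (f a)) :=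
  (filterMap hl hf).head?.congr fun _ => by simp

@[fun_prop] theorem any {l : α → List β} {f : α → β → Bool} (hl : SP l)
    (hf : SP fun p : α × β => f p.1 p.2) : SP (fun a => (l a).any (f a)) :=
  (find? hl hf).isSome.congr fun _ => by
    rw [Bool.eq_iff_iff]; simp

@[fun_prop] theorem all {l : α → List β} {f : α → β → Bool} (hl : SP l)
    (hf : SP fun p : α × β => f p.1 p.2) : SP (fun a => (l a).all (f a)) :=
  (any (f := fun a x => !f a x) hl (by fun_prop)).not.congr fun _ => by
    simp [List.all_eq_not_any_not]

/-- a fold that keeps either the accumulator or the current item -/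
theorem select {l : α → List β} {s : α → β} {c : α → β → β → Bool} (hl : SP l) (hs : SP s)
    (hc : SP fun p : α × β × β => c p.1 p.2.1 p.2.2) :
    SP (fun a => (l a).foldl (fun b x => bif c a b x then x else b) (s a)) :=
  foldl_growth hl hs (by fun_prop) (g := fun p => p.2) (by fun_prop) fun a b x => by
    cases c a b x
    · simp; omega
    · simp; omega

end SP

end Pool.Agent.Lib.RealRAM.SP
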