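import Pool.Agent.Lib.RealRAM.SPCore

/-! Families of trees computed in strongly polynomial time. -/

namespace Pool.Agent.Lib.RealRAM.SP

/-- size plus height -/
noncomputable def Val.mu (v : Val) : ℕ∞ := v.sz + v.ht

theorem Val.sz_le_mu (v : Val) : (v.sz : ℕ∞) ≤ v.mu := le_self_add
theorem Val.ht_le_mu (v : Val) : v.ht ≤ v.mu := le_add_self

/-- one program maps `inp i` to `out i` in time polynomial in the size, with heights polynomial
in size plus height -/
def Rz {I : Type} (inp out : I → Val) : Prop :=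
  ∃ (P : Cmd) (T : I → ℕ) (B : I → ℕ∞), PB (fun i => (inp i).sz) T ∧ PE (fun i => (inp i).mu) B ∧
    ∀ i, (out i).sz ≤ T i ∧ (out i).ht ≤ B i ∧ Comp (fun x => htR x ≤ B i) P (inp i) (out i) (T i)

namespace Rz

variable {I : Type} {u v w : I → Val}

theorem size (h : Rz u v) : PB (fun i => (u i).sz) (fun i => (v i).sz) := by
  obtain ⟨_, T, B, h1, -, h3⟩ := h
  exact h1.mono fun i => (h3 i).1

theorem height (h : Rz u v) : PE (fun i => (u i).mu) (fun i => (v i).ht) := by
  obtain ⟨_, T, B, -, h2, h3⟩ := h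
  exact h2.mono fun i => (h3 i).2.1

theorem mu (h : Rz u v) : PE (fun i => (u i).mu) (fun i => (v i).mu) :=
  (PE.ofPB h.size fun i => (u i).sz_le_mu).add h.height

theorem reindex {J : Type} (h : Rz u v) (g : J → I) : Rz (fun j => u (g j)) (fun j => v (g j)) := by
  obtain ⟨P, T, B, h1, h2, h3⟩ := h
  exact ⟨P, _, _, h1.reindex g, h2.reindex g, fun j => h3 (g j)⟩

theorem congr {u' v' : I → Val} (h : Rz u v) (h1 : ∀ i, u' i = u i) (h2 : ∀ i, v' i = v i) :
    Rz u' v' := by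
  rwa [funext h1, funext h2]

theorem simple (P : Cmd) (c : ℕ) (h : ∀ i, (v i).sz ≤ (u i).sz + c ∧
    (v i).ht ≤ (u i).ht + (u i).ht + 1 ∧
      Comp (fun x => htR x ≤ (u i).ht + (u i).ht + 1) P (u i) (v i) c) : Rz u v :=
  ⟨P, fun i => (u i).sz + c, fun i => (u i).ht + (u i).ht + 1, PB.self.add (PB.const c),
    ((PE.self.mono fun i => (u i).ht_le_mu).add (PE.self.mono fun i => (u i).ht_le_mu)).add PE.one,
    fun i => ⟨(h i).1, (h i).2.1, (h i).2.2.mono (fun _ h => h) (Nat.le_add_left _ _)⟩⟩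

theorem le3 (a : ℕ∞) : a ≤ a + a + 1 := le_self_add.trans le_self_add

theorem refl : Rz u u := simple _ 1 fun _ => ⟨by omega, le3 _, comp_id _⟩

theorem nil : Rz u (fun _ => .nil) := simple _ 5 fun _ => ⟨by simp [Val.sz], by simp [Val.ht],
  comp_nil _⟩

theorem one : Rz u (fun _ => .atom 1) := simple _ 6 fun _ => ⟨by simp [Val.sz], by simp [Val.ht],
  comp_one _ (by simp)⟩

theorem car : Rz (fun i => .cons (u i) (v i)) u := simple _ 1 fun _ =>
  ⟨by simp [Val.sz]; omega, (le_max_left _ _).trans (le3 _), comp_car _ _⟩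

theorem cdr : Rz (fun i => .cons (u i) (v i)) v := simple _ 1 fun _ =>
  ⟨by simp [Val.sz]; omega, (le_max_right _ _).trans (le3 _), comp_cdr _ _⟩

theorem two_le (x y : ℝ) : htR x + htR y + 1 ≤ (Val.cons (.atom x) (.atom y)).ht +
    (Val.cons (.atom x) (.atom y)).ht + 1 := by
  simp only [Val.ht]
  gcongr
  · exact le_max_left _ _
  · exact le_max_right _ _

variable {x y : I → ℝ}

theorem add : Rz (fun i => .cons (.atom (x i)) (.atom (y i))) (fun i => .atom (x i + y i)) :=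
  simple _ 6 fun _ => ⟨by simp [Val.sz], (htR_add _ _).trans (two_le _ _),
    comp_add _ _ ((htR_add _ _).trans (two_le _ _))⟩

theorem sub : Rz (fun i => .cons (.atom (x i)) (.atom (y i))) (fun i => .atom (x i - y i)) :=
  simple _ 6 fun _ => ⟨by simp [Val.sz], (htR_sub _ _).trans (two_le _ _),
    comp_sub _ _ ((htR_sub _ _).trans (two_le _ _))⟩

theorem mul : Rz (fun i => .cons (.atom (x i)) (.atom (y i))) (fun i => .atom (x i * y i)) :=
  simple _ 6 fun _ => ⟨by simp [Val.sz], (htR_mul _ _).trans (two_le _ _),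
    comp_mul _ _ ((htR_mul _ _).trans (two_le _ _))⟩

theorem div (hy : ∀ i, y i ≠ 0) :
    Rz (fun i => .cons (.atom (x i)) (.atom (y i))) (fun i => .atom (x i / y i)) :=
  simple _ 6 fun i => ⟨by simp [Val.sz], (htR_div _ _).trans (two_le _ _),
    comp_div _ _ (hy i) ((htR_div _ _).trans (two_le _ _))⟩

theorem lt : Rz (fun i => .cons (.atom (x i)) (.atom (y i))) (fun i => vb (decide (x i < y i))) :=
  simple _ 35 fun i => ⟨by cases decide (x i < y i) <;> simp [Val.sz, vb],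
    by cases decide (x i < y i) <;> simp [Val.ht, vb], comp_lt _ _⟩

theorem comp (h : Rz u v) (h' : Rz v w) : Rz u w := by
  have s1 := h.size
  have s2 := h.mu
  obtain ⟨P, T, B, h1, h2, h3⟩ := h
  obtain ⟨P', T', B', h1', h2', h3'⟩ := h'
  exact ⟨.andThen P P', fun i => T i + T' i, fun i => B i + B' i, h1.add (h1'.trans s1),
    h2.add (h2'.trans s2), fun i => ⟨(h3' i).1.trans (Nat.le_add_left _ _), (h3' i).2.1.trans le_add_self,
      ((h3 i).2.2.mono (fun _ h => h.trans le_self_add) le_rfl).seq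
        ((h3' i).2.2.mono (fun _ h => h.trans le_add_self) le_rfl)⟩⟩

theorem pair (h : Rz u v) (h' : Rz u w) : Rz u (fun i => .cons (v i) (w i)) := by
  obtain ⟨P, T, B, h1, h2, h3⟩ := h
  obtain ⟨P', T', B', h1', h2', h3'⟩ := h'
  refine ⟨pairCmd P P', fun i => T i + T' i + 24, fun i => B i + B' i,
    (h1.add h1').add (PB.const _), h2.add h2', fun i => ⟨?_, ?_,
      ((h3 i).2.2.mono (fun _ h => h.trans le_self_add) le_rfl).pair
        ((h3' i).2.2.mono (fun _ h => h.trans le_add_self) le_rfl)⟩⟩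
  · have := (h3 i).1
    have := (h3' i).1
    simp only [Val.sz]; omega
  · exact max_le ((h3 i).2.1.trans le_self_add) ((h3' i).2.1.trans le_add_self)

theorem PB.split {n f : I → ℕ} (c : I → Prop) (h1 : PB (fun i : {i // c i} => n i.1) fun i => f i.1)
    (h2 : PB (fun i : {i // ¬ c i} => n i.1) fun i => f i.1) : PB n f := by
  obtain ⟨p, hp⟩ := h1
  obtain ⟨q, hq⟩ := h2
  refine ⟨p + q, fun i => ?_⟩
  by_cases h : c i
  · have := hp ⟨i, h⟩
    simp only [Polynomial.eval_add] at this ⊢; omega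
  · have := hq ⟨i, h⟩
    simp only [Polynomial.eval_add] at this ⊢; omega

/-- case distinction on the shape of `c i` -/
theorem ite {c : I → Val} (hc : Rz u c)
    (h1 : Rz (fun i : {i // (c i).isCons = true} => u i.1) fun i => w i.1)
    (h2 : Rz (fun i : {i // (c i).isCons = false} => u i.1) fun i => w i.1) : Rz u w := by
  refine (hc.pair refl).comp ?_
  obtain ⟨P, T, B, ⟨p, hp⟩, ⟨q, hq⟩, h3⟩ := h1
  obtain ⟨P', T', B', ⟨p', hp'⟩, ⟨q', hq'⟩, h3'⟩ := h2
  have hm : PE (fun i => (Val.cons (c i) (u i)).mu) fun i => (u i).mu := PE.self.mono fun i => by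
    simp only [Val.mu, Val.sz, Val.ht]
    gcongr
    · exact_mod_cast (by omega)
    · exact le_max_right _ _
  have hs : PB (fun i => (Val.cons (c i) (u i)).sz) fun i => (u i).sz := PB.self.mono fun i => by
    simp only [Val.sz]; omega
  refine ⟨iteCmd P P', fun i => 1 + (p.eval (u i).sz + p'.eval (u i).sz) + 1,
    fun i => pe q (u i).mu + pe q' (u i).mu,
    ((PB.const 1).add ((hs.eval p).add (hs.eval p'))).add (PB.const 1),
    (hm.eval q).add (hm.eval q'), fun i => ?_⟩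
  have k1 : ∀ h : (c i).isCons = true, _ := fun h =>
    And.intro (h3 ⟨i, h⟩) (And.intro (hp ⟨i, h⟩) (hq ⟨i, h⟩))
  have k2 : ∀ h : (c i).isCons = false, _ := fun h =>
    And.intro (h3' ⟨i, h⟩) (And.intro (hp' ⟨i, h⟩) (hq' ⟨i, h⟩))
  refine ⟨?_, ?_, Comp.ite (fun h => ?_) fun h => ?_⟩
  · cases h : (c i).isCons
    · have a := (k2 h).1.1; have b := (k2 h).2.1
      simp only at a b ⊢; omega
    · have a := (k1 h).1.1; have b := (k1 h).2.1
      simp only at a b ⊢; omega
  · cases h : (c i).isCons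
    · exact ((k2 h).1.2.1.trans (k2 h).2.2).trans le_add_self
    · exact ((k1 h).1.2.1.trans (k1 h).2.2).trans le_self_add
  · exact (k1 h).1.2.2.mono (fun _ hx => (hx.trans (k1 h).2.2).trans le_self_add)
      ((k1 h).2.1.trans (by simp))
  · exact (k2 h).1.2.2.mono (fun _ hx => (hx.trans (k2 h).2.2).trans le_add_self)
      ((k2 h).2.1.trans (by simp))

/-- a loop with polynomially bounded states -/
theorem loop (c r : I → ℕ → Val) (N : I → ℕ) (h1 : ∀ i, ∀ m < N i, (c i m).isCons = true)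
    (h2 : ∀ i, (c i (N i)).isCons = false)
    (h : Rz (fun p : {p : I × ℕ // p.2 < N p.1} => .cons (c p.1.1 p.1.2) (r p.1.1 p.1.2))
      fun p => .cons (c p.1.1 (p.1.2 + 1)) (r p.1.1 (p.1.2 + 1)))
    (hN : PB (fun i => (Val.cons (c i 0) (r i 0)).sz) N)
    (hs : PB (fun p : {p : I × ℕ // p.2 ≤ N p.1} => (Val.cons (c p.1.1 0) (r p.1.1 0)).sz)
      fun p => (Val.cons (c p.1.1 p.1.2) (r p.1.1 p.1.2)).sz)
    (hh : PE (fun p : {p : I × ℕ // p.2 ≤ N p.1} => (Val.cons (c p.1.1 0) (r p.1.1 0)).mu)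
      fun p => (Val.cons (c p.1.1 p.1.2) (r p.1.1 p.1.2)).mu) :
    Rz (fun i => .cons (c i 0) (r i 0)) fun i => .cons (c i (N i)) (r i (N i)) := by
  obtain ⟨P, T, B, ⟨p, hp⟩, ⟨q, hq⟩, h3⟩ := h
  obtain ⟨ps, hps⟩ := hs
  obtain ⟨ph, hph⟩ := hh
  refine ⟨whileCmd P, fun i => N i * (p.eval (ps.eval (Val.cons (c i 0) (r i 0)).sz) + 1) + 1 +
      ps.eval (Val.cons (c i 0) (r i 0)).sz,
    fun i => pe q (pe ph (Val.cons (c i 0) (r i 0)).mu) + pe ph (Val.cons (c i 0) (r i 0)).mu,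
    ((hN.mul (((PB.self.eval ps).eval p).add (PB.const 1))).add (PB.const 1)).add (PB.self.eval ps),
    ((PE.self.eval ph).eval q).add (PE.self.eval ph), fun i => ⟨?_, ?_, ?_⟩⟩
  · exact (hps ⟨(i, N i), le_rfl⟩).trans (Nat.le_add_left _ _)
  · exact ((Val.ht_le_mu _).trans (hph ⟨(i, N i), le_rfl⟩)).trans le_add_self
  · refine (Comp.whileC (c i) (r i) (N i) _ (h1 i) (h2 i) fun m hm => ?_).mono (fun _ h => h)
      (Nat.le_add_right _ _)
    refine (h3 ⟨(i, m), hm⟩).2.2.mono (fun x hx => (hx.trans ((hq _).trans (pe_mono q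
      (hph ⟨(i, m), hm.le⟩)))).trans le_self_add) ((hp _).trans (eval_mono p (hps ⟨(i, m), hm.le⟩)))

end Rz

end Pool.Agent.Lib.RealRAM.SP
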